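import Mathlib

set_option autoImplicit false

/-!
# Chains of convex sets
-/

namespace Pool.Agent.RicciCone

open Set Filter Topology Metric

variable {V : Type*} [NormedAddCommGroup V] [NormedSpace ℝ V] [FiniteDimensional ℝ V]

lemma chain_finite_subset {c : Set (Set V)} (hc : IsChain (· ⊆ ·) c) (hne : c.Nonempty)
    {ι : Type*} [Fintype ι] (b : ι → V) (hb : ∀ i, b i ∈ ⋃₀ c) : ∃ C ∈ c, ∀ i, b i ∈ C := by
  classical
  have h : ∀ s : Finset ι, ∃ C ∈ c, ∀ i ∈ s, b i ∈ C := by
    intro s
    induction s using Finset.induction_on with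
    | empty =>
      obtain ⟨C, hC⟩ := hne
      exact ⟨C, hC, fun i hi => by simp at hi⟩
    | insert a s _ ih =>
      obtain ⟨C, hC, hCs⟩ := ih
      obtain ⟨D, hD, hDa⟩ := hb a
      rcases hc.total hC hD with h1 | h1
      · refine ⟨D, hD, fun i hi => ?_⟩
        rcases Finset.mem_insert.mp hi with h2 | h2
        · rw [h2]; exact hDa
        · exact h1 (hCs i h2)
      · refine ⟨C, hC, fun i hi => ?_⟩
        rcases Finset.mem_insert.mp hi with h2 | h2
        · rw [h2]; exact h1 hDa
        · exact hCs i h2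
  obtain ⟨C, hC, hCs⟩ := h Finset.univ
  exact ⟨C, hC, fun i => hCs i (Finset.mem_univ i)⟩

lemma chain_convex {c : Set (Set V)} (hc : IsChain (· ⊆ ·) c) (hconv : ∀ C ∈ c, Convex ℝ C) :
    Convex ℝ (⋃₀ c) :=
  hc.directedOn.convex_sUnion (fun C hC => hconv C hC)

/-- The interior of the closure of the union of a chain of convex sets with nonempty interior. -/
lemma chain_interior {c : Set (Set V)} (hc : IsChain (· ⊆ ·) c) (hne : c.Nonempty)
    (hconv : ∀ C ∈ c, Convex ℝ C) (hint : ∀ C ∈ c, (interior C).Nonempty) :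
    interior (closure (⋃₀ c)) ⊆ ⋃ C : c, interior (C : Set V) := by
  have hU := chain_convex hc hconv
  have hUint : (interior (⋃₀ c)).Nonempty := by
    obtain ⟨C, hC⟩ := hne
    exact (hint C hC).mono (interior_mono (subset_sUnion_of_mem hC))
  rw [hU.interior_closure_eq_interior_of_nonempty_interior hUint]
  intro x hx
  obtain ⟨b, hb1, hb2⟩ := exists_mem_interior_convexHull_affineBasis (mem_interior_iff_mem_nhds.mp hx)
  obtain ⟨C, hC, hbC⟩ := chain_finite_subset hc hne (fun i => b i)
    (fun i => hb2 (subset_convexHull ℝ _ (mem_range_self i)))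
  have h1 : convexHull ℝ (range b) ⊆ C := by
    apply convexHull_min _ (hconv C hC)
    rintro _ ⟨i, rfl⟩
    exact hbC i
  exact mem_iUnion.mpr ⟨⟨C, hC⟩, interior_mono h1 hb1⟩

/-- A compact subset of the interior of the closure of the union lies in the interior of a member. -/
lemma chain_compact {c : Set (Set V)} (hc : IsChain (· ⊆ ·) c) (hne : c.Nonempty)
    (hconv : ∀ C ∈ c, Convex ℝ C) (hint : ∀ C ∈ c, (interior C).Nonempty)
    {K : Set V} (hK : IsCompact K) (hKU : K ⊆ interior (closure (⋃₀ c))) :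
    ∃ C ∈ c, K ⊆ interior C := by
  haveI : Nonempty c := hne.to_subtype
  obtain ⟨C, hC⟩ := hK.elim_directed_cover (fun C : c => interior (C : Set V))
    (fun _ => isOpen_interior) (hKU.trans (chain_interior hc hne hconv hint)) (by
      intro A B
      rcases hc.total A.2 B.2 with h | h
      · exact ⟨B, interior_mono h, subset_refl _⟩
      · exact ⟨A, subset_refl _, interior_mono h⟩)
  exact ⟨C, C.2, hC⟩

end Pool.Agent.RicciCone
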