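import Mathlib

set_option autoImplicit false

/-!
# Forward invariance for autonomous ODEs: abstract lemmas
-/

namespace Pool.Agent.RicciCone

open Set Filter Topology Metric

section
variable {V : Type*} [NormedAddCommGroup V] [NormedSpace ℝ V]

/-- Forward invariance of `F` under `R' = Q(R)`: every solution on `[0,T)` that starts in `F`
stays in `F`. -/
def Inv (Q : V → V) (F : Set V) : Prop :=
  ∀ (T : ℝ) (R : ℝ → V), (∀ t ∈ Ico 0 T, HasDerivWithinAt R (Q (R t)) (Ico 0 T) t) →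
    R 0 ∈ F → ∀ t ∈ Ico 0 T, R t ∈ F

lemma deriv_right {Q : V → V} {T : ℝ} {R : ℝ → V}
    (hR : ∀ t ∈ Ico 0 T, HasDerivWithinAt R (Q (R t)) (Ico 0 T) t) {t : ℝ} (ht : t ∈ Ico 0 T) :
    HasDerivWithinAt R (Q (R t)) (Ici t) t := by
  apply (hR t ht).mono_of_mem_nhdsWithin
  have h1 : Ico t T ∈ 𝓝[≥] t := Ico_mem_nhdsGE ht.2
  exact mem_of_superset h1 (Ico_subset_Ico_left ht.1)

lemma deriv_int {Q : V → V} {T : ℝ} {R : ℝ → V}
    (hR : ∀ t ∈ Ico 0 T, HasDerivWithinAt R (Q (R t)) (Ico 0 T) t) {t : ℝ} (ht : t ∈ Ioo 0 T) :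
    HasDerivAt R (Q (R t)) t := by
  apply (hR t ⟨ht.1.le, ht.2⟩).hasDerivAt
  exact mem_of_superset (Ioo_mem_nhds ht.1 ht.2) Ioo_subset_Ico_self

lemma cont_on {Q : V → V} {T : ℝ} {R : ℝ → V}
    (hR : ∀ t ∈ Ico 0 T, HasDerivWithinAt R (Q (R t)) (Ico 0 T) t) : ContinuousOn R (Ico 0 T) :=
  fun t ht => (hR t ht).continuousWithinAt

/-- To prove invariance of a closed set it is enough to work locally to the right. -/
lemma inv_of_local {Q : V → V} {F : Set V} (hF : IsClosed F)
    (hloc : ∀ (T : ℝ) (R : ℝ → V), (∀ t ∈ Ico 0 T, HasDerivWithinAt R (Q (R t)) (Ico 0 T) t) →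
      ∀ t ∈ Ico 0 T, R t ∈ F → ∀ᶠ u in 𝓝[>] t, R u ∈ F) : Inv Q F := by
  intro T R hR h0 t ht
  have hcont : ContinuousOn R (Icc 0 t) :=
    (cont_on hR).mono (fun s hs => ⟨hs.1, lt_of_le_of_lt hs.2 ht.2⟩)
  have hclosed : IsClosed ({s | R s ∈ F} ∩ Icc 0 t) := by
    have := hcont.preimage_isClosed_of_isClosed isClosed_Icc hF
    rw [inter_comm] at this
    exact this
  have hsub := IsClosed.Icc_subset_of_forall_mem_nhdsWithin hclosed (a := 0) (b := t) h0
    (fun x hx => hloc T R hR x ⟨hx.2.1, lt_trans hx.2.2 ht.2⟩ hx.1)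
  exact hsub ⟨ht.1, le_refl t⟩

variable [CompleteSpace V]

/-- The closure of a forward invariant set is forward invariant. -/
lemma inv_closure {Q : V → V} (hQ : ContDiff ℝ 1 Q) {U : Set V} (hU : Inv Q U) :
    Inv Q (closure U) := by
  apply inv_of_local isClosed_closure
  intro T R hR x hx hxU
  obtain ⟨ε, hε, a, r, L, K, hr, hpl⟩ := IsPicardLindelof.of_contDiffAt_one (hQ.contDiffAt (x := R x))
  have hpl := hpl x
  obtain ⟨α, hα, L', hL'⟩ := hpl.exists_forall_mem_closedBall_eq_hasDerivWithinAt_lipschitzOnWith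
  have hapos : 0 < (a : ℝ) := by
    have h1 := hpl.mul_max_le
    have h2 : (0 : ℝ) ≤ L * max (x + ε - (⟨x, (by simp [hε.le])⟩ : Icc (x - ε) (x + ε)))
      ((⟨x, (by simp [hε.le])⟩ : Icc (x - ε) (x + ε)) - (x - ε)) := by
      apply mul_nonneg L.2
      apply le_max_of_le_left
      simp [hε.le]
    have h3 : (0 : ℝ) < r := hr
    have h4 := h2.trans h1
    linarith
  have hx0 : R x ∈ closedBall (R x) (r : ℝ) := mem_closedBall_self r.2
  obtain ⟨hα0, hαd⟩ := hα (R x) hx0
  have hLip : LipschitzOnWith K Q (closedBall (R x) a) :=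
    hpl.lipschitzOnWith x ⟨by linarith, by linarith⟩
  -- choose a small time
  have hRc : ∀ᶠ u in 𝓝[≥] x, R u ∈ closedBall (R x) a := by
    have := (deriv_right hR hx).continuousWithinAt
    exact this.eventually (closedBall_mem_nhds _ hapos)
  have hαc : ∀ᶠ u in 𝓝[≥] x, α (R x) u ∈ closedBall (R x) a := by
    have h1 := (hαd x ⟨by linarith, by linarith⟩).continuousWithinAt
    have h2 : ContinuousWithinAt (α (R x)) (Ici x) x := by
      apply h1.mono_of_mem_nhdsWithin
      have h3 : Icc x (x + ε) ∈ 𝓝[≥] x := Icc_mem_nhdsGE (by linarith)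
      exact mem_of_superset h3 (Icc_subset_Icc_left (by linarith))
    have h4 := h2.eventually (closedBall_mem_nhds _ hapos)
    have h5 : α (R x) x = R x := hα0
    rw [h5] at h4
    exact h4
  have hsmall : ∀ᶠ u in 𝓝[≥] x, u < min T (x + ε) := by
    apply mem_nhdsWithin_of_mem_nhds
    exact Iio_mem_nhds (lt_min hx.2 (by linarith))
  obtain ⟨y, hy1, hy2⟩ := (mem_nhdsGE_iff_exists_Icc_subset).mp ((hRc.and hαc).and hsmall)
  have hxy : x < y := hy1
  have hyT : y < T := lt_of_lt_of_le (hy2 ⟨hxy.le, le_refl y⟩).2 (min_le_left _ _)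
  have hyε : y < x + ε := lt_of_lt_of_le (hy2 ⟨hxy.le, le_refl y⟩).2 (min_le_right _ _)
  have heq : EqOn R (α (R x)) (Icc x y) := by
    apply ODE_solution_unique_of_mem_Icc_right (v := fun _ => Q) (s := fun _ => closedBall (R x) a)
      (K := K)
    · intro t _; exact hLip
    · exact (cont_on hR).mono (fun s hs => ⟨hx.1.trans hs.1, lt_of_le_of_lt hs.2 hyT⟩)
    · intro t ht
      exact deriv_right hR ⟨hx.1.trans ht.1, lt_trans ht.2 hyT⟩
    · intro t ht; exact (hy2 ⟨ht.1, ht.2.le⟩).1.1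
    · intro t ht
      have h1 := (hαd t ⟨by linarith [ht.1], by linarith [ht.2]⟩).continuousWithinAt
      exact h1.mono (fun s hs => ⟨by linarith [hs.1], by linarith [hs.2]⟩)
    · intro t ht
      have h1 := hαd t ⟨by linarith [ht.1], by linarith [ht.2]⟩
      apply h1.mono_of_mem_nhdsWithin
      have h3 : Icc t (x + ε) ∈ 𝓝[≥] t := Icc_mem_nhdsGE (by linarith [ht.2])
      exact mem_of_superset h3 (Icc_subset_Icc_left (by linarith [ht.1]))
    · intro t ht; exact (hy2 ⟨ht.1, ht.2.le⟩).1.2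
    · exact hα0.symm
  -- conclusion
  have hfin : ∀ u ∈ Icc x y, R u ∈ closure U := by
    intro u hu
    rw [heq hu]
    have huI : u ∈ Icc (x - ε) (x + ε) := ⟨by linarith [hu.1], by linarith [hu.2]⟩
    have hcw : ContinuousWithinAt (fun z => α z u) (U ∩ closedBall (R x) r) (R x) :=
      ((hL' u huI).continuousOn.continuousWithinAt hx0).mono inter_subset_right
    have hcl : R x ∈ closure (U ∩ closedBall (R x) r) := by
      rw [mem_closure_iff_nhds] at hxU ⊢
      intro t ht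
      obtain ⟨z, hz⟩ := hxU (t ∩ closedBall (R x) r) (inter_mem ht (closedBall_mem_nhds _ hr))
      exact ⟨z, hz.1.1, hz.2, hz.1.2⟩
    apply hcw.mem_closure hcl
    intro z hz
    obtain ⟨hz0, hzd⟩ := hα z hz.2
    -- time-shifted solution
    have h1 := hU (ε) (fun s => α z (x + s)) (by
      intro s hs
      have h2 := hzd (x + s) ⟨by linarith [hs.1], by linarith [hs.2]⟩
      have h3 : HasDerivWithinAt (fun s : ℝ => x + s) 1 (Ico 0 ε) s :=
        ((hasDerivAt_id s).const_add x).hasDerivWithinAt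
      have h4 := h2.scomp s h3 (t' := Icc (x - ε) (x + ε)) (fun w hw => ⟨by linarith [hw.1], by linarith [hw.2]⟩)
      rw [one_smul] at h4
      exact h4) (by
      have : α z x = z := hz0
      simpa [this] using hz.1) (u - x) ⟨by linarith [hu.1], by linarith [hu.2]⟩
    simpa using h1
  have hmem : Ioc x y ∈ 𝓝[>] x := Ioc_mem_nhdsGT hxy
  filter_upwards [hmem] with u hu
  exact hfin u ⟨hu.1.le, hu.2⟩

end

end Pool.Agent.RicciCone
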