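import Mathlib

set_option autoImplicit false

/-!
# Curvature cones and the Ricci flow ODE: definitions

An algebraic curvature operator `R : Λ²ℝⁿ → Λ²ℝⁿ` is given by its components
`R i j k l = ⟨R (e_i ∧ e_j), e_k ∧ e_l⟩`.
-/

namespace Pool.Agent.RicciCone

open Finset

/-- 4-tensors on `ℝⁿ`, in components. -/
abbrev Tensor4 (n : ℕ) := Fin n → Fin n → Fin n → Fin n → ℝ

/-- `S²_B Λ²ℝⁿ`: the components `R i j k l = ⟨R (e_i ∧ e_j), e_k ∧ e_l⟩` of the self-adjoint
endomorphisms of `Λ²ℝⁿ` that satisfy the first Bianchi identity. -/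
def curvSubmodule (n : ℕ) : Submodule ℝ (Tensor4 n) where
  carrier := {R | (∀ i j k l, R j i k l = - R i j k l) ∧ (∀ i j k l, R k l i j = R i j k l) ∧
    (∀ i j k l, R i j k l + R j k i l + R k i j l = 0)}
  add_mem' := by
    rintro R S ⟨h1, h2, h3⟩ ⟨k1, k2, k3⟩
    refine ⟨fun i j k l => ?_, fun i j k l => ?_, fun i j k l => ?_⟩
    · simp only [Pi.add_apply]; rw [h1, k1]; ring
    · simp only [Pi.add_apply]; rw [h2, k2]
    · simp only [Pi.add_apply]; have := h3 i j k l; have := k3 i j k l; linarith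
  zero_mem' := by
    refine ⟨fun i j k l => ?_, fun i j k l => ?_, fun i j k l => ?_⟩ <;> simp
  smul_mem' := by
    rintro c R ⟨h1, h2, h3⟩
    refine ⟨fun i j k l => ?_, fun i j k l => ?_, fun i j k l => ?_⟩
    · simp only [Pi.smul_apply, smul_eq_mul]; rw [h1]; ring
    · simp only [Pi.smul_apply, smul_eq_mul]; rw [h2]
    · simp only [Pi.smul_apply, smul_eq_mul]; have := h3 i j k l
      rw [← mul_add, ← mul_add, this, mul_zero]

/-- The space `S²_B Λ²ℝⁿ` of algebraic curvature operators. -/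
abbrev Curv (n : ℕ) : Type := curvSubmodule n

/-- The index set `{(p, q) : p < q}` of the orthonormal basis `(e_p ∧ e_q)` of `Λ²ℝⁿ`. -/
def pairs (n : ℕ) : Finset (Fin n × Fin n) := Finset.univ.filter (fun a => a.1 < a.2)

/-- The skew-symmetric matrix of `e_p ∧ e_q` under `Λ²ℝⁿ ≅ so(n)`. -/
def wedge {n : ℕ} (p q : Fin n) : Matrix (Fin n) (Fin n) ℝ :=
  Matrix.single p q 1 - Matrix.single q p 1

/-- The skew-symmetric matrix of the 2-form `R (e_p ∧ e_q)`, under `Λ²ℝⁿ ≅ so(n)`. -/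
def opMat {n : ℕ} (R : Tensor4 n) (p q : Fin n) : Matrix (Fin n) (Fin n) ℝ :=
  Matrix.of fun k l => R p q k l

/-- The Lie bracket of `so(n)`: the commutator of matrices. -/
def bracket {n : ℕ} (A B : Matrix (Fin n) (Fin n) ℝ) : Matrix (Fin n) (Fin n) ℝ :=
  A * B - B * A

/-- Components of `R²`. -/
def sq {n : ℕ} (R : Tensor4 n) : Tensor4 n := fun i j k l =>
  ∑ a ∈ pairs n, R i j a.1 a.2 * R a.1 a.2 k l

/-- Components of `R^#`:
`⟨R^# α, β⟩ = 1/2 ∑_{a,b} ⟨[R ω_a, R ω_b], α⟩ ⟨[ω_a, ω_b], β⟩` for `α = e_i ∧ e_j`,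
`β = e_k ∧ e_l` and the orthonormal basis `ω_a = e_p ∧ e_q`, `p < q`; the `(i,j)` entry of a
skew-symmetric matrix is its inner product with `e_i ∧ e_j`. -/
noncomputable def sharp {n : ℕ} (R : Tensor4 n) : Tensor4 n := fun i j k l =>
  (1 / 2) * ∑ a ∈ pairs n, ∑ b ∈ pairs n,
    bracket (opMat R a.1 a.2) (opMat R b.1 b.2) i j *
      bracket (wedge a.1 a.2) (wedge b.1 b.2) k l

end Pool.Agent.RicciCone
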