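import Mathlib
import Pool.Agent.MP_952e48_gt.Defs

set_option autoImplicit false

namespace Pool.Agent.RicciCone

open Finset

variable {n : ℕ}

lemma sum_pairs (f : Fin n → Fin n → ℝ) (hs : ∀ p q, f q p = f p q) (hd : ∀ p, f p p = 0) :
    ∑ a ∈ pairs n, f a.1 a.2 = (1 / 2) * ∑ p, ∑ q, f p q := by
  have h1 : ∑ p, ∑ q, f p q = ∑ a : Fin n × Fin n, f a.1 a.2 :=
    (Fintype.sum_prod_type' f).symm
  have h2 : ∑ a : Fin n × Fin n, f a.1 a.2 =
      ∑ a ∈ univ.filter (fun a : Fin n × Fin n => a.1 < a.2), f a.1 a.2 +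
      ∑ a ∈ univ.filter (fun a : Fin n × Fin n => ¬ a.1 < a.2), f a.1 a.2 :=
    (Finset.sum_filter_add_sum_filter_not _ _ _).symm
  have h3 : ∑ a ∈ univ.filter (fun a : Fin n × Fin n => ¬ a.1 < a.2), f a.1 a.2 =
      ∑ a ∈ univ.filter (fun a : Fin n × Fin n => a.2 < a.1), f a.1 a.2 := by
    symm
    apply Finset.sum_subset
    · intro a ha
      rw [mem_filter] at ha ⊢
      exact ⟨ha.1, not_lt.mpr ha.2.le⟩
    · intro a ha hna
      rw [mem_filter] at ha hna
      have h4 : a.2 ≤ a.1 := not_lt.mp ha.2
      have h5 : a.1 = a.2 := by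
        by_contra hne
        exact hna ⟨ha.1, lt_of_le_of_ne h4 (Ne.symm hne)⟩
      rw [h5, hd]
  have h4 : ∑ a ∈ univ.filter (fun a : Fin n × Fin n => a.2 < a.1), f a.1 a.2 =
      ∑ a ∈ univ.filter (fun a : Fin n × Fin n => a.1 < a.2), f a.1 a.2 := by
    apply Finset.sum_nbij' (fun a => (a.2, a.1)) (fun a => (a.2, a.1))
    · intro a ha; rw [mem_filter] at ha ⊢; exact ⟨mem_univ _, ha.2⟩
    · intro a ha; rw [mem_filter] at ha ⊢; exact ⟨mem_univ _, ha.2⟩
    · intro a _; rfl
    · intro a _; rfl
    · intro a _; exact hs a.2 a.1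
  unfold pairs
  rw [h1, h2, h3, h4]
  ring

lemma sum_wedge (f : Fin n → Fin n → ℝ) (k m : Fin n) :
    ∑ p, ∑ q, f p q * wedge p q k m = f k m - f m k := by
  unfold wedge
  simp only [Matrix.sub_apply, Matrix.single_apply, mul_sub, mul_ite, mul_one, mul_zero,
    Finset.sum_sub_distrib]
  congr 1
  · rw [Finset.sum_eq_single k]
    · rw [Finset.sum_eq_single m]
      · simp
      · intro b _ hb; simp [hb]
      · intro h; exact absurd (mem_univ _) h
    · intro b _ hb
      apply Finset.sum_eq_zero
      intro q _; simp [hb]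
    · intro h; exact absurd (mem_univ _) h
  · rw [Finset.sum_eq_single m]
    · rw [Finset.sum_eq_single k]
      · simp
      · intro b _ hb; simp [hb]
      · intro h; exact absurd (mem_univ _) h
    · intro b _ hb
      apply Finset.sum_eq_zero
      intro q _; simp [hb]
    · intro h; exact absurd (mem_univ _) h

lemma bracket_apply (A B : Matrix (Fin n) (Fin n) ℝ) (i j : Fin n) :
    bracket (A) (B) i j = ∑ m, (A i m * B m j - B i m * A m j) := by
  rw [bracket, Matrix.sub_apply, Matrix.mul_apply, Matrix.mul_apply, Finset.sum_sub_distrib]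

lemma bracket_neg_left (A B : Matrix (Fin n) (Fin n) ℝ) : bracket (-A) B = - bracket A B := by
  unfold bracket; rw [neg_mul, mul_neg]; abel

lemma bracket_neg_right (A B : Matrix (Fin n) (Fin n) ℝ) : bracket A (-B) = - bracket A B := by
  unfold bracket; rw [neg_mul, mul_neg]; abel

lemma bracket_skew (A B : Matrix (Fin n) (Fin n) ℝ) : bracket B A = - bracket A B := by
  unfold bracket; abel

lemma bracket_zero_left (B : Matrix (Fin n) (Fin n) ℝ) : bracket 0 B = 0 := by
  unfold bracket; simp

lemma bracket_zero_right (B : Matrix (Fin n) (Fin n) ℝ) : bracket B 0 = 0 := by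
  unfold bracket; simp

lemma wedge_swap (p q : Fin n) : wedge q p = - wedge p q := by
  unfold wedge; abel

lemma opMat_swap (R : Tensor4 n) (h : ∀ i j k l, R j i k l = - R i j k l) (p q : Fin n) :
    opMat R q p = - opMat R p q := by
  ext k l; simp [opMat, h p q]

/-- unrestricted double sums -/
lemma sharp_sum (R : Tensor4 n) (h : ∀ i j k l, R j i k l = - R i j k l) (i j k l : Fin n) :
    sharp R i j k l = (1 / 8) * ∑ p, ∑ q, ∑ r, ∑ s,
      bracket (opMat R p q) (opMat R r s) i j *
      bracket (wedge p q) (wedge r s) k l := by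
  have hself : ∀ p, opMat R p p = 0 := by
    intro p
    have := opMat_swap R h p p
    ext a b
    have h1 := congrFun (congrFun this a) b
    simp only [Matrix.neg_apply] at h1
    simp only [Matrix.zero_apply]
    linarith
  have hinner : ∀ p q, ∑ b ∈ pairs n,
      bracket (opMat R p q) (opMat R b.1 b.2) i j *
      bracket (wedge p q) (wedge b.1 b.2) k l =
      (1 / 2) * ∑ r, ∑ s, bracket (opMat R p q) (opMat R r s) i j *
      bracket (wedge p q) (wedge r s) k l := by
    intro p q
    apply sum_pairs (fun r s => bracket (opMat R p q) (opMat R r s) i j *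
      bracket (wedge p q) (wedge r s) k l)
    · intro r s
      rw [opMat_swap R h r s, wedge_swap r s, bracket_neg_right, bracket_neg_right]
      simp
    · intro r
      rw [hself, bracket_zero_right]
      simp
  unfold sharp
  set G : Fin n → Fin n → ℝ := fun p q => (1 / 2) * ∑ r, ∑ s,
      bracket (opMat R p q) (opMat R r s) i j * bracket (wedge p q) (wedge r s) k l with hG
  have houter : ∑ a ∈ pairs n, ∑ b ∈ pairs n,
      bracket (opMat R a.1 a.2) (opMat R b.1 b.2) i j *
      bracket (wedge a.1 a.2) (wedge b.1 b.2) k l = ∑ a ∈ pairs n, G a.1 a.2 :=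
    Finset.sum_congr rfl (fun a _ => hinner a.1 a.2)
  have hG2 : ∑ a ∈ pairs n, G a.1 a.2 = (1 / 2) * ∑ p, ∑ q, G p q := by
    apply sum_pairs G
    · intro p q
      simp only [hG]
      congr 1
      apply Finset.sum_congr rfl; intro r _
      apply Finset.sum_congr rfl; intro s _
      rw [opMat_swap R h p q, wedge_swap p q, bracket_neg_left, bracket_neg_left]
      simp
    · intro p
      simp only [hG]
      rw [hself]
      simp only [bracket_zero_left]
      simp
  rw [houter, hG2]
  simp only [hG, ← Finset.mul_sum]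
  ring

lemma sharp_eq1 (R : Tensor4 n) (h : ∀ i j k l, R j i k l = - R i j k l) (i j k l : Fin n) :
    sharp R i j k l = ∑ m, bracket (opMat R k m) (opMat R m l) i j := by
  rw [sharp_sum R h]
  set X : Fin n → Fin n → Fin n → Fin n → ℝ := fun p q r s =>
    bracket (opMat R p q) (opMat R r s) i j with hX
  have hX1 : ∀ p q r s, X q p r s = - X p q r s := by
    intro p q r s; simp only [hX]; rw [opMat_swap R h p q, bracket_neg_left]; simp
  have hX2 : ∀ p q r s, X p q s r = - X p q r s := by
    intro p q r s; simp only [hX]; rw [opMat_swap R h r s, bracket_neg_right]; simp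
  have hX3 : ∀ p q r s, X r s p q = - X p q r s := by
    intro p q r s; simp only [hX]; rw [bracket_skew]; simp
  have e1 : ∀ p q r s, bracket (opMat R p q) (opMat R r s) i j *
      bracket (wedge p q) (wedge r s) k l =
      ∑ m, (X p q r s * wedge p q k m * wedge r s m l - X p q r s * wedge r s k m * wedge p q m l) := by
    intro p q r s
    rw [bracket_apply (wedge p q), Finset.mul_sum]
    apply Finset.sum_congr rfl
    intro m _
    simp only [hX]; ring
  have e2 : ∑ p, ∑ q, ∑ r, ∑ s, bracket (opMat R p q) (opMat R r s) i j *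
      bracket (wedge p q) (wedge r s) k l =
      ∑ m, ((∑ p, ∑ q, (∑ r, ∑ s, X p q r s * wedge r s m l) * wedge p q k m) -
        (∑ p, ∑ q, (∑ r, ∑ s, X p q r s * wedge r s k m) * wedge p q m l)) := by
    have e3 : ∑ p, ∑ q, ∑ r, ∑ s, bracket (opMat R p q) (opMat R r s) i j *
      bracket (wedge p q) (wedge r s) k l =
      ∑ p, ∑ q, ∑ r, ∑ s, ∑ m, (X p q r s * wedge p q k m * wedge r s m l -
        X p q r s * wedge r s k m * wedge p q m l) := by
      apply Finset.sum_congr rfl; intro p _
      apply Finset.sum_congr rfl; intro q _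
      apply Finset.sum_congr rfl; intro r _
      apply Finset.sum_congr rfl; intro s _
      exact e1 p q r s
    rw [e3]
    have e4 : ∀ p q r, ∑ s, ∑ m, (X p q r s * wedge p q k m * wedge r s m l -
        X p q r s * wedge r s k m * wedge p q m l) =
        ∑ m, ∑ s, (X p q r s * wedge p q k m * wedge r s m l -
        X p q r s * wedge r s k m * wedge p q m l) := fun p q r => Finset.sum_comm
    simp only [e4]
    have e5 : ∀ p q, ∑ r, ∑ m, ∑ s, (X p q r s * wedge p q k m * wedge r s m l -
        X p q r s * wedge r s k m * wedge p q m l) =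
        ∑ m, ∑ r, ∑ s, (X p q r s * wedge p q k m * wedge r s m l -
        X p q r s * wedge r s k m * wedge p q m l) := fun p q => Finset.sum_comm
    simp only [e5]
    have e6 : ∀ p, ∑ q, ∑ m, ∑ r, ∑ s, (X p q r s * wedge p q k m * wedge r s m l -
        X p q r s * wedge r s k m * wedge p q m l) =
        ∑ m, ∑ q, ∑ r, ∑ s, (X p q r s * wedge p q k m * wedge r s m l -
        X p q r s * wedge r s k m * wedge p q m l) := fun p => Finset.sum_comm
    simp only [e6]
    rw [Finset.sum_comm]
    apply Finset.sum_congr rfl; intro m _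
    rw [← Finset.sum_sub_distrib]
    apply Finset.sum_congr rfl; intro p _
    rw [← Finset.sum_sub_distrib]
    apply Finset.sum_congr rfl; intro q _
    rw [Finset.sum_mul, Finset.sum_mul, ← Finset.sum_sub_distrib]
    apply Finset.sum_congr rfl; intro r _
    rw [Finset.sum_mul, Finset.sum_mul, ← Finset.sum_sub_distrib]
    apply Finset.sum_congr rfl; intro s _
    ring
  rw [e2]
  have e7 : ∀ m, (∑ p, ∑ q, (∑ r, ∑ s, X p q r s * wedge r s m l) * wedge p q k m) -
        (∑ p, ∑ q, (∑ r, ∑ s, X p q r s * wedge r s k m) * wedge p q m l) = 8 * X k m m l := by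
    intro m
    simp only [sum_wedge]
    have a1 : X k m l m = - X k m m l := hX2 k m m l
    have a2 : X m k m l = - X k m m l := hX1 k m m l
    have a3 : X m k l m = X k m m l := by rw [hX1 k m l m, hX2 k m m l]; ring
    have a4 : X m l k m = - X k m m l := hX3 k m m l
    have a5 : X m l m k = X k m m l := by rw [hX2 m l k m, hX3 k m m l]; ring
    have a6 : X l m k m = X k m m l := by rw [hX1 m l k m, hX3 k m m l]; ring
    have a7 : X l m m k = - X k m m l := by rw [hX1 m l m k, hX2 m l k m, hX3 k m m l]; ring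
    rw [a1, a2, a3, a4, a5, a6, a7]
    ring
  simp only [e7]
  rw [← Finset.mul_sum]
  ring

end Pool.Agent.RicciCone
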