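import Mathlib
import Pool.Agent.MP_952e48_gt.QFormula

set_option autoImplicit false

namespace Pool.Agent.RicciCone

open Finset

variable {n : ℕ}

/-- the bilinear quantity `B_{ijkl} = ∑ R_{ipjq} S_{kplq}` -/
def Bt (R S : Tensor4 n) (i j k l : Fin n) : ℝ := ∑ p, ∑ q, R i p j q * S k p l q

section
variable {R : Tensor4 n} (h : R ∈ curvSubmodule n)
include h

lemma anti12 (i j k l : Fin n) : R j i k l = - R i j k l := h.1 i j k l
lemma pairsym (i j k l : Fin n) : R k l i j = R i j k l := h.2.1 i j k l
lemma bianchi (i j k l : Fin n) : R i j k l + R j k i l + R k i j l = 0 := h.2.2 i j k l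

lemma anti34 (i j k l : Fin n) : R i j l k = - R i j k l := by
  rw [← pairsym h i j k l, ← pairsym h i j l k]; exact anti12 h k l i j

lemma bianchi' (i j p q : Fin n) : R i j p q = R i p j q - R i q j p := by
  have h1 := bianchi h i j p q
  have h2 : R p i j q = - R i p j q := anti12 h i p j q
  have h3 : R j p i q = R i q j p := pairsym h i q j p
  linarith

omit h in
lemma Bt_pair (i j k l : Fin n) : Bt R R k l i j = Bt R R i j k l := by
  unfold Bt
  apply Finset.sum_congr rfl; intro p _
  apply Finset.sum_congr rfl; intro q _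
  ring

lemma Bt_swap (i j k l : Fin n) : Bt R R j i l k = Bt R R i j k l := by
  unfold Bt
  rw [Finset.sum_comm]
  apply Finset.sum_congr rfl; intro p _
  apply Finset.sum_congr rfl; intro q _
  rw [pairsym h i p j q, pairsym h k p l q]

lemma sq_eq (i j k l : Fin n) : sq R i j k l = Bt R R i j k l - Bt R R i j l k := by
  unfold sq
  rw [sum_pairs (fun p q => R i j p q * R p q k l)
    (fun p q => by rw [anti34 h i j p q, anti12 h p q k l]; ring)
    (fun p => by
      have := anti12 h p p k l
      have h0 : R p p k l = 0 := by linarith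
      rw [h0, mul_zero])]
  have e1 : ∑ p, ∑ q, R i j p q * R p q k l =
      Bt R R i j k l - Bt R R i j l k - Bt R R i j l k + Bt R R i j k l := by
    have a1 : Bt R R i j l k = ∑ p, ∑ q, R i p j q * R k q l p := by
      unfold Bt
      apply Finset.sum_congr rfl; intro p _
      apply Finset.sum_congr rfl; intro q _
      rw [pairsym h k q l p]
    have a2 : Bt R R i j l k = ∑ p, ∑ q, R i q j p * R k p l q := by
      rw [a1, Finset.sum_comm]
    have a3 : Bt R R i j k l = ∑ p, ∑ q, R i q j p * R k q l p := by
      unfold Bt; rw [Finset.sum_comm]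
    have a4 : Bt R R i j k l - Bt R R i j l k - Bt R R i j l k + Bt R R i j k l =
        (∑ p, ∑ q, R i p j q * R k p l q) - (∑ p, ∑ q, R i p j q * R k q l p) -
        (∑ p, ∑ q, R i q j p * R k p l q) + ∑ p, ∑ q, R i q j p * R k q l p := by
      rw [← a1, ← a2, ← a3]; rfl
    rw [a4, ← Finset.sum_sub_distrib, ← Finset.sum_sub_distrib, ← Finset.sum_add_distrib]
    apply Finset.sum_congr rfl; intro p _
    rw [← Finset.sum_sub_distrib, ← Finset.sum_sub_distrib, ← Finset.sum_add_distrib]
    apply Finset.sum_congr rfl; intro q _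
    rw [bianchi' h i j p q, ← pairsym h p q k l, bianchi' h k l p q]
    ring
  rw [e1]; ring

lemma sharp_eq (i j k l : Fin n) : sharp R i j k l = Bt R R i k j l - Bt R R i l j k := by
  rw [sharp_eq1 R (fun i j k l => anti12 h i j k l)]
  have e1 : ∀ m, bracket (opMat R k m) (opMat R m l) i j =
      ∑ p, (R i p k m * R j p l m) - ∑ p, (R i p l m * R j p k m) := by
    intro m
    rw [bracket_apply, Finset.sum_sub_distrib]
    congr 1
    · apply Finset.sum_congr rfl; intro p _
      simp only [opMat, Matrix.of_apply]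
      rw [← pairsym h i p k m, anti12 h l m p j, anti34 h l m j p, pairsym h j p l m]
      ring
    · apply Finset.sum_congr rfl; intro p _
      simp only [opMat, Matrix.of_apply]
      rw [anti12 h l m i p, anti34 h k m j p, pairsym h i p l m, pairsym h j p k m]
      ring
  simp only [e1]
  rw [Finset.sum_sub_distrib]
  unfold Bt
  congr 1
  · exact Finset.sum_comm
  · exact Finset.sum_comm

/-- The standard formula for `Q(R) = R² + R^#`. -/
lemma Q_eq (i j k l : Fin n) : sq R i j k l + sharp R i j k l =
    Bt R R i j k l - Bt R R i j l k + Bt R R i k j l - Bt R R i l j k := by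
  rw [sq_eq h, sharp_eq h]; ring

end

lemma Q_mem {R : Tensor4 n} (h : R ∈ curvSubmodule n) : sq R + sharp R ∈ curvSubmodule n := by
  have hQ : ∀ i j k l, (sq R + sharp R) i j k l =
    Bt R R i j k l - Bt R R i j l k + Bt R R i k j l - Bt R R i l j k := fun i j k l => Q_eq h i j k l
  have s1 := Bt_pair (R := R)
  have s2 := Bt_swap h
  refine ⟨fun i j k l => ?_, fun i j k l => ?_, fun i j k l => ?_⟩
  · rw [hQ, hQ]
    have a1 : Bt R R j i k l = Bt R R i j l k := s2 i j l k
    have a2 : Bt R R j i l k = Bt R R i j k l := s2 i j k l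
    have a3 : Bt R R j k i l = Bt R R i l j k := s1 i l j k
    have a4 : Bt R R j l i k = Bt R R i k j l := s1 i k j l
    rw [a1, a2, a3, a4]; ring
  · rw [hQ, hQ]
    have a1 : Bt R R k l i j = Bt R R i j k l := s1 i j k l
    have a2 : Bt R R k l j i = Bt R R i j l k := by rw [s1 j i k l, s2 i j l k]
    have a3 : Bt R R k i l j = Bt R R i k j l := s2 i k j l
    have a4 : Bt R R k j l i = Bt R R i l j k := by rw [s1 l i k j, s2 i l j k]
    rw [a1, a2, a3, a4]
  · rw [hQ, hQ, hQ]
    have a1 : Bt R R k l i j = Bt R R i j k l := s1 i j k l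
    have a2 : Bt R R j i k l = Bt R R i j l k := s2 i j l k
    have a3 : Bt R R k i l j = Bt R R i k j l := s2 i k j l
    have a4 : Bt R R j k i l = Bt R R i l j k := s1 i l j k
    have a5 : Bt R R k j i l = Bt R R j k l i := s2 j k l i
    have a6 : Bt R R k i j l = Bt R R j l k i := s1 j l k i
    rw [a1, a2, a3, a4, a5, a6]; ring

end Pool.Agent.RicciCone
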