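import Mathlib
import Pool.Agent.MP_952e48_gt.QMem
import Pool.Agent.MP_952e48_gt.Flow
import Pool.Agent.MP_952e48_gt.Chain

set_option autoImplicit false

/-!
# Curvature cones, Ricci flow invariance, pinching sets, pinching property
-/

namespace Pool.Agent.RicciCone

open Set Filter Topology Metric Pointwise

variable {n : ℕ}

/-- `Q(R) = R² + R^#`. -/
noncomputable def ricciQ (R : Curv n) : Curv n :=
  ⟨sq (R : Tensor4 n) + sharp (R : Tensor4 n), Q_mem R.2⟩

/-- The components of the identity of `Λ²ℝⁿ`. -/
def idTensor (n : ℕ) : Tensor4 n := fun i j k l =>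
  (if i = k then 1 else 0) * (if j = l then 1 else 0) -
    (if i = l then 1 else 0) * (if j = k then 1 else 0)

lemma idTensor_mem (n : ℕ) : idTensor n ∈ curvSubmodule n := by
  refine ⟨fun i j k l => ?_, fun i j k l => ?_, fun i j k l => ?_⟩
  · simp only [idTensor]; ring
  · simp only [idTensor, eq_comm (a := k), eq_comm (a := l)]
    ring
  · simp only [idTensor, eq_comm (a := k), eq_comm (a := j) (b := i)]
    ring

/-- The identity of `Λ²ℝⁿ` as an algebraic curvature operator. -/
def idCurv (n : ℕ) : Curv n := ⟨idTensor n, idTensor_mem n⟩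

/-- The action of a matrix on 4-tensors:
`(g.R) i j k l = ⟨R (g e_i ∧ g e_j), g e_k ∧ g e_l⟩`, where `g e_i = ∑ p, g p i e_p`. -/
def actTensor (g : Matrix (Fin n) (Fin n) ℝ) (R : Tensor4 n) : Tensor4 n := fun i j k l =>
  ∑ p, ∑ q, ∑ r, ∑ s, g p i * g q j * g r k * g s l * R p q r s

lemma actTensor_mem (g : Matrix (Fin n) (Fin n) ℝ) {R : Tensor4 n} (h : R ∈ curvSubmodule n) :
    actTensor g R ∈ curvSubmodule n := by
  refine ⟨fun i j k l => ?_, fun i j k l => ?_, fun i j k l => ?_⟩
  · unfold actTensor
    rw [Finset.sum_comm, ← Finset.sum_neg_distrib]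
    apply Finset.sum_congr rfl; intro p _
    rw [← Finset.sum_neg_distrib]
    apply Finset.sum_congr rfl; intro q _
    rw [← Finset.sum_neg_distrib]
    apply Finset.sum_congr rfl; intro r _
    rw [← Finset.sum_neg_distrib]
    apply Finset.sum_congr rfl; intro s _
    rw [anti12 h p q r s]; ring
  · unfold actTensor
    have e1 : ∑ p, ∑ q, ∑ r, ∑ s, g p k * g q l * g r i * g s j * R p q r s =
        ∑ r, ∑ s, ∑ p, ∑ q, g p k * g q l * g r i * g s j * R p q r s := by
      have a1 : ∀ p, ∑ q, ∑ r, ∑ s, g p k * g q l * g r i * g s j * R p q r s =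
          ∑ r, ∑ q, ∑ s, g p k * g q l * g r i * g s j * R p q r s := fun p => Finset.sum_comm
      simp only [a1]
      rw [Finset.sum_comm]
      apply Finset.sum_congr rfl; intro r _
      have a2 : ∀ p, ∑ q, ∑ s, g p k * g q l * g r i * g s j * R p q r s =
          ∑ s, ∑ q, g p k * g q l * g r i * g s j * R p q r s := fun p => Finset.sum_comm
      simp only [a2]
      rw [Finset.sum_comm]
    rw [e1]
    apply Finset.sum_congr rfl; intro p _
    apply Finset.sum_congr rfl; intro q _
    apply Finset.sum_congr rfl; intro r _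
    apply Finset.sum_congr rfl; intro s _
    rw [pairsym h p q r s]; ring
  · have e1 : actTensor g R j k i l =
        ∑ p, ∑ q, ∑ r, ∑ s, g p i * g q j * g r k * g s l * R q r p s := by
      unfold actTensor
      -- sum over p q r s of g p j g q k g r i g s l R p q r s
      have a1 : ∑ p, ∑ q, ∑ r, ∑ s, g p j * g q k * g r i * g s l * R p q r s =
          ∑ p, ∑ r, ∑ q, ∑ s, g p j * g q k * g r i * g s l * R p q r s := by
        apply Finset.sum_congr rfl; intro p _
        exact Finset.sum_comm
      rw [a1, Finset.sum_comm]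
      apply Finset.sum_congr rfl; intro p _
      apply Finset.sum_congr rfl; intro q _
      apply Finset.sum_congr rfl; intro r _
      apply Finset.sum_congr rfl; intro s _
      ring
    have e2 : actTensor g R k i j l =
        ∑ p, ∑ q, ∑ r, ∑ s, g p i * g q j * g r k * g s l * R r p q s := by
      unfold actTensor
      -- sum over p q r s of g p k g q i g r j g s l R p q r s
      rw [Finset.sum_comm]
      apply Finset.sum_congr rfl; intro p _
      rw [Finset.sum_comm]
      apply Finset.sum_congr rfl; intro q _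
      apply Finset.sum_congr rfl; intro r _
      apply Finset.sum_congr rfl; intro s _
      ring
    rw [e1, e2]
    unfold actTensor
    rw [← Finset.sum_add_distrib, ← Finset.sum_add_distrib]
    apply Finset.sum_eq_zero; intro p _
    rw [← Finset.sum_add_distrib, ← Finset.sum_add_distrib]
    apply Finset.sum_eq_zero; intro q _
    rw [← Finset.sum_add_distrib, ← Finset.sum_add_distrib]
    apply Finset.sum_eq_zero; intro r _
    rw [← Finset.sum_add_distrib, ← Finset.sum_add_distrib]
    apply Finset.sum_eq_zero; intro s _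
    have := bianchi h p q r s
    calc g p i * g q j * g r k * g s l * R p q r s + g p i * g q j * g r k * g s l * R q r p s +
        g p i * g q j * g r k * g s l * R r p q s =
        g p i * g q j * g r k * g s l * (R p q r s + R q r p s + R r p q s) := by ring
      _ = 0 := by rw [this, mul_zero]

/-- The action of a matrix `g` on algebraic curvature operators. -/
def act (g : Matrix (Fin n) (Fin n) ℝ) (R : Curv n) : Curv n :=
  ⟨actTensor g (R : Tensor4 n), actTensor_mem g R.2⟩

/-- `O(n)`-invariance of a set of algebraic curvature operators. -/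
def IsOInvariant (F : Set (Curv n)) : Prop :=
  ∀ g ∈ Matrix.orthogonalGroup (Fin n) ℝ, ∀ R ∈ F, act g R ∈ F

/-- A curvature cone: a closed convex cone, `O(n)`-invariant, with `Id` in its interior. -/
structure IsCurvatureCone (C : Set (Curv n)) : Prop where
  closed : IsClosed C
  convex : Convex ℝ C
  cone : ∀ s : ℝ, 0 ≤ s → ∀ R ∈ C, s • R ∈ C
  invariant : IsOInvariant C
  id_mem : idCurv n ∈ interior C

/-- Ricci flow invariance: every solution of `R'(t) = Q(R(t))` on `[0,T)` that starts in the set
stays in it. -/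
def RicciFlowInvariant (F : Set (Curv n)) : Prop :=
  ∀ (T : ℝ) (R : ℝ → Curv n),
    (∀ t ∈ Set.Ico 0 T, HasDerivWithinAt R (ricciQ (R t)) (Set.Ico 0 T) t) →
      R 0 ∈ F → ∀ t ∈ Set.Ico 0 T, R t ∈ F

/-- The ray `ℝ₊ Id`. -/
def idRay (n : ℕ) : Set (Curv n) := {R | ∃ s : ℝ, 0 ≤ s ∧ R = s • idCurv n}

/-- A pinching set. -/
structure IsPinchingSet (F : Set (Curv n)) : Prop where
  closed : IsClosed F
  convex : Convex ℝ F
  invariant : IsOInvariant F
  flow : RicciFlowInvariant F
  pinch : ∀ K : Set (Curv n), IsCompact K →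
    Tendsto (fun c : ℝ => hausdorffEDist ((c • F) ∩ K) (idRay n ∩ K)) (𝓝[>] 0) (𝓝 0)

/-- The pinching property: every compact subset of the interior lies in a pinching set. -/
def HasPinchingProperty (C : Set (Curv n)) : Prop :=
  ∀ K : Set (Curv n), IsCompact K → K ⊆ interior C → ∃ F : Set (Curv n), IsPinchingSet F ∧ K ⊆ F

/-- The curvature cones that are Ricci flow invariant and have the pinching property. -/
structure IsPinchingCone (C : Set (Curv n)) : Prop where
  isCone : IsCurvatureCone C
  flow : RicciFlowInvariant C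
  pinching : HasPinchingProperty C

/-! ### Smoothness -/

lemma exists_retraction (n : ℕ) : ∃ P : Tensor4 n →L[ℝ] Curv n, ∀ R : Curv n, P (R : Tensor4 n) = R := by
  obtain ⟨g, hg⟩ := LinearMap.exists_leftInverse_of_injective (curvSubmodule n).subtype
    (LinearMap.ker_eq_bot.mpr (curvSubmodule n).injective_subtype)
  refine ⟨LinearMap.toContinuousLinearMap g, fun R => ?_⟩
  have := LinearMap.congr_fun hg R
  simpa using this

lemma coord_contDiff (i j k l : Fin n) : ContDiff ℝ 1 (fun R : Curv n => (R : Tensor4 n) i j k l) := by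
  have h1 : ContDiff ℝ 1 (fun R : Curv n => (R : Tensor4 n)) := (curvSubmodule n).subtypeL.contDiff
  have h2 := contDiff_pi.mp h1 i
  have h3 := contDiff_pi.mp h2 j
  have h4 := contDiff_pi.mp h3 k
  exact contDiff_pi.mp h4 l

lemma ricciQ_apply (R : Curv n) (i j k l : Fin n) : (ricciQ R : Tensor4 n) i j k l =
    Bt (R : Tensor4 n) R i j k l - Bt (R : Tensor4 n) R i j l k +
      Bt (R : Tensor4 n) R i k j l - Bt (R : Tensor4 n) R i l j k := Q_eq R.2 i j k l

lemma Bt_contDiff (i j k l : Fin n) :
    ContDiff ℝ 1 (fun R : Curv n => Bt (R : Tensor4 n) (R : Tensor4 n) i j k l) := by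
  unfold Bt
  apply ContDiff.sum; intro p _
  apply ContDiff.sum; intro q _
  exact (coord_contDiff i p j q).mul (coord_contDiff k p l q)

lemma ricciQ_contDiff : ContDiff ℝ 1 (ricciQ (n := n)) := by
  obtain ⟨P, hP⟩ := exists_retraction n
  have h1 : ContDiff ℝ 1 (fun R : Curv n => (ricciQ R : Tensor4 n)) := by
    apply contDiff_pi.mpr; intro i
    apply contDiff_pi.mpr; intro j
    apply contDiff_pi.mpr; intro k
    apply contDiff_pi.mpr; intro l
    have : (fun R : Curv n => (ricciQ R : Tensor4 n) i j k l) = fun R : Curv n =>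
        Bt (R : Tensor4 n) R i j k l - Bt (R : Tensor4 n) R i j l k +
        Bt (R : Tensor4 n) R i k j l - Bt (R : Tensor4 n) R i l j k := by
      funext R; exact ricciQ_apply R i j k l
    rw [this]
    exact (((Bt_contDiff i j k l).sub (Bt_contDiff i j l k)).add (Bt_contDiff i k j l)).sub
      (Bt_contDiff i l j k)
  have h2 : (ricciQ (n := n)) = fun R => P (ricciQ R : Tensor4 n) := by
    funext R; exact (hP _).symm
  rw [h2]
  exact P.contDiff.comp h1

lemma act_continuous (g : Matrix (Fin n) (Fin n) ℝ) : Continuous (act g) := by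
  apply Continuous.subtype_mk
  apply continuous_pi; intro i
  apply continuous_pi; intro j
  apply continuous_pi; intro k
  apply continuous_pi; intro l
  unfold actTensor
  apply continuous_finsetSum; intro p _
  apply continuous_finsetSum; intro q _
  apply continuous_finsetSum; intro r _
  apply continuous_finsetSum; intro s _
  exact continuous_const.mul (coord_contDiff p q r s).continuous

/-! ### Zorn's lemma -/

lemma chain_upper_bound {c : Set (Set (Curv n))} (hc : IsChain (· ⊆ ·) c) (hne : c.Nonempty)
    (hgood : ∀ C ∈ c, IsPinchingCone C) : IsPinchingCone (closure (⋃₀ c)) := by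
  have hconv : ∀ C ∈ c, Convex ℝ C := fun C hC => (hgood C hC).isCone.convex
  have hint : ∀ C ∈ c, (interior C).Nonempty := fun C hC => ⟨_, (hgood C hC).isCone.id_mem⟩
  refine ⟨⟨isClosed_closure, (chain_convex hc hconv).closure, ?_, ?_, ?_⟩, ?_, ?_⟩
  · intro s hs R hR
    have hmaps : MapsTo (fun R : Curv n => s • R) (⋃₀ c) (⋃₀ c) := by
      rintro X ⟨C, hC, hX⟩
      exact ⟨C, hC, (hgood C hC).isCone.cone s hs X hX⟩
    exact hmaps.closure (continuous_const_smul s) hR
  · intro g hg R hR
    have hmaps : MapsTo (act g) (⋃₀ c) (⋃₀ c) := by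
      rintro X ⟨C, hC, hX⟩
      exact ⟨C, hC, (hgood C hC).isCone.invariant g hg X hX⟩
    exact hmaps.closure (act_continuous g) hR
  · obtain ⟨C, hC⟩ := hne
    exact interior_mono ((subset_sUnion_of_mem hC).trans subset_closure) (hgood C hC).isCone.id_mem
  · have h1 : Inv (ricciQ (n := n)) (⋃₀ c) := by
      rintro T R hR ⟨C, hC, h0⟩ t ht
      exact ⟨C, hC, (hgood C hC).flow T R hR h0 t ht⟩
    exact inv_closure ricciQ_contDiff h1
  · intro K hK hKU
    obtain ⟨C, hC, hKC⟩ := chain_compact hc hne hconv hint hK hKU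
    exact (hgood C hC).pinching K hK hKC

/-- Every curvature cone that is Ricci flow invariant and has the pinching property lies in a
maximal one. -/
lemma exists_maximal {C₀ : Set (Curv n)} (h₀ : IsPinchingCone C₀) :
    ∃ C, C₀ ⊆ C ∧ IsPinchingCone C ∧ ∀ C', IsPinchingCone C' → C ⊆ C' → C' = C := by
  obtain ⟨C, hC0, hC⟩ := zorn_subset_nonempty {C : Set (Curv n) | IsPinchingCone C} (by
    intro c hcS hc hne
    exact ⟨closure (⋃₀ c), chain_upper_bound hc hne (fun C hC => hcS hC),
      fun s hs => (subset_sUnion_of_mem hs).trans subset_closure⟩) C₀ h₀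
  refine ⟨C, hC0, hC.1, fun C' hC' hsub => ?_⟩
  exact Subset.antisymm (hC.2 hC' hsub) hsub

end Pool.Agent.RicciCone
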