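import Mathlib
import Pool.Agent.MP_952e48_gt.Flow

set_option autoImplicit false

/-!
# An abstract criterion for invariant cones with pinching sets
-/

namespace Pool.Agent.RicciCone

open Set Filter Topology Metric Pointwise

variable {V : Type*} [NormedAddCommGroup V] [NormedSpace ℝ V]
variable {H : Type*} [NormedAddCommGroup H] [InnerProductSpace ℝ H]

/-- Data for the abstract criterion. -/
structure PinchData (Q : V → V) (α : V →L[ℝ] ℝ) (Φ : V →L[ℝ] H) (e : V) (θ ρ : ℝ) : Prop where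
  alpha_e : α e = 1
  phi_e : Φ e = 0
  ker : ∀ x, α x = 0 → Φ x = 0 → x = 0
  Q_zero : Q 0 = 0
  contDiff : ContDiff ℝ 1 Q
  theta_pos : 0 < θ
  theta_lt : θ < 1
  rho : 1 < ρ
  alpha_Q : ∀ x, 0 < α x → ‖Φ x‖ ^ 2 ≤ ρ * (α x) ^ 2 → 0 ≤ α (Q x)
  key : ∀ x, 0 < α x → ‖Φ x‖ ^ 2 ≤ ρ * (α x) ^ 2 →
    α x * inner ℝ (Φ x) (Φ (Q x)) ≤ θ * ‖Φ x‖ ^ 2 * α (Q x)

/-- the cone -/
def coneC (α : V →L[ℝ] ℝ) (Φ : V →L[ℝ] H) : Set V := {x | ‖Φ x‖ ≤ α x}

/-- the pinching sets -/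
def setG (α : V →L[ℝ] ℝ) (Φ : V →L[ℝ] H) (θ B : ℝ) : Set V :=
  {x | ‖Φ x‖ ≤ α x ∧ ‖Φ x‖ ≤ B * (α x) ^ θ}

variable {Q : V → V} {α : V →L[ℝ] ℝ} {Φ : V →L[ℝ] H} {e : V} {θ ρ : ℝ}

lemma coneC_closed : IsClosed (coneC α Φ) := isClosed_le (by fun_prop) (by fun_prop)

lemma coneC_convex : Convex ℝ (coneC α Φ) := by
  intro x hx y hy a b ha hb _
  simp only [coneC, mem_ofPred_eq] at hx hy ⊢
  rw [map_add, map_add, map_smul, map_smul, map_smul, map_smul, smul_eq_mul, smul_eq_mul]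
  calc ‖a • Φ x + b • Φ y‖ ≤ ‖a • Φ x‖ + ‖b • Φ y‖ := norm_add_le _ _
    _ = a * ‖Φ x‖ + b * ‖Φ y‖ := by
        rw [norm_smul, norm_smul, Real.norm_of_nonneg ha, Real.norm_of_nonneg hb]
    _ ≤ a * α x + b * α y := add_le_add (mul_le_mul_of_nonneg_left hx ha)
        (mul_le_mul_of_nonneg_left hy hb)

lemma coneC_smul (s : ℝ) (hs : 0 ≤ s) (x : V) (hx : x ∈ coneC α Φ) : s • x ∈ coneC α Φ := by
  simp only [coneC, mem_ofPred_eq] at hx ⊢
  rw [map_smul, map_smul, norm_smul, Real.norm_of_nonneg hs, smul_eq_mul]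
  exact mul_le_mul_of_nonneg_left hx hs

lemma setG_closed (hθ : 0 < θ) (B : ℝ) : IsClosed (setG α Φ θ B) := by
  have h1 : Continuous fun x : V => (α x) ^ θ :=
    Continuous.rpow_const (by fun_prop) (fun x => Or.inr hθ.le)
  have h2 : IsClosed {x : V | ‖Φ x‖ ≤ α x} := isClosed_le (by fun_prop) (by fun_prop)
  have h3 : IsClosed {x : V | ‖Φ x‖ ≤ B * (α x) ^ θ} :=
    isClosed_le (by fun_prop) (continuous_const.mul h1)
  exact h2.inter h3

lemma setG_convex (hθ : 0 < θ) (hθ1 : θ ≤ 1) (B : ℝ) (hB : 0 ≤ B) : Convex ℝ (setG α Φ θ B) := by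
  intro x hx y hy a b ha hb hab
  refine ⟨coneC_convex hx.1 hy.1 ha hb hab, ?_⟩
  have hαx : 0 ≤ α x := (norm_nonneg _).trans hx.1
  have hαy : 0 ≤ α y := (norm_nonneg _).trans hy.1
  rw [map_add, map_add, map_smul, map_smul, map_smul, map_smul]
  have h1 : ‖a • Φ x + b • Φ y‖ ≤ a * (B * (α x) ^ θ) + b * (B * (α y) ^ θ) := by
    calc ‖a • Φ x + b • Φ y‖ ≤ ‖a • Φ x‖ + ‖b • Φ y‖ := norm_add_le _ _
      _ = a * ‖Φ x‖ + b * ‖Φ y‖ := by
          rw [norm_smul, norm_smul, Real.norm_of_nonneg ha, Real.norm_of_nonneg hb]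
      _ ≤ _ := add_le_add (mul_le_mul_of_nonneg_left hx.2 ha) (mul_le_mul_of_nonneg_left hy.2 hb)
  have h2 := (Real.concaveOn_rpow hθ.le hθ1).2 (mem_Ici.mpr hαx) (mem_Ici.mpr hαy) ha hb hab
  refine h1.trans ?_
  have h3 := mul_le_mul_of_nonneg_left h2 hB
  simp only [smul_eq_mul] at h3 ⊢
  linarith

lemma e_mem_interior (h : PinchData Q α Φ e θ ρ) : e ∈ interior (coneC α Φ) := by
  have ho : IsOpen {x : V | ‖Φ x‖ < α x} := isOpen_lt (by fun_prop) (by fun_prop)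
  apply interior_maximal _ ho
  · simp only [mem_ofPred_eq]; rw [h.phi_e, h.alpha_e, norm_zero]; norm_num
  · intro x hx
    have hx' : ‖Φ x‖ < α x := hx
    exact hx'.le

/-- The zero solution is isolated from the right. -/
lemma zero_right (h : PinchData Q α Φ e θ ρ) {T : ℝ} {R : ℝ → V}
    (hR : ∀ t ∈ Ico 0 T, HasDerivWithinAt R (Q (R t)) (Ico 0 T) t) {x : ℝ} (hx : x ∈ Ico 0 T)
    (hx0 : R x = 0) : ∀ᶠ u in 𝓝[>] x, R u = 0 := by
  obtain ⟨K, s, hs, hl⟩ := (h.contDiff.contDiffAt (x := (0 : V))).exists_lipschitzOnWith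
  have hRc : ∀ᶠ u in 𝓝[≥] x, R u ∈ s := by
    have h1 := (deriv_right hR hx).continuousWithinAt
    have h2 : s ∈ 𝓝 (R x) := by rw [hx0]; exact hs
    exact h1.eventually h2
  have hsmall : ∀ᶠ u in 𝓝[≥] x, u < T := by
    apply mem_nhdsWithin_of_mem_nhds
    exact Iio_mem_nhds hx.2
  obtain ⟨y, hy1, hy2⟩ := (mem_nhdsGE_iff_exists_Icc_subset).mp (hRc.and hsmall)
  have hxy : x < y := hy1
  have hyT : y < T := (hy2 ⟨hxy.le, le_refl y⟩).2
  have heq : EqOn R (fun _ => (0 : V)) (Icc x y) := by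
    apply ODE_solution_unique_of_mem_Icc_right (v := fun _ => Q) (s := fun _ => s) (K := K)
    · intro t _; exact hl
    · exact (cont_on hR).mono (fun s hs => ⟨hx.1.trans hs.1, lt_of_le_of_lt hs.2 hyT⟩)
    · intro t ht
      exact deriv_right hR ⟨hx.1.trans ht.1, lt_trans ht.2 hyT⟩
    · intro t ht; exact (hy2 ⟨ht.1, ht.2.le⟩).1
    · exact continuousOn_const
    · intro t _
      have := hasDerivWithinAt_const (x := t) (s := Ici t) (c := (0 : V))
      rw [h.Q_zero]; exact this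
    · intro t _; exact mem_of_mem_nhds hs
    · exact hx0
  filter_upwards [Ioc_mem_nhdsGT hxy] with u hu
  exact heq ⟨hu.1.le, hu.2⟩

/-- monotonicity of the pinching quotient -/
lemma quotient_antitone (h : PinchData Q α Φ e θ ρ) {T : ℝ} {R : ℝ → V}
    (hR : ∀ t ∈ Ico 0 T, HasDerivWithinAt R (Q (R t)) (Ico 0 T) t) {x y : ℝ} (hx : 0 ≤ x)
    (hyT : y < T) (hpos : ∀ u ∈ Icc x y, 0 < α (R u))
    (hρ : ∀ u ∈ Icc x y, ‖Φ (R u)‖ ^ 2 ≤ ρ * (α (R u)) ^ 2) {p : ℝ} (hp : θ ≤ p) :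
    AntitoneOn (fun u => ‖Φ (R u)‖ ^ 2 * (α (R u)) ^ (-(2 * p))) (Icc x y) := by
  have hRcont : ContinuousOn R (Icc x y) :=
    (cont_on hR).mono (fun s hs => ⟨hx.trans hs.1, lt_of_le_of_lt hs.2 hyT⟩)
  have hder : ∀ u ∈ Ioo x y, HasDerivAt (fun u => ‖Φ (R u)‖ ^ 2 * (α (R u)) ^ (-(2 * p)))
      (2 * inner ℝ (Φ (R u)) (Φ (Q (R u))) * (α (R u)) ^ (-(2 * p)) +
        ‖Φ (R u)‖ ^ 2 * (α (Q (R u)) * (-(2 * p)) * (α (R u)) ^ (-(2 * p) - 1))) u := by
    intro u hu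
    have hd := deriv_int hR (t := u) ⟨lt_of_le_of_lt hx hu.1, lt_trans hu.2 hyT⟩
    have h1 : HasDerivAt (fun u => Φ (R u)) (Φ (Q (R u))) u := Φ.hasFDerivAt.comp_hasDerivAt u hd
    have h2 : HasDerivAt (fun u => α (R u)) (α (Q (R u))) u := α.hasFDerivAt.comp_hasDerivAt u hd
    have h3 := h1.norm_sq
    have h4 := h2.rpow_const (p := -(2 * p)) (Or.inl (hpos u ⟨hu.1.le, hu.2.le⟩).ne')
    exact h3.mul h4
  apply antitoneOn_of_deriv_nonpos (convex_Icc x y)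
  · apply ContinuousOn.mul
    · exact ((Φ.continuous.comp_continuousOn hRcont).norm).pow 2
    · apply ContinuousOn.rpow_const (α.continuous.comp_continuousOn hRcont)
      intro u hu; exact Or.inl (hpos u hu).ne'
  · rw [interior_Icc]
    intro u hu; exact (hder u hu).differentiableAt.differentiableWithinAt
  · rw [interior_Icc]
    intro u hu
    rw [(hder u hu).deriv]
    have huI : u ∈ Icc x y := ⟨hu.1.le, hu.2.le⟩
    have hα := hpos u huI
    have hk := h.key (R u) hα (hρ u huI)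
    have hαQ := h.alpha_Q (R u) hα (hρ u huI)
    have e1 : (α (R u)) ^ (-(2 * p)) = α (R u) * (α (R u)) ^ (-(2 * p) - 1) := by
      rw [Real.rpow_sub_one hα.ne']; field_simp
    rw [e1]
    have hpw : 0 < (α (R u)) ^ (-(2 * p) - 1) := Real.rpow_pos_of_pos hα _
    have e2 : 2 * inner ℝ (Φ (R u)) (Φ (Q (R u))) * (α (R u) * (α (R u)) ^ (-(2 * p) - 1)) +
        ‖Φ (R u)‖ ^ 2 * (α (Q (R u)) * (-(2 * p)) * (α (R u)) ^ (-(2 * p) - 1)) =
        2 * (α (R u)) ^ (-(2 * p) - 1) * (α (R u) * inner ℝ (Φ (R u)) (Φ (Q (R u))) -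
          p * ‖Φ (R u)‖ ^ 2 * α (Q (R u))) := by ring
    rw [e2]
    apply mul_nonpos_of_nonneg_of_nonpos (by positivity)
    have h5 : θ * ‖Φ (R u)‖ ^ 2 * α (Q (R u)) ≤ p * ‖Φ (R u)‖ ^ 2 * α (Q (R u)) := by
      have h6 : 0 ≤ ‖Φ (R u)‖ ^ 2 * α (Q (R u)) := by positivity
      nlinarith
    linarith

/-- from the quotient to the inequality -/
lemma quotient_iff {N a B p : ℝ} (hN : 0 ≤ N) (ha : 0 < a) (hB : 0 ≤ B) :
    N ^ 2 * a ^ (-(2 * p)) ≤ B ^ 2 ↔ N ≤ B * a ^ p := by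
  have hap : 0 < a ^ p := Real.rpow_pos_of_pos ha p
  have e1 : a ^ (-(2 * p)) = ((a ^ p) ^ 2)⁻¹ := by
    rw [Real.rpow_neg ha.le, mul_comm 2 p, Real.rpow_mul ha.le]
    norm_num
  rw [e1, ← div_eq_mul_inv, div_le_iff₀ (by positivity), ← mul_pow]
  constructor
  · intro h; exact le_of_sq_le_sq h (by positivity)
  · intro h; exact pow_le_pow_left₀ hN h 2

/-- local step -/
lemma local_step (h : PinchData Q α Φ e θ ρ) {T : ℝ} {R : ℝ → V}
    (hR : ∀ t ∈ Ico 0 T, HasDerivWithinAt R (Q (R t)) (Ico 0 T) t) {x : ℝ} (hx : x ∈ Ico 0 T)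
    (hxC : ‖Φ (R x)‖ ≤ α (R x)) (hα : 0 < α (R x)) {p B : ℝ} (hp : θ ≤ p) (hB : 0 ≤ B)
    (hxB : ‖Φ (R x)‖ ≤ B * (α (R x)) ^ p) :
    ∀ᶠ u in 𝓝[>] x, 0 < α (R u) ∧ ‖Φ (R u)‖ ≤ B * (α (R u)) ^ p := by
  have hc := (deriv_right hR hx).continuousWithinAt
  have h1 : ∀ᶠ u in 𝓝[≥] x, 0 < α (R u) := by
    have h2 : ContinuousWithinAt (fun u => α (R u)) (Ici x) x :=
      α.continuous.continuousAt.comp_continuousWithinAt hc
    exact h2.eventually (lt_mem_nhds hα)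
  have h2 : ∀ᶠ u in 𝓝[≥] x, ‖Φ (R u)‖ ^ 2 < ρ * (α (R u)) ^ 2 := by
    have h3 : ContinuousWithinAt (fun u => ρ * (α (R u)) ^ 2 - ‖Φ (R u)‖ ^ 2) (Ici x) x := by
      apply ContinuousWithinAt.sub
      · exact (((α.continuous.continuousAt.comp_continuousWithinAt hc).pow 2).const_mul ρ)
      · exact ((Φ.continuous.continuousAt.comp_continuousWithinAt hc).norm).pow 2
    have h4 : 0 < ρ * (α (R x)) ^ 2 - ‖Φ (R x)‖ ^ 2 := by
      have h5 : ‖Φ (R x)‖ ^ 2 ≤ (α (R x)) ^ 2 := pow_le_pow_left₀ (norm_nonneg _) hxC 2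
      have h6 := h.rho
      have h7 : 0 < (α (R x)) ^ 2 := by positivity
      nlinarith
    filter_upwards [h3.eventually (lt_mem_nhds h4)] with u hu
    linarith
  have hsmall : ∀ᶠ u in 𝓝[≥] x, u < T := by
    apply mem_nhdsWithin_of_mem_nhds
    exact Iio_mem_nhds hx.2
  obtain ⟨y, hy1, hy2⟩ := (mem_nhdsGE_iff_exists_Icc_subset).mp ((h1.and h2).and hsmall)
  have hxy : x < y := hy1
  have hyT : y < T := (hy2 ⟨hxy.le, le_refl y⟩).2
  have hanti := quotient_antitone h hR hx.1 hyT (fun u hu => (hy2 hu).1.1)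
    (fun u hu => (hy2 hu).1.2.le) hp
  filter_upwards [Ioc_mem_nhdsGT hxy] with u hu
  have huI : u ∈ Icc x y := ⟨hu.1.le, hu.2⟩
  refine ⟨(hy2 huI).1.1, ?_⟩
  have h3 := hanti ⟨le_refl x, hxy.le⟩ huI hu.1.le
  rw [← quotient_iff (norm_nonneg _) (hy2 huI).1.1 hB]
  refine h3.trans ?_
  rw [quotient_iff (norm_nonneg _) hα hB]
  exact hxB

lemma zero_of_alpha_zero (h : PinchData Q α Φ e θ ρ) {x : V} (hx : ‖Φ x‖ ≤ α x) (h0 : α x ≤ 0) :
    x = 0 := by
  have h1 : ‖Φ x‖ ≤ 0 := hx.trans h0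
  have h2 : Φ x = 0 := norm_le_zero_iff.mp h1
  have h3 : 0 ≤ α x := (norm_nonneg _).trans hx
  exact h.ker x (le_antisymm h0 h3) h2

lemma inv_coneC (h : PinchData Q α Φ e θ ρ) : Inv Q (coneC α Φ) := by
  apply inv_of_local coneC_closed
  intro T R hR x hx hxC
  have hxC' : ‖Φ (R x)‖ ≤ α (R x) := hxC
  by_cases hα : 0 < α (R x)
  · have h1 := local_step h hR hx hxC' hα (p := 1) (B := 1) h.theta_lt.le zero_le_one
      (by rw [Real.rpow_one, one_mul]; exact hxC')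
    filter_upwards [h1] with u hu
    have := hu.2
    rw [Real.rpow_one, one_mul] at this
    exact this
  · have h0 := zero_of_alpha_zero h hxC' (not_lt.mp hα)
    filter_upwards [zero_right h hR hx h0] with u hu
    rw [hu]; simp [coneC]

lemma inv_setG (h : PinchData Q α Φ e θ ρ) (B : ℝ) (hB : 0 ≤ B) : Inv Q (setG α Φ θ B) := by
  apply inv_of_local (setG_closed h.theta_pos B)
  intro T R hR x hx hxG
  have hxC' : ‖Φ (R x)‖ ≤ α (R x) := hxG.1
  by_cases hα : 0 < α (R x)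
  · have h1 := local_step h hR hx hxC' hα (p := 1) (B := 1) h.theta_lt.le zero_le_one
      (by rw [Real.rpow_one, one_mul]; exact hxC')
    have h2 := local_step h hR hx hxC' hα (p := θ) (B := B) le_rfl hB hxG.2
    filter_upwards [h1, h2] with u hu hu2
    have := hu.2
    rw [Real.rpow_one, one_mul] at this
    exact ⟨this, hu2.2⟩
  · have h0 := zero_of_alpha_zero h hxC' (not_lt.mp hα)
    filter_upwards [zero_right h hR hx h0] with u hu
    rw [hu]
    refine ⟨by simp, ?_⟩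
    simp [Real.zero_rpow h.theta_pos.ne']

/-- every compact subset of the cone lies in a pinching set -/
lemma compact_subset_setG (h : PinchData Q α Φ e θ ρ) {K : Set V} (hK : IsCompact K)
    (hKC : K ⊆ coneC α Φ) : ∃ B : ℝ, 0 ≤ B ∧ K ⊆ setG α Φ θ B := by
  obtain ⟨M, hM⟩ := (hK.image α.continuous).bddAbove
  set M' := max M 0 with hM'
  have hM'0 : 0 ≤ M' := le_max_right _ _
  refine ⟨M' ^ (1 - θ), Real.rpow_nonneg hM'0 _, fun x hx => ⟨hKC hx, ?_⟩⟩
  have hxC : ‖Φ x‖ ≤ α x := hKC hx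
  have hα0 : 0 ≤ α x := (norm_nonneg _).trans hxC
  have hαM : α x ≤ M' := (hM (mem_image_of_mem _ hx)).trans (le_max_left _ _)
  rcases hα0.eq_or_lt with h0 | hpos
  · rw [← h0] at hxC ⊢
    rw [Real.zero_rpow h.theta_pos.ne', mul_zero]; exact hxC
  · refine hxC.trans ?_
    have e1 : α x = (α x) ^ (1 - θ) * (α x) ^ θ := by
      rw [← Real.rpow_add hpos]; simp
    calc α x = (α x) ^ (1 - θ) * (α x) ^ θ := e1
      _ ≤ M' ^ (1 - θ) * (α x) ^ θ := by
          apply mul_le_mul_of_nonneg_right _ (Real.rpow_nonneg hα0 _)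
          exact Real.rpow_le_rpow hα0 hαM (by linarith [h.theta_lt])

/-- the ray -/
def ray (e : V) : Set V := {x | ∃ s : ℝ, 0 ≤ s ∧ x = s • e}

lemma ray_mem_setG (h : PinchData Q α Φ e θ ρ) (B : ℝ) (hB : 0 ≤ B) : ray e ⊆ setG α Φ θ B := by
  rintro x ⟨s, hs, rfl⟩
  refine ⟨?_, ?_⟩
  · rw [map_smul, map_smul, h.phi_e, h.alpha_e, smul_zero, norm_zero, smul_eq_mul, mul_one]
    exact hs
  · rw [map_smul, map_smul, h.phi_e, h.alpha_e, smul_zero, norm_zero, smul_eq_mul, mul_one]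
    have := Real.rpow_nonneg hs θ
    positivity

lemma mem_ray_of (h : PinchData Q α Φ e θ ρ) {x : V} (h1 : 0 ≤ α x) (h2 : Φ x = 0) : x ∈ ray e := by
  refine ⟨α x, h1, ?_⟩
  have h3 : x - α x • e = 0 := by
    apply h.ker
    · rw [map_sub, map_smul, h.alpha_e, smul_eq_mul, mul_one, sub_self]
    · rw [map_sub, map_smul, h.phi_e, h2, smul_zero, sub_zero]
  exact sub_eq_zero.mp h3

/-- Hausdorff convergence of the rescaled pinching sets. -/
lemma pinch_tendsto (h : PinchData Q α Φ e θ ρ) (B : ℝ) (hB : 0 ≤ B) {K : Set V}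
    (hK : IsCompact K) :
    Tendsto (fun c : ℝ => hausdorffEDist ((c • setG α Φ θ B) ∩ K) (ray e ∩ K)) (𝓝[>] 0) (𝓝 0) := by
  rw [ENNReal.tendsto_nhds_zero]
  intro ε hε
  -- the bad set
  set K' : Set V := K ∩ {x | ε ≤ infEDist x (ray e ∩ K)} with hK'
  have hK'c : IsCompact K' := hK.inter_right (isClosed_le continuous_const continuous_infEDist)
  have hpos : ∀ x ∈ K', 0 < max (-(α x)) ‖Φ x‖ := by
    intro x hx
    by_contra hcon
    push Not at hcon
    have h1 : -(α x) ≤ 0 := (le_max_left _ _).trans hcon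
    have h2 : ‖Φ x‖ ≤ 0 := (le_max_right _ _).trans hcon
    have h3 : x ∈ ray e := mem_ray_of h (by linarith) (norm_le_zero_iff.mp h2)
    have h4 : infEDist x (ray e ∩ K) = 0 := infEDist_zero_of_mem ⟨h3, hx.1⟩
    have h5 : ε ≤ infEDist x (ray e ∩ K) := hx.2
    rw [h4] at h5
    exact absurd h5 (not_le.mpr hε)
  -- eventually no point of the bad set
  have hev : ∀ᶠ c : ℝ in 𝓝[>] 0, ∀ x ∈ (c • setG α Φ θ B) ∩ K, x ∉ K' := by
    rcases K'.eq_empty_or_nonempty with hemp | hne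
    · filter_upwards with c x _
      rw [hemp]; exact notMem_empty x
    · have hcont : ContinuousOn (fun x : V => max (-(α x)) ‖Φ x‖) K' := by
        apply Continuous.continuousOn; fun_prop
      obtain ⟨x₀, hx₀, hmin⟩ := hK'c.exists_isMinOn hne hcont
      set m := max (-(α x₀)) ‖Φ x₀‖ with hm
      have hm0 : 0 < m := hpos x₀ hx₀
      obtain ⟨M, hM⟩ := (hK.image α.continuous).bddAbove
      set M' := max M 0 with hM'
      have hM'0 : 0 ≤ M' := le_max_right _ _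
      have hlim : Tendsto (fun c : ℝ => B * c ^ (1 - θ) * M' ^ θ) (𝓝[>] 0) (𝓝 0) := by
        have h1 : ContinuousAt (fun c : ℝ => B * c ^ (1 - θ) * M' ^ θ) 0 := by
          apply ContinuousAt.mul _ continuousAt_const
          apply ContinuousAt.mul continuousAt_const
          exact Real.continuousAt_rpow_const _ _ (Or.inr (by linarith [h.theta_lt]))
        have h2 : Tendsto (fun c : ℝ => B * c ^ (1 - θ) * M' ^ θ) (𝓝[>] 0)
            (𝓝 (B * (0 : ℝ) ^ (1 - θ) * M' ^ θ)) := h1.tendsto.mono_left nhdsWithin_le_nhds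
        rw [Real.zero_rpow (by linarith [h.theta_lt])] at h2
        simpa using h2
      filter_upwards [hlim.eventually_lt_const hm0, self_mem_nhdsWithin] with c hc hc0 x hx hxK'
      have hc0' : (0 : ℝ) < c := hc0
      obtain ⟨⟨f, hf, hfx⟩, hxK⟩ := hx
      simp only at hfx
      have hαx : α x = c * α f := by rw [← hfx, map_smul, smul_eq_mul]
      have hαf : 0 ≤ α f := (norm_nonneg _).trans hf.1
      have hαx0 : 0 ≤ α x := by rw [hαx]; positivity
      have hxm : m ≤ max (-(α x)) ‖Φ x‖ := hmin hxK'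
      have hΦx : m ≤ ‖Φ x‖ := by
        rcases le_max_iff.mp hxm with h1 | h1
        · linarith
        · exact h1
      have hαM : α x ≤ M' := (hM (mem_image_of_mem _ hxK)).trans (le_max_left _ _)
      have h2 : ‖Φ x‖ ≤ B * c ^ (1 - θ) * (α x) ^ θ := by
        have h3 : ‖Φ x‖ = c * ‖Φ f‖ := by
          rw [← hfx, map_smul, norm_smul, Real.norm_of_nonneg hc0'.le]
        rw [h3, hαx, Real.mul_rpow hc0'.le hαf]
        have h4 : c ^ (1 - θ) * c ^ θ = c := by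
          rw [← Real.rpow_add hc0']; simp
        calc c * ‖Φ f‖ ≤ c * (B * (α f) ^ θ) := mul_le_mul_of_nonneg_left hf.2 hc0'.le
          _ = (c ^ (1 - θ) * c ^ θ) * (B * (α f) ^ θ) := by rw [h4]
          _ = B * c ^ (1 - θ) * (c ^ θ * (α f) ^ θ) := by ring
      have h5 : B * c ^ (1 - θ) * (α x) ^ θ ≤ B * c ^ (1 - θ) * M' ^ θ := by
        apply mul_le_mul_of_nonneg_left _ (by positivity)
        exact Real.rpow_le_rpow hαx0 hαM h.theta_pos.le
      linarith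
  filter_upwards [hev, self_mem_nhdsWithin] with c hc hc0
  have hc0' : (0 : ℝ) < c := hc0
  apply hausdorffEDist_le_of_infEDist
  · intro x hx
    by_contra hcon
    push Not at hcon
    exact hc x hx ⟨hx.2, hcon.le⟩
  · intro x hx
    have h1 : x ∈ (c • setG α Φ θ B) ∩ K := by
      refine ⟨?_, hx.2⟩
      obtain ⟨s, hs, hxs⟩ := hx.1
      refine ⟨(s / c) • e, ray_mem_setG h B hB ⟨s / c, by positivity, rfl⟩, ?_⟩
      simp only
      rw [smul_smul, mul_div_cancel₀ _ hc0'.ne', hxs]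
    rw [infEDist_zero_of_mem h1]
    exact zero_le
end Pool.Agent.RicciCone
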