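import Mathlib
import Pool.Agent.MP_952e48_gt.Cones

set_option autoImplicit false

/-!
# Tensor algebra: the trilinear form of `Q`
-/

namespace Pool.Agent.RicciCone

open Finset

variable {n : ℕ}

/-- inner product of tensors (full sum) -/
def ip (X Y : Tensor4 n) : ℝ := ∑ i, ∑ j, ∑ k, ∑ l, X i j k l * Y i j k l

/-- Ricci contraction -/
def Ric (X : Tensor4 n) (i k : Fin n) : ℝ := ∑ j, X i j k j

/-- the bilinear form `X(u,v) = ∑ X_{ipkq} u_{ik} v_{pq}` -/
def form (X : Tensor4 n) (u v : Fin n → Fin n → ℝ) : ℝ :=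
  ∑ i, ∑ k, ∑ p, ∑ q, X i p k q * u i k * v p q

/-- inner product of 2-tensors -/
def ip2 (u v : Fin n → Fin n → ℝ) : ℝ := ∑ i, ∑ k, u i k * v i k

/-- first matrix of a tensor -/
def Nm (X : Tensor4 n) : Matrix (Fin n × Fin n) (Fin n × Fin n) ℝ :=
  Matrix.of fun a b => X a.1 a.2 b.1 b.2

/-- second matrix of a tensor -/
def Mm (X : Tensor4 n) : Matrix (Fin n × Fin n) (Fin n × Fin n) ℝ :=
  Matrix.of fun a b => X a.1 b.1 a.2 b.2

/-- the trilinear form -/
noncomputable def T3 (X Y Z : Tensor4 n) : ℝ :=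
  (1 / 2) * (Nm X * Nm Y * Nm Z).trace + 2 * (Mm X * Mm Y * Mm Z).trace

lemma Nm_add (X Y : Tensor4 n) : Nm (X + Y) = Nm X + Nm Y := rfl
lemma Mm_add (X Y : Tensor4 n) : Mm (X + Y) = Mm X + Mm Y := rfl
lemma Nm_smul (c : ℝ) (X : Tensor4 n) : Nm (c • X) = c • Nm X := rfl
lemma Mm_smul (c : ℝ) (X : Tensor4 n) : Mm (c • X) = c • Mm X := rfl

lemma T3_add_left (X X' Y Z : Tensor4 n) : T3 (X + X') Y Z = T3 X Y Z + T3 X' Y Z := by
  unfold T3
  rw [Nm_add, Mm_add, Matrix.add_mul, Matrix.add_mul, Matrix.trace_add, Matrix.add_mul,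
    Matrix.add_mul, Matrix.trace_add]
  ring

lemma T3_smul_left (c : ℝ) (X Y Z : Tensor4 n) : T3 (c • X) Y Z = c * T3 X Y Z := by
  unfold T3
  rw [Nm_smul, Mm_smul, Matrix.smul_mul, Matrix.smul_mul, Matrix.trace_smul, Matrix.smul_mul,
    Matrix.smul_mul, Matrix.trace_smul]
  simp only [smul_eq_mul]
  ring

lemma T3_cycle (X Y Z : Tensor4 n) : T3 X Y Z = T3 Y Z X := by
  unfold T3
  rw [← Matrix.trace_mul_cycle (Nm Y) (Nm Z) (Nm X), ← Matrix.trace_mul_cycle (Mm Y) (Mm Z) (Mm X)]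

lemma Nm_symm {X : Tensor4 n} (h : X ∈ curvSubmodule n) : (Nm X).transpose = Nm X := by
  ext a b
  simp only [Matrix.transpose_apply, Nm, Matrix.of_apply]
  exact pairsym h _ _ _ _

lemma Mm_symm {X : Tensor4 n} (h : X ∈ curvSubmodule n) : (Mm X).transpose = Mm X := by
  ext a b
  simp only [Matrix.transpose_apply, Mm, Matrix.of_apply]
  rw [anti12 h a.1 b.1 b.2 a.2, anti34 h a.1 b.1 a.2 b.2]; ring

lemma T3_rev {X Y Z : Tensor4 n} (hX : X ∈ curvSubmodule n) (hY : Y ∈ curvSubmodule n)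
    (hZ : Z ∈ curvSubmodule n) : T3 X Y Z = T3 Z Y X := by
  unfold T3
  rw [← Matrix.trace_transpose (Nm X * Nm Y * Nm Z), ← Matrix.trace_transpose (Mm X * Mm Y * Mm Z)]
  simp only [Matrix.transpose_mul]
  rw [Nm_symm hX, Nm_symm hY, Nm_symm hZ, Mm_symm hX, Mm_symm hY, Mm_symm hZ, Matrix.mul_assoc,
    Matrix.mul_assoc]

lemma T3_swap12 {X Y Z : Tensor4 n} (hX : X ∈ curvSubmodule n) (hY : Y ∈ curvSubmodule n)
    (hZ : Z ∈ curvSubmodule n) : T3 X Y Z = T3 Y X Z := by
  rw [T3_rev hX hY hZ, T3_cycle Z Y X]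

lemma T3_swap23 {X Y Z : Tensor4 n} (hX : X ∈ curvSubmodule n) (hY : Y ∈ curvSubmodule n)
    (hZ : Z ∈ curvSubmodule n) : T3 X Y Z = T3 X Z Y := by
  rw [T3_rev hX hY hZ, T3_cycle Z Y X, T3_cycle Y X Z]

lemma T3_add_mid (X Y Y' Z : Tensor4 n) : T3 X (Y + Y') Z = T3 X Y Z + T3 X Y' Z := by
  rw [T3_cycle X, T3_add_left, T3_cycle X Y, T3_cycle X Y']

lemma T3_add_right (X Y Z Z' : Tensor4 n) : T3 X Y (Z + Z') = T3 X Y Z + T3 X Y Z' := by
  rw [T3_cycle X, T3_add_mid, T3_cycle X Y Z, T3_cycle X Y Z']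

lemma T3_smul_mid (c : ℝ) (X Y Z : Tensor4 n) : T3 X (c • Y) Z = c * T3 X Y Z := by
  rw [T3_cycle X, T3_smul_left, T3_cycle X Y]

lemma T3_smul_right (c : ℝ) (X Y Z : Tensor4 n) : T3 X Y (c • Z) = c * T3 X Y Z := by
  rw [T3_cycle X, T3_smul_mid, T3_cycle X Y Z]

lemma ip_add_left (X X' Y : Tensor4 n) : ip (X + X') Y = ip X Y + ip X' Y := by
  unfold ip
  simp only [Pi.add_apply, add_mul, Finset.sum_add_distrib]

lemma ip_smul_left (c : ℝ) (X Y : Tensor4 n) : ip (c • X) Y = c * ip X Y := by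
  unfold ip
  simp only [Pi.smul_apply, smul_eq_mul, Finset.mul_sum, mul_assoc]

lemma ip_comm (X Y : Tensor4 n) : ip X Y = ip Y X := by
  unfold ip
  simp only [mul_comm]

lemma ip_add_right (X Y Y' : Tensor4 n) : ip X (Y + Y') = ip X Y + ip X Y' := by
  rw [ip_comm, ip_add_left, ip_comm Y, ip_comm Y']

lemma ip_smul_right (c : ℝ) (X Y : Tensor4 n) : ip X (c • Y) = c * ip X Y := by
  rw [ip_comm, ip_smul_left, ip_comm]

lemma ip_self_nonneg (X : Tensor4 n) : 0 ≤ ip X X := by
  unfold ip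
  exact Finset.sum_nonneg fun i _ => Finset.sum_nonneg fun j _ => Finset.sum_nonneg fun k _ =>
    Finset.sum_nonneg fun l _ => mul_self_nonneg _

/-- `⟨R², Z⟩` -/
lemma ip_sq {R Z : Tensor4 n} (hR : R ∈ curvSubmodule n) (hZ : Z ∈ curvSubmodule n) :
    ip (sq R) Z = (1 / 2) * (Nm R * Nm R * Nm Z).trace := by
  have e1 : ∀ i j k l, sq R i j k l = (1 / 2) * ∑ p, ∑ q, R i j p q * R p q k l := by
    intro i j k l
    unfold sq
    exact sum_pairs (fun p q => R i j p q * R p q k l)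
      (fun p q => by rw [anti34 hR i j p q, anti12 hR p q k l]; ring)
      (fun p => by
        have := anti12 hR p p k l
        have h0 : R p p k l = 0 := by linarith
        rw [h0, mul_zero])
  unfold ip
  simp only [Matrix.trace, Matrix.diag, Matrix.mul_apply, Fintype.sum_prod_type, Nm, Matrix.of_apply]
  simp only [Finset.mul_sum]
  apply Finset.sum_congr rfl; intro i _
  apply Finset.sum_congr rfl; intro j _
  apply Finset.sum_congr rfl; intro k _
  apply Finset.sum_congr rfl; intro l _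
  rw [e1, pairsym hZ i j k l]; ring

/-- `⟨R^#, Z⟩` -/
lemma ip_sharp {R Z : Tensor4 n} (hR : R ∈ curvSubmodule n) (hZ : Z ∈ curvSubmodule n) :
    ip (sharp R) Z = 2 * (Mm R * Mm R * Mm Z).trace := by
  have e1 : ∀ i j, ∑ k, ∑ l, sharp R i j k l * Z i j k l =
      2 * ∑ k, ∑ l, Bt R R i k j l * Z i j k l := by
    intro i j
    have a1 : ∑ k, ∑ l, Bt R R i l j k * Z i j k l = - ∑ k, ∑ l, Bt R R i k j l * Z i j k l := by
      rw [Finset.sum_comm, ← Finset.sum_neg_distrib]
      apply Finset.sum_congr rfl; intro k _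
      rw [← Finset.sum_neg_distrib]
      apply Finset.sum_congr rfl; intro l _
      rw [anti34 hZ i j k l]; ring
    have a2 : ∑ k, ∑ l, sharp R i j k l * Z i j k l =
        ∑ k, ∑ l, Bt R R i k j l * Z i j k l - ∑ k, ∑ l, Bt R R i l j k * Z i j k l := by
      rw [← Finset.sum_sub_distrib]
      apply Finset.sum_congr rfl; intro k _
      rw [← Finset.sum_sub_distrib]
      apply Finset.sum_congr rfl; intro l _
      rw [sharp_eq hR]; ring
    rw [a2, a1]; ring
  unfold ip
  simp only [e1]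
  simp only [Matrix.trace, Matrix.diag, Matrix.mul_apply, Fintype.sum_prod_type, Mm, Matrix.of_apply]
  rw [Finset.mul_sum]
  apply Finset.sum_congr rfl; intro i _
  rw [← Finset.mul_sum]
  congr 1
  rw [Finset.sum_comm]
  apply Finset.sum_congr rfl; intro k _
  apply Finset.sum_congr rfl; intro j _
  apply Finset.sum_congr rfl; intro l _
  rw [anti12 hZ i j l k, anti34 hZ i j k l, neg_neg]
  congr 1
  unfold Bt
  apply Finset.sum_congr rfl; intro p _
  apply Finset.sum_congr rfl; intro q _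
  rw [anti12 hR j p q l, anti34 hR j p l q]; ring

/-- `⟨Q(R), Z⟩ = T3(R,R,Z)` -/
lemma ip_Q {R Z : Tensor4 n} (hR : R ∈ curvSubmodule n) (hZ : Z ∈ curvSubmodule n) :
    ip (sq R + sharp R) Z = T3 R R Z := by
  rw [ip_add_left, ip_sq hR hZ, ip_sharp hR hZ]; rfl

/-- the Ricci contraction of `Q(R)` -/
lemma Ric_Q {R : Tensor4 n} (h : R ∈ curvSubmodule n) (i k : Fin n) :
    Ric (sq R + sharp R) i k = ∑ p, ∑ q, R i p k q * Ric R p q := by
  have e0 : ∀ j, (sq R + sharp R) i j k j =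
      Bt R R i j k j - 2 * Bt R R i j j k + Bt R R i k j j := by
    intro j
    have := Q_eq h i j k j
    simp only [Pi.add_apply]
    rw [this]; ring
  unfold Ric
  simp only [e0]
  rw [Finset.sum_add_distrib, Finset.sum_sub_distrib, ← Finset.mul_sum]
  -- U
  set U : ℝ := ∑ a, ∑ b, ∑ c, R i a b c * R k a b c with hU
  have hV : ∑ j, Bt R R i j k j = U := by
    unfold Bt
    rw [hU, Finset.sum_comm]
  have hv1 : ∑ j, Bt R R i j j k = ∑ a, ∑ b, ∑ c, R i a b c * R k c b a := by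
    unfold Bt
    rw [Finset.sum_comm]
    apply Finset.sum_congr rfl; intro a _
    apply Finset.sum_congr rfl; intro b _
    apply Finset.sum_congr rfl; intro c _
    rw [pairsym h k c b a]
  have hw : ∑ a, ∑ b, ∑ c, R i a b c * R k c b a = ∑ a, ∑ b, ∑ c, R i a b c * R k b a c := by
    apply Finset.sum_congr rfl; intro a _
    rw [Finset.sum_comm]
    apply Finset.sum_congr rfl; intro b _
    apply Finset.sum_congr rfl; intro c _
    rw [anti34 h i a b c, anti34 h k b a c]; ring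
  have hsum : (∑ a, ∑ b, ∑ c, R i a b c * R k c b a) + (∑ a, ∑ b, ∑ c, R i a b c * R k b a c) - U = 0 := by
    rw [hU, ← Finset.sum_add_distrib, ← Finset.sum_sub_distrib]
    apply Finset.sum_eq_zero; intro a _
    rw [← Finset.sum_add_distrib, ← Finset.sum_sub_distrib]
    apply Finset.sum_eq_zero; intro b _
    rw [← Finset.sum_add_distrib, ← Finset.sum_sub_distrib]
    apply Finset.sum_eq_zero; intro c _
    -- R k c b a + R k b a c + R k a c b = 0
    have hb : R k c b a + R k b a c - R k a b c = 0 := by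
      have h1 := bianchi h a b c k
      have h2 : R a b c k = R c k a b := (pairsym h a b c k).symm
      have h3 : R b c a k = R a k b c := (pairsym h b c a k).symm
      have h4 : R c a b k = R b k c a := (pairsym h c a b k).symm
      rw [h2, h3, h4] at h1
      have h5 : R c k a b = R k c b a := by rw [anti12 h k c a b, anti34 h k c b a]; ring
      have h6 : R a k b c = - R k a b c := anti12 h k a b c
      have h7 : R b k c a = R k b a c := by rw [anti12 h k b c a, anti34 h k b a c]; ring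
      rw [h5, h6, h7] at h1
      linarith
    calc R i a b c * R k c b a + R i a b c * R k b a c - R i a b c * R k a b c =
        R i a b c * (R k c b a + R k b a c - R k a b c) := by ring
      _ = 0 := by rw [hb, mul_zero]
  have hhalf : ∑ j, Bt R R i j j k = U / 2 := by
    rw [hv1]; rw [← hw] at hsum; linarith
  rw [hV, hhalf]
  have hlast : ∑ j, Bt R R i k j j = ∑ p, ∑ q, R i p k q * ∑ j, R p j q j := by
    unfold Bt
    rw [Finset.sum_comm]
    apply Finset.sum_congr rfl; intro p _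
    rw [Finset.sum_comm]
    apply Finset.sum_congr rfl; intro q _
    rw [Finset.mul_sum]
    apply Finset.sum_congr rfl; intro j _
    congr 1
    rw [anti12 h p j j q, anti34 h p j q j]; ring
  rw [hlast]; ring

end Pool.Agent.RicciCone
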