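import Mathlib
import Pool.Agent.MP_952e48_gt.Tensor

set_option autoImplicit false

/-!
# The Kulkarni–Nomizu product with the metric, and the decomposition of curvature operators
-/

namespace Pool.Agent.RicciCone

open Finset

variable {n : ℕ}

/-- Kronecker delta -/
def dl (i j : Fin n) : ℝ := if i = j then 1 else 0

lemma dl_comm (i j : Fin n) : dl i j = dl j i := by
  unfold dl; simp only [eq_comm]

lemma sum_dl (f : Fin n → ℝ) (i : Fin n) : ∑ j, f j * dl i j = f i := by
  unfold dl; simp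

lemma sum_dl' (f : Fin n → ℝ) (i : Fin n) : ∑ j, f j * dl j i = f i := by
  unfold dl; simp

/-- `K(h) = h_{ik} δ_{jl} + h_{jl} δ_{ik} - h_{il} δ_{jk} - h_{jk} δ_{il}` -/
def K (h : Fin n → Fin n → ℝ) : Tensor4 n := fun i j k l =>
  h i k * dl j l + h j l * dl i k - h i l * dl j k - h j k * dl i l

lemma K_mem {h : Fin n → Fin n → ℝ} (hs : ∀ i j, h j i = h i j) : K h ∈ curvSubmodule n := by
  refine ⟨fun i j k l => ?_, fun i j k l => ?_, fun i j k l => ?_⟩
  · simp only [K]; ring
  · simp only [K]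
    rw [hs i k, hs j l, hs i l, hs j k, dl_comm l j, dl_comm k i, dl_comm l i, dl_comm k j]
    ring
  · simp only [K]
    rw [hs i j, hs i k, hs j k, dl_comm j i, dl_comm k i, dl_comm k j]
    ring

lemma K_dl : K (n := n) dl = (2 : ℝ) • idTensor n := by
  funext i j k l
  simp only [K, idTensor, Pi.smul_apply, smul_eq_mul, dl]
  ring

lemma idTensor_eq : idTensor n = (1 / 2 : ℝ) • K dl := by
  rw [K_dl, smul_smul]; norm_num

lemma K_add (u v : Fin n → Fin n → ℝ) : K (u + v) = K u + K v := by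
  funext i j k l
  simp only [K, Pi.add_apply]; ring

lemma K_smul (c : ℝ) (u : Fin n → Fin n → ℝ) : K (c • u) = c • K u := by
  funext i j k l
  simp only [K, Pi.smul_apply, smul_eq_mul]; ring

lemma ip_K {X : Tensor4 n} (hX : X ∈ curvSubmodule n) (h : Fin n → Fin n → ℝ) :
    ip X (K h) = 4 * ip2 (Ric X) h := by
  have t1 : ∑ i, ∑ j, ∑ k, ∑ l, X i j k l * (h i k * dl j l) = ip2 (Ric X) h := by
    unfold ip2 Ric
    apply Finset.sum_congr rfl; intro i _
    rw [Finset.sum_comm]
    apply Finset.sum_congr rfl; intro k _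
    rw [Finset.sum_mul]
    apply Finset.sum_congr rfl; intro j _
    have : ∀ l, X i j k l * (h i k * dl j l) = (X i j k l * h i k) * dl j l := fun l => by ring
    simp only [this]
    exact sum_dl (fun l => X i j k l * h i k) j
  have t2 : ∑ i, ∑ j, ∑ k, ∑ l, X i j k l * (h j l * dl i k) = ip2 (Ric X) h := by
    rw [← t1, Finset.sum_comm]
    apply Finset.sum_congr rfl; intro i _
    apply Finset.sum_congr rfl; intro j _
    rw [Finset.sum_comm]
    apply Finset.sum_congr rfl; intro k _
    apply Finset.sum_congr rfl; intro l _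
    rw [anti12 hX i j l k, anti34 hX i j k l]; ring
  have t3 : ∑ i, ∑ j, ∑ k, ∑ l, X i j k l * (h i l * dl j k) = - ip2 (Ric X) h := by
    rw [← t1, ← Finset.sum_neg_distrib]
    apply Finset.sum_congr rfl; intro i _
    rw [← Finset.sum_neg_distrib]
    apply Finset.sum_congr rfl; intro j _
    rw [Finset.sum_comm, ← Finset.sum_neg_distrib]
    apply Finset.sum_congr rfl; intro k _
    rw [← Finset.sum_neg_distrib]
    apply Finset.sum_congr rfl; intro l _
    rw [anti34 hX i j k l]; ring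
  have t4 : ∑ i, ∑ j, ∑ k, ∑ l, X i j k l * (h j k * dl i l) = - ip2 (Ric X) h := by
    rw [← t2, ← Finset.sum_neg_distrib]
    apply Finset.sum_congr rfl; intro i _
    rw [← Finset.sum_neg_distrib]
    apply Finset.sum_congr rfl; intro j _
    rw [Finset.sum_comm, ← Finset.sum_neg_distrib]
    apply Finset.sum_congr rfl; intro k _
    rw [← Finset.sum_neg_distrib]
    apply Finset.sum_congr rfl; intro l _
    rw [anti34 hX i j k l]; ring
  have e : ip X (K h) = ∑ i, ∑ j, ∑ k, ∑ l, X i j k l * (h i k * dl j l) +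
      ∑ i, ∑ j, ∑ k, ∑ l, X i j k l * (h j l * dl i k) -
      ∑ i, ∑ j, ∑ k, ∑ l, X i j k l * (h i l * dl j k) -
      ∑ i, ∑ j, ∑ k, ∑ l, X i j k l * (h j k * dl i l) := by
    simp only [← Finset.sum_add_distrib, ← Finset.sum_sub_distrib]
    unfold ip
    apply Finset.sum_congr rfl; intro i _
    apply Finset.sum_congr rfl; intro j _
    apply Finset.sum_congr rfl; intro k _
    apply Finset.sum_congr rfl; intro l _
    simp only [K]; ring
  rw [e, t1, t2, t3, t4]; ring

lemma sum_dl_diag : ∑ j : Fin n, dl j j = n := by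
  unfold dl; simp

lemma Ric_K (h : Fin n → Fin n → ℝ) (i k : Fin n) :
    Ric (K h) i k = ((n : ℝ) - 2) * h i k + (∑ j, h j j) * dl i k := by
  unfold Ric K
  simp only [Finset.sum_add_distrib, Finset.sum_sub_distrib]
  have a1 : ∑ j : Fin n, h i k * dl j j = (n : ℝ) * h i k := by
    rw [← Finset.mul_sum, sum_dl_diag]; ring
  have a2 : ∑ j, h j j * dl i k = (∑ j, h j j) * dl i k := by rw [Finset.sum_mul]
  have a3 : ∑ j, h i j * dl j k = h i k := sum_dl' (fun j => h i j) k
  have a4 : ∑ j, h j k * dl i j = h i k := sum_dl (fun j => h j k) i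
  rw [a1, a2, a3, a4]; ring

lemma Ric_symm {X : Tensor4 n} (hX : X ∈ curvSubmodule n) (i k : Fin n) : Ric X k i = Ric X i k := by
  unfold Ric
  apply Finset.sum_congr rfl; intro j _
  exact pairsym hX i j k j

lemma Ric_add (X Y : Tensor4 n) : Ric (X + Y) = Ric X + Ric Y := by
  funext i k
  simp only [Ric, Pi.add_apply, Finset.sum_add_distrib]

lemma Ric_smul (c : ℝ) (X : Tensor4 n) : Ric (c • X) = c • Ric X := by
  funext i k
  simp only [Ric, Pi.smul_apply, smul_eq_mul, Finset.mul_sum]

lemma form_add_left (X Y : Tensor4 n) (u v : Fin n → Fin n → ℝ) :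
    form (X + Y) u v = form X u v + form Y u v := by
  unfold form
  simp only [Pi.add_apply, add_mul, Finset.sum_add_distrib]

lemma form_smul_left (c : ℝ) (X : Tensor4 n) (u v : Fin n → Fin n → ℝ) :
    form (c • X) u v = c * form X u v := by
  unfold form
  simp only [Pi.smul_apply, smul_eq_mul, Finset.mul_sum, mul_assoc]

lemma form_add_mid (X : Tensor4 n) (u u' v : Fin n → Fin n → ℝ) :
    form X (u + u') v = form X u v + form X u' v := by
  unfold form
  simp only [Pi.add_apply, mul_add, add_mul, Finset.sum_add_distrib]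

lemma form_smul_mid (c : ℝ) (X : Tensor4 n) (u v : Fin n → Fin n → ℝ) :
    form X (c • u) v = c * form X u v := by
  unfold form
  simp only [Pi.smul_apply, smul_eq_mul, Finset.mul_sum]
  apply Finset.sum_congr rfl; intro i _
  apply Finset.sum_congr rfl; intro k _
  apply Finset.sum_congr rfl; intro p _
  apply Finset.sum_congr rfl; intro q _
  ring

lemma form_comm {X : Tensor4 n} (hX : X ∈ curvSubmodule n) (u v : Fin n → Fin n → ℝ) :
    form X u v = form X v u := by
  unfold form
  have e1 : ∑ i, ∑ k, ∑ p, ∑ q, X i p k q * u i k * v p q =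
      ∑ p, ∑ q, ∑ i, ∑ k, X i p k q * u i k * v p q := by
    have a1 : ∀ i, ∑ k, ∑ p, ∑ q, X i p k q * u i k * v p q =
        ∑ p, ∑ q, ∑ k, X i p k q * u i k * v p q := by
      intro i
      rw [Finset.sum_comm]
      apply Finset.sum_congr rfl; intro p _
      exact Finset.sum_comm
    simp only [a1]
    rw [Finset.sum_comm]
    apply Finset.sum_congr rfl; intro p _
    exact Finset.sum_comm
  rw [e1]
  apply Finset.sum_congr rfl; intro i _
  apply Finset.sum_congr rfl; intro k _
  apply Finset.sum_congr rfl; intro p _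
  apply Finset.sum_congr rfl; intro q _
  rw [anti12 hX i p q k, anti34 hX i p k q]; ring

lemma form_dl (X : Tensor4 n) (u : Fin n → Fin n → ℝ) : form X u dl = ip2 (Ric X) u := by
  unfold form ip2 Ric
  apply Finset.sum_congr rfl; intro i _
  apply Finset.sum_congr rfl; intro k _
  rw [Finset.sum_mul]
  apply Finset.sum_congr rfl; intro p _
  exact sum_dl (fun q => X i p k q * u i k) p

lemma ip2_comm (u v : Fin n → Fin n → ℝ) : ip2 u v = ip2 v u := by
  unfold ip2; simp only [mul_comm]

lemma ip2_self_nonneg (u : Fin n → Fin n → ℝ) : 0 ≤ ip2 u u := by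
  unfold ip2
  exact Finset.sum_nonneg fun i _ => Finset.sum_nonneg fun j _ => mul_self_nonneg _

lemma ip2_add_left (u u' v : Fin n → Fin n → ℝ) : ip2 (u + u') v = ip2 u v + ip2 u' v := by
  unfold ip2
  simp only [Pi.add_apply, add_mul, Finset.sum_add_distrib]

lemma ip2_smul_left (c : ℝ) (u v : Fin n → Fin n → ℝ) : ip2 (c • u) v = c * ip2 u v := by
  unfold ip2
  simp only [Pi.smul_apply, smul_eq_mul, Finset.mul_sum, mul_assoc]

lemma ip2_add_right (u v v' : Fin n → Fin n → ℝ) : ip2 u (v + v') = ip2 u v + ip2 u v' := by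
  rw [ip2_comm, ip2_add_left, ip2_comm v, ip2_comm v']

lemma ip2_smul_right (c : ℝ) (u v : Fin n → Fin n → ℝ) : ip2 u (c • v) = c * ip2 u v := by
  rw [ip2_comm, ip2_smul_left, ip2_comm]

lemma ip2_dl (u : Fin n → Fin n → ℝ) : ip2 u dl = ∑ i, u i i := by
  unfold ip2
  apply Finset.sum_congr rfl; intro i _
  exact sum_dl (fun k => u i k) i

/-- `T3(R,R,K(h)) = 4 R(h, Ric R)` -/
lemma T3_K_diag {R : Tensor4 n} (hR : R ∈ curvSubmodule n) {h : Fin n → Fin n → ℝ}
    (hs : ∀ i j, h j i = h i j) : T3 R R (K h) = 4 * form R (Ric R) h := by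
  rw [← ip_Q hR (K_mem hs), ip_K (Q_mem hR), form_comm hR]
  congr 1
  unfold ip2 form
  apply Finset.sum_congr rfl; intro i _
  apply Finset.sum_congr rfl; intro k _
  rw [Ric_Q hR, Finset.sum_mul]
  apply Finset.sum_congr rfl; intro p _
  rw [Finset.sum_mul]
  apply Finset.sum_congr rfl; intro q _
  ring

/-- polarized version -/
lemma T3_K {X Y : Tensor4 n} (hX : X ∈ curvSubmodule n) (hY : Y ∈ curvSubmodule n)
    {h : Fin n → Fin n → ℝ} (hs : ∀ i j, h j i = h i j) :
    T3 X Y (K h) = 2 * form X (Ric Y) h + 2 * form Y (Ric X) h := by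
  have h1 := T3_K_diag ((curvSubmodule n).add_mem hX hY) hs
  rw [T3_add_left, T3_add_mid, T3_add_mid, T3_K_diag hX hs, T3_K_diag hY hs,
    T3_swap12 hY hX (K_mem hs), Ric_add, form_add_left, form_add_mid, form_add_mid] at h1
  linarith

/-- `T3(X,Y,Id) = 2 ⟨Ric X, Ric Y⟩` -/
lemma T3_id {X Y : Tensor4 n} (hX : X ∈ curvSubmodule n) (hY : Y ∈ curvSubmodule n) :
    T3 X Y (idTensor n) = 2 * ip2 (Ric X) (Ric Y) := by
  rw [idTensor_eq, T3_smul_right, T3_K hX hY (fun i j => dl_comm j i), form_dl, form_dl,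
    ip2_comm (Ric Y)]
  ring

lemma Ric_id (i k : Fin n) : Ric (idTensor n) i k = ((n : ℝ) - 1) * dl i k := by
  rw [idTensor_eq, Ric_smul]
  simp only [Pi.smul_apply, smul_eq_mul]
  rw [Ric_K, sum_dl_diag]; ring

lemma Ric_id' : Ric (idTensor n) = ((n : ℝ) - 1) • dl := by
  funext i k; rw [Ric_id]; rfl

lemma ip_id {X : Tensor4 n} (hX : X ∈ curvSubmodule n) : ip X (idTensor n) = 2 * ∑ i, Ric X i i := by
  rw [idTensor_eq, ip_smul_right, ip_K hX, ip2_dl]; ring

end Pool.Agent.RicciCone
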