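import Mathlib
import Pool.Agent.MP_952e48_gt.Tensor2
import Pool.Agent.MP_952e48_gt.Frame

set_option autoImplicit false

/-!
# The decomposition of curvature operators, and the quadratic data of the cones
-/

namespace Pool.Agent.RicciCone

open Finset

variable {n : ℕ}

/-- normalized trace -/
noncomputable def al (R : Tensor4 n) : ℝ := (∑ i, Ric R i i) / (n * (n - 1))

/-- the part orthogonal to the identity -/
noncomputable def Sp (R : Tensor4 n) : Tensor4 n := R + (-(al R)) • idTensor n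

/-- the trace-free Ricci tensor -/
noncomputable def rr (R : Tensor4 n) : Fin n → Fin n → ℝ := Ric (Sp R)

/-- the trace-free Ricci part -/
noncomputable def S0 (R : Tensor4 n) : Tensor4 n := (1 / ((n : ℝ) - 2)) • K (rr R)

/-- the Weyl part -/
noncomputable def Wp (R : Tensor4 n) : Tensor4 n := Sp R + (-1 : ℝ) • S0 R

lemma al_add (R R' : Tensor4 n) : al (R + R') = al R + al R' := by
  unfold al
  rw [Ric_add]; simp only [Pi.add_apply, Finset.sum_add_distrib]; ring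

lemma al_smul (c : ℝ) (R : Tensor4 n) : al (c • R) = c * al R := by
  unfold al
  rw [Ric_smul]; simp only [Pi.smul_apply, smul_eq_mul, ← Finset.mul_sum]; ring

lemma al_id (hn : 4 ≤ n) : al (idTensor n) = 1 := by
  unfold al
  have h4 : (4 : ℝ) ≤ n := by exact_mod_cast hn
  simp only [Ric_id, ← Finset.mul_sum, sum_dl_diag]
  have h1 : (n : ℝ) - 1 ≠ 0 := by linarith
  have h2 : (n : ℝ) ≠ 0 := by linarith
  field_simp

lemma Sp_add (R R' : Tensor4 n) : Sp (R + R') = Sp R + Sp R' := by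
  unfold Sp; rw [al_add, neg_add, add_smul]; abel

lemma Sp_smul (c : ℝ) (R : Tensor4 n) : Sp (c • R) = c • Sp R := by
  unfold Sp; rw [al_smul, smul_add, smul_smul]; congr 2; ring

lemma rr_add (R R' : Tensor4 n) : rr (R + R') = rr R + rr R' := by
  unfold rr; rw [Sp_add, Ric_add]

lemma rr_smul (c : ℝ) (R : Tensor4 n) : rr (c • R) = c • rr R := by
  unfold rr; rw [Sp_smul, Ric_smul]

lemma S0_add (R R' : Tensor4 n) : S0 (R + R') = S0 R + S0 R' := by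
  unfold S0; rw [rr_add, K_add, smul_add]

lemma S0_smul (c : ℝ) (R : Tensor4 n) : S0 (c • R) = c • S0 R := by
  unfold S0; rw [rr_smul, K_smul, smul_comm]

lemma Wp_add (R R' : Tensor4 n) : Wp (R + R') = Wp R + Wp R' := by
  unfold Wp; rw [Sp_add, S0_add, smul_add]; abel

lemma Wp_smul (c : ℝ) (R : Tensor4 n) : Wp (c • R) = c • Wp R := by
  unfold Wp; rw [Sp_smul, S0_smul, smul_add, smul_comm]

lemma Sp_mem {R : Tensor4 n} (h : R ∈ curvSubmodule n) : Sp R ∈ curvSubmodule n :=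
  (curvSubmodule n).add_mem h ((curvSubmodule n).smul_mem _ (idTensor_mem n))

lemma rr_symm {R : Tensor4 n} (h : R ∈ curvSubmodule n) (i j : Fin n) : rr R j i = rr R i j :=
  Ric_symm (Sp_mem h) i j

lemma S0_mem {R : Tensor4 n} (h : R ∈ curvSubmodule n) : S0 R ∈ curvSubmodule n :=
  (curvSubmodule n).smul_mem _ (K_mem (rr_symm h))

lemma Wp_mem {R : Tensor4 n} (h : R ∈ curvSubmodule n) : Wp R ∈ curvSubmodule n :=
  (curvSubmodule n).add_mem (Sp_mem h) ((curvSubmodule n).smul_mem _ (S0_mem h))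

lemma decomp (R : Tensor4 n) : R = al R • idTensor n + S0 R + Wp R := by
  unfold Wp Sp
  rw [neg_smul, neg_smul, one_smul]; abel

lemma Sp_eq (R : Tensor4 n) : Sp R = S0 R + Wp R := by
  unfold Wp
  rw [neg_smul, one_smul]; abel

lemma tr_rr (hn : 4 ≤ n) (R : Tensor4 n) : ∑ i, rr R i i = 0 := by
  have h4 : (4 : ℝ) ≤ n := by exact_mod_cast hn
  unfold rr Sp
  rw [Ric_add, Ric_smul]
  simp only [Pi.add_apply, Pi.smul_apply, smul_eq_mul, Finset.sum_add_distrib, ← Finset.mul_sum,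
    Ric_id, sum_dl_diag]
  unfold al
  have h1 : (n : ℝ) - 1 ≠ 0 := by linarith
  have h2 : (n : ℝ) ≠ 0 := by linarith
  field_simp
  ring

lemma Ric_S0 (hn : 4 ≤ n) (R : Tensor4 n) : Ric (S0 R) = rr R := by
  have h4 : (4 : ℝ) ≤ n := by exact_mod_cast hn
  have h1 : (n : ℝ) - 2 ≠ 0 := by linarith
  unfold S0
  rw [Ric_smul]
  funext i k
  simp only [Pi.smul_apply, smul_eq_mul]
  rw [Ric_K, tr_rr hn]
  field_simp
  ring

lemma Ric_Wp (hn : 4 ≤ n) (R : Tensor4 n) : Ric (Wp R) = 0 := by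
  unfold Wp
  rw [Ric_add, Ric_smul, Ric_S0 hn, neg_smul, one_smul]
  show rr R + -rr R = 0
  abel

lemma Ric_decomp (hn : 4 ≤ n) (R : Tensor4 n) : Ric R = (al R * ((n : ℝ) - 1)) • dl + rr R := by
  conv_lhs => rw [decomp R]
  rw [Ric_add, Ric_add, Ric_smul, Ric_id', Ric_S0 hn, Ric_Wp hn, smul_smul, add_zero]

lemma ip_S0_id (hn : 4 ≤ n) {R : Tensor4 n} (h : R ∈ curvSubmodule n) :
    ip (S0 R) (idTensor n) = 0 := by
  rw [ip_id (S0_mem h), Ric_S0 hn, tr_rr hn, mul_zero]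

lemma ip_Wp_id (hn : 4 ≤ n) {R : Tensor4 n} (h : R ∈ curvSubmodule n) :
    ip (Wp R) (idTensor n) = 0 := by
  rw [ip_id (Wp_mem h), Ric_Wp hn]; simp

lemma ip_Wp_K (hn : 4 ≤ n) {R : Tensor4 n} (h : R ∈ curvSubmodule n) (u : Fin n → Fin n → ℝ) :
    ip (Wp R) (K u) = 0 := by
  rw [ip_K (Wp_mem h), Ric_Wp hn]; simp [ip2]

lemma ip_Wp_S0 (hn : 4 ≤ n) {R : Tensor4 n} (h : R ∈ curvSubmodule n) (R' : Tensor4 n) :
    ip (Wp R) (S0 R') = 0 := by
  unfold S0; rw [ip_smul_right, ip_Wp_K hn h, mul_zero]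

lemma ip_S0_S0 (hn : 4 ≤ n) {R : Tensor4 n} (h : R ∈ curvSubmodule n) (R' : Tensor4 n) :
    ip (S0 R) (S0 R') = (4 / ((n : ℝ) - 2)) * ip2 (rr R) (rr R') := by
  conv_lhs => rw [S0.eq_1 R']
  rw [ip_smul_right, ip_K (S0_mem h), Ric_S0 hn]; ring

/-- `S0 R ⟂` everything but the `S0`-part -/
lemma ip_S0_eq (hn : 4 ≤ n) {R R' : Tensor4 n} (h : R ∈ curvSubmodule n)
    (h' : R' ∈ curvSubmodule n) : ip (S0 R) (S0 R') = ip (S0 R) R' := by
  conv_rhs => rw [decomp R']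
  rw [ip_add_right, ip_add_right, ip_smul_right, ip_S0_id hn h, ip_comm (S0 R) (Wp R'),
    ip_Wp_S0 hn h']
  ring

lemma ip_Wp_eq (hn : 4 ≤ n) {R : Tensor4 n} (h : R ∈ curvSubmodule n) (R' : Tensor4 n) :
    ip (Wp R) (Wp R') = ip (Wp R) R' := by
  conv_rhs => rw [decomp R']
  rw [ip_add_right, ip_add_right, ip_smul_right, ip_Wp_id hn h, ip_Wp_S0 hn h]
  ring

/-! ### the cubic terms -/

lemma T3_id_S0 (hn : 4 ≤ n) {R X : Tensor4 n} (h : R ∈ curvSubmodule n) (hX : X ∈ curvSubmodule n) :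
    T3 X (S0 R) (idTensor n) = 2 * ip2 (Ric X) (rr R) := by
  rw [T3_id hX (S0_mem h), Ric_S0 hn]

lemma ip2_dl_left (u : Fin n → Fin n → ℝ) : ip2 dl u = ∑ i, u i i := by
  rw [ip2_comm, ip2_dl]

lemma T3_W_W_K (hn : 4 ≤ n) {R : Tensor4 n} (h : R ∈ curvSubmodule n) {u : Fin n → Fin n → ℝ}
    (hu : ∀ i j, u j i = u i j) : T3 (Wp R) (Wp R) (K u) = 0 := by
  rw [T3_K_diag (Wp_mem h) hu, Ric_Wp hn]
  unfold form; simp

/-- `⟨S0, Q⟩` -/
lemma ip_S0_Q (hn : 4 ≤ n) {R : Tensor4 n} (h : R ∈ curvSubmodule n) :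
    ip (S0 R) (sq R + sharp R) = 4 * al R * ip2 (rr R) (rr R) + T3 (S0 R) (S0 R) (S0 R) +
      2 * T3 (S0 R) (S0 R) (Wp R) := by
  have hS := S0_mem h
  have hW := Wp_mem h
  have hI := idTensor_mem n
  rw [ip_comm, ip_Q h hS]
  have e1 : T3 R R (S0 R) = T3 (al R • idTensor n + S0 R + Wp R) (al R • idTensor n + S0 R + Wp R)
      (S0 R) := by
    conv_lhs => rw [T3_swap23 h h hS]
    conv_lhs => rw [decomp R]
    rw [← decomp R]
    rw [T3_swap23 h hS h]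
  rw [e1]
  simp only [T3_add_left, T3_add_mid, T3_smul_left, T3_smul_mid]
  -- T3 Id Id S0
  have a1 : T3 (idTensor n) (idTensor n) (S0 R) = 0 := by
    rw [T3_swap23 hI hI hS, T3_id_S0 hn h hI, Ric_id', ip2_smul_left, ip2_dl_left, tr_rr hn]; ring
  have a2 : T3 (idTensor n) (S0 R) (S0 R) = 2 * ip2 (rr R) (rr R) := by
    rw [T3_cycle, T3_id_S0 hn h hS, Ric_S0 hn]
  have a3 : T3 (S0 R) (idTensor n) (S0 R) = 2 * ip2 (rr R) (rr R) := by
    rw [T3_swap12 hS hI hS, a2]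
  have a4 : T3 (idTensor n) (Wp R) (S0 R) = 0 := by
    rw [T3_cycle, T3_id_S0 hn h hW, Ric_Wp hn]; simp [ip2]
  have a5 : T3 (Wp R) (idTensor n) (S0 R) = 0 := by
    rw [T3_swap12 hW hI hS, a4]
  have a6 : T3 (Wp R) (Wp R) (S0 R) = 0 := by
    conv_lhs => rw [S0.eq_1 R]
    rw [T3_smul_right, T3_W_W_K hn h (rr_symm h), mul_zero]
  have a7 : T3 (Wp R) (S0 R) (S0 R) = T3 (S0 R) (S0 R) (Wp R) := T3_cycle _ _ _
  have a8 : T3 (S0 R) (Wp R) (S0 R) = T3 (S0 R) (S0 R) (Wp R) := T3_swap23 hS hW hS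
  rw [a1, a2, a3, a4, a5, a6, a7, a8]; ring

/-- `⟨W, Q⟩` -/
lemma ip_Wp_Q (hn : 4 ≤ n) {R : Tensor4 n} (h : R ∈ curvSubmodule n) :
    ip (Wp R) (sq R + sharp R) = T3 (S0 R) (S0 R) (Wp R) + T3 (Wp R) (Wp R) (Wp R) := by
  have hS := S0_mem h
  have hW := Wp_mem h
  have hI := idTensor_mem n
  rw [ip_comm, ip_Q h hW]
  have e1 : T3 R R (Wp R) = T3 (al R • idTensor n + S0 R + Wp R) (al R • idTensor n + S0 R + Wp R)
      (Wp R) := by
    rw [← decomp R]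
  rw [e1]
  simp only [T3_add_left, T3_add_mid, T3_smul_left, T3_smul_mid]
  have b0 : ∀ X, X ∈ curvSubmodule n → T3 X (Wp R) (idTensor n) = 0 := by
    intro X hX
    rw [T3_id hX hW, Ric_Wp hn]; simp [ip2]
  have a1 : T3 (idTensor n) (idTensor n) (Wp R) = 0 := by
    rw [T3_swap23 hI hI hW, b0 _ hI]
  have a2 : T3 (idTensor n) (S0 R) (Wp R) = 0 := by
    rw [T3_cycle, b0 _ hS]
  have a3 : T3 (S0 R) (idTensor n) (Wp R) = 0 := by
    rw [T3_swap12 hS hI hW, a2]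
  have a4 : T3 (idTensor n) (Wp R) (Wp R) = 0 := by
    rw [T3_cycle, b0 _ hW]
  have a5 : T3 (Wp R) (idTensor n) (Wp R) = 0 := by
    rw [T3_swap12 hW hI hW, a4]
  have a6 : T3 (S0 R) (Wp R) (Wp R) = 0 := by
    rw [T3_cycle]
    conv_lhs => rw [S0.eq_1 R]
    rw [T3_smul_right, T3_W_W_K hn h (rr_symm h), mul_zero]
  have a7 : T3 (Wp R) (S0 R) (Wp R) = 0 := by
    rw [T3_swap12 hW hS hW, a6]
  rw [a1, a2, a3, a4, a5, a6, a7]; ring

/-- the trace of `Q` -/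
lemma al_Q (hn : 4 ≤ n) {R : Tensor4 n} (h : R ∈ curvSubmodule n) :
    al (sq R + sharp R) = ((n : ℝ) - 1) * (al R) ^ 2 + ip2 (rr R) (rr R) / (n * (n - 1)) := by
  have h4 : (4 : ℝ) ≤ n := by exact_mod_cast hn
  have h1 : (n : ℝ) - 1 ≠ 0 := by linarith
  have h2 : (n : ℝ) ≠ 0 := by linarith
  have e1 : ∑ i, Ric (sq R + sharp R) i i = ip2 (Ric R) (Ric R) := by
    have e2 := ip_id (Q_mem h)
    rw [ip_Q h (idTensor_mem n), T3_id h h] at e2
    linarith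
  have e3 : ip2 (Ric R) (Ric R) = (al R * ((n : ℝ) - 1)) ^ 2 * n + ip2 (rr R) (rr R) := by
    have e4 : ip2 dl (rr R) = 0 := by rw [ip2_dl_left, tr_rr hn]
    have e5 : ip2 (rr R) dl = 0 := by rw [ip2_dl, tr_rr hn]
    have e6 : ip2 (n := n) dl dl = n := by rw [ip2_dl, sum_dl_diag]
    rw [Ric_decomp hn R]
    rw [ip2_add_left, ip2_add_right, ip2_add_right, ip2_smul_left, ip2_smul_left, ip2_smul_right,
      ip2_smul_right, e4, e5, e6]
    ring
  unfold al at *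
  rw [e1, e3]
  field_simp

end Pool.Agent.RicciCone
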