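import Mathlib
import Pool.Agent.MP_952e48_gt.Decomp

set_option autoImplicit false

/-!
# Orthogonal invariance of the quadratic data
-/

namespace Pool.Agent.RicciCone

open Finset

variable {n : ℕ}

lemma sum_comm4 (f : Fin n → Fin n → Fin n → Fin n → ℝ) :
    ∑ i, ∑ j, ∑ k, ∑ l, f i j k l = ∑ j, ∑ k, ∑ l, ∑ i, f i j k l := by
  rw [Finset.sum_comm]
  apply Finset.sum_congr rfl; intro j _
  rw [Finset.sum_comm]
  apply Finset.sum_congr rfl; intro k _
  exact Finset.sum_comm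

lemma orth_delta {g : Matrix (Fin n) (Fin n) ℝ} (hg : g ∈ Matrix.orthogonalGroup (Fin n) ℝ)
    (p q : Fin n) : ∑ i, g p i * g q i = dl p q := by
  have h1 := (Matrix.mem_orthogonalGroup_iff (Fin n) ℝ).mp hg
  have h2 := congrFun (congrFun h1 p) q
  rw [Matrix.mul_apply, Matrix.one_apply] at h2
  unfold dl
  rw [← h2]
  apply Finset.sum_congr rfl; intro i _
  rfl

lemma orth_sum {g : Matrix (Fin n) (Fin n) ℝ} (hg : g ∈ Matrix.orthogonalGroup (Fin n) ℝ)
    (v w : Fin n → ℝ) : ∑ i, (∑ p, g p i * v p) * (∑ p, g p i * w p) = ∑ p, v p * w p := by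
  have e1 : ∀ i, (∑ p, g p i * v p) * (∑ p, g p i * w p) =
      ∑ p, ∑ q, (v p * w q) * (g p i * g q i) := by
    intro i
    rw [Finset.sum_mul_sum]
    apply Finset.sum_congr rfl; intro p _
    apply Finset.sum_congr rfl; intro q _
    ring
  simp only [e1]
  rw [Finset.sum_comm]
  apply Finset.sum_congr rfl; intro p _
  rw [Finset.sum_comm]
  simp only [← Finset.mul_sum, orth_delta hg]
  have : ∀ q, v p * w q * dl p q = (v p * w q) * dl q p := fun q => by rw [dl_comm p q]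
  simp only [this]
  exact sum_dl' (fun q => v p * w q) p

lemma act_iter (g : Matrix (Fin n) (Fin n) ℝ) (X : Tensor4 n) (i j k l : Fin n) :
    actTensor g X i j k l =
      ∑ p, g p i * ∑ q, g q j * ∑ r, g r k * ∑ s, g s l * X p q r s := by
  unfold actTensor
  simp only [Finset.mul_sum]
  apply Finset.sum_congr rfl; intro p _
  apply Finset.sum_congr rfl; intro q _
  apply Finset.sum_congr rfl; intro r _
  apply Finset.sum_congr rfl; intro s _
  ring

lemma ip_act {g : Matrix (Fin n) (Fin n) ℝ} (hg : g ∈ Matrix.orthogonalGroup (Fin n) ℝ)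
    (X Y : Tensor4 n) : ip (actTensor g X) (actTensor g Y) = ip X Y := by
  unfold ip
  simp only [act_iter]
  rw [sum_comm4]
  simp only [orth_sum hg]
  rw [sum_comm4]
  rw [sum_comm4]
  rw [sum_comm4]
  -- now ∑ p, ∑ j, ∑ k, ∑ l
  apply Finset.sum_congr rfl; intro p _
  have e2 : ∀ (F G : Fin n → Fin n → Fin n → ℝ),
      ∑ j, ∑ k, ∑ l, (∑ q, g q j * F q k l) * (∑ q, g q j * G q k l) =
        ∑ q, ∑ k, ∑ l, F q k l * G q k l := by
    intro F G
    have a1 : ∑ j, ∑ k, ∑ l, (∑ q, g q j * F q k l) * (∑ q, g q j * G q k l) =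
        ∑ k, ∑ l, ∑ j, (∑ q, g q j * F q k l) * (∑ q, g q j * G q k l) := by
      rw [Finset.sum_comm]
      apply Finset.sum_congr rfl; intro k _
      exact Finset.sum_comm
    rw [a1]
    simp only [orth_sum hg]
    have a2 : ∑ k, ∑ l, ∑ q, F q k l * G q k l = ∑ q, ∑ k, ∑ l, F q k l * G q k l := by
      have : ∀ k, ∑ l, ∑ q, F q k l * G q k l = ∑ q, ∑ l, F q k l * G q k l :=
        fun k => Finset.sum_comm
      simp only [this]
      exact Finset.sum_comm
    exact a2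
  rw [e2]
  apply Finset.sum_congr rfl; intro q _
  have e3 : ∀ (F G : Fin n → Fin n → ℝ),
      ∑ k, ∑ l, (∑ q, g q k * F q l) * (∑ q, g q k * G q l) =
        ∑ q, ∑ l, F q l * G q l := by
    intro F G
    rw [Finset.sum_comm]
    simp only [orth_sum hg]
    exact Finset.sum_comm
  rw [e3]
  apply Finset.sum_congr rfl; intro r _
  rw [orth_sum hg]

lemma Ric_act {g : Matrix (Fin n) (Fin n) ℝ} (hg : g ∈ Matrix.orthogonalGroup (Fin n) ℝ)
    (X : Tensor4 n) (i k : Fin n) :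
    Ric (actTensor g X) i k = ∑ p, g p i * ∑ r, g r k * Ric X p r := by
  unfold Ric
  have e1 : ∀ j, actTensor g X i j k j =
      ∑ p, g p i * ∑ r, g r k * ∑ q, ∑ s, X p q r s * (g q j * g s j) := by
    intro j
    unfold actTensor
    simp only [Finset.mul_sum]
    apply Finset.sum_congr rfl; intro p _
    rw [Finset.sum_comm]
    apply Finset.sum_congr rfl; intro r _
    apply Finset.sum_congr rfl; intro q _
    apply Finset.sum_congr rfl; intro s _
    ring
  simp only [e1]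
  rw [Finset.sum_comm]
  apply Finset.sum_congr rfl; intro p _
  rw [← Finset.mul_sum]
  congr 1
  rw [Finset.sum_comm]
  apply Finset.sum_congr rfl; intro r _
  rw [← Finset.mul_sum]
  congr 1
  rw [Finset.sum_comm]
  apply Finset.sum_congr rfl; intro q _
  rw [Finset.sum_comm]
  simp only [← Finset.mul_sum, orth_delta hg]
  have : ∀ s, X p q r s * dl q s = X p q r s * dl s q := fun s => by rw [dl_comm q s]
  simp only [this]
  exact sum_dl' (fun s => X p q r s) q

lemma trRic_act {g : Matrix (Fin n) (Fin n) ℝ} (hg : g ∈ Matrix.orthogonalGroup (Fin n) ℝ)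
    (X : Tensor4 n) : ∑ i, Ric (actTensor g X) i i = ∑ i, Ric X i i := by
  have e1 : ∀ i, Ric (actTensor g X) i i = ∑ p, ∑ r, Ric X p r * (g p i * g r i) := by
    intro i
    rw [Ric_act hg]
    simp only [Finset.mul_sum]
    apply Finset.sum_congr rfl; intro p _
    apply Finset.sum_congr rfl; intro r _
    ring
  simp only [e1]
  rw [Finset.sum_comm]
  apply Finset.sum_congr rfl; intro p _
  rw [Finset.sum_comm]
  simp only [← Finset.mul_sum, orth_delta hg]
  have : ∀ s, Ric X p s * dl p s = Ric X p s * dl s p := fun s => by rw [dl_comm p s]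
  simp only [this]
  exact sum_dl' (fun s => Ric X p s) p

lemma ip2_Ric_act {g : Matrix (Fin n) (Fin n) ℝ} (hg : g ∈ Matrix.orthogonalGroup (Fin n) ℝ)
    (X : Tensor4 n) : ip2 (Ric (actTensor g X)) (Ric (actTensor g X)) = ip2 (Ric X) (Ric X) := by
  unfold ip2
  simp only [Ric_act hg]
  rw [Finset.sum_comm]
  simp only [orth_sum hg]
  rw [Finset.sum_comm]
  apply Finset.sum_congr rfl; intro p _
  rw [orth_sum hg]

lemma al_act {g : Matrix (Fin n) (Fin n) ℝ} (hg : g ∈ Matrix.orthogonalGroup (Fin n) ℝ)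
    (X : Tensor4 n) : al (actTensor g X) = al X := by
  unfold al; rw [trRic_act hg]

lemma ip2_Ric_eq (hn : 4 ≤ n) (R : Tensor4 n) :
    ip2 (Ric R) (Ric R) = (al R * ((n : ℝ) - 1)) ^ 2 * n + ip2 (rr R) (rr R) := by
  have e4 : ip2 dl (rr R) = 0 := by rw [ip2_dl_left, tr_rr hn]
  have e5 : ip2 (rr R) dl = 0 := by rw [ip2_dl, tr_rr hn]
  have e6 : ip2 (n := n) dl dl = n := by rw [ip2_dl, sum_dl_diag]
  rw [Ric_decomp hn R]
  rw [ip2_add_left, ip2_add_right, ip2_add_right, ip2_smul_left, ip2_smul_left, ip2_smul_right,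
    ip2_smul_right, e4, e5, e6]
  ring

lemma ip2_rr_act (hn : 4 ≤ n) {g : Matrix (Fin n) (Fin n) ℝ}
    (hg : g ∈ Matrix.orthogonalGroup (Fin n) ℝ) (R : Tensor4 n) :
    ip2 (rr (actTensor g R)) (rr (actTensor g R)) = ip2 (rr R) (rr R) := by
  have h1 := ip2_Ric_eq hn R
  have h2 := ip2_Ric_eq hn (actTensor g R)
  rw [al_act hg, ip2_Ric_act hg] at h2
  linarith

lemma ip_self_decomp (hn : 4 ≤ n) {R : Tensor4 n} (h : R ∈ curvSubmodule n) :
    ip R R = al R ^ 2 * ip (idTensor n) (idTensor n) + ip (S0 R) (S0 R) + ip (Wp R) (Wp R) := by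
  have e1 : ip (idTensor n) (S0 R) = 0 := by rw [ip_comm, ip_S0_id hn h]
  have e2 : ip (idTensor n) (Wp R) = 0 := by rw [ip_comm, ip_Wp_id hn h]
  have e3 : ip (S0 R) (Wp R) = 0 := by rw [ip_comm, ip_Wp_S0 hn h]
  conv_lhs => rw [decomp R]
  simp only [ip_add_left, ip_add_right, ip_smul_left, ip_smul_right, e1, e2, e3,
    ip_S0_id hn h, ip_Wp_id hn h, ip_Wp_S0 hn h]
  ring

lemma ip_S0_act (hn : 4 ≤ n) {g : Matrix (Fin n) (Fin n) ℝ}
    (hg : g ∈ Matrix.orthogonalGroup (Fin n) ℝ) {R : Tensor4 n} (h : R ∈ curvSubmodule n) :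
    ip (S0 (actTensor g R)) (S0 (actTensor g R)) = ip (S0 R) (S0 R) := by
  rw [ip_S0_S0 hn (actTensor_mem g h), ip_S0_S0 hn h, ip2_rr_act hn hg]

lemma ip_Wp_act (hn : 4 ≤ n) {g : Matrix (Fin n) (Fin n) ℝ}
    (hg : g ∈ Matrix.orthogonalGroup (Fin n) ℝ) {R : Tensor4 n} (h : R ∈ curvSubmodule n) :
    ip (Wp (actTensor g R)) (Wp (actTensor g R)) = ip (Wp R) (Wp R) := by
  have h1 := ip_self_decomp hn h
  have h2 := ip_self_decomp hn (actTensor_mem g h)
  rw [al_act hg, ip_S0_act hn hg h, ip_act hg] at h2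
  linarith

end Pool.Agent.RicciCone
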