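import Mathlib

set_option autoImplicit false

/-!
# Scalar inequality behind the key inequality
-/

namespace Pool.Agent.RicciCone

lemma key_scalar {n g ε X Y a s cub : ℝ} (hn : 4 ≤ n) (hg : 0 ≤ g) (hε : 0 < ε) (hε1 : ε ≤ 1 - g)
    (hX : 0 ≤ X) (hY : 0 ≤ Y) (hs : 0 ≤ s) (hs2 : s ^ 2 = X + Y) (ha : 0 < a)
    (hρ : s ≤ (1 + ε / (2 * n)) * a)
    (hc : cub ≤ s * ((1 - ε) * (X + Y) + g * X + (n - 2) * Y)) :
    a * (a * (n - 2) * X + cub) ≤
      (1 - ε / (2 * (n + 4))) * (X + Y) * ((n - 1) * a ^ 2 + g * X) := by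
  set η := ε / (2 * (n + 4)) with hη
  have hYs : Y = s ^ 2 - X := by linarith
  have hXs : X ≤ s ^ 2 := by linarith
  have hη0 : 0 < η := by positivity
  have hηn : η * (2 * (n + 4)) = ε := by rw [hη]; field_simp
  have h1 : a * (a * (n - 2) * X + cub) ≤
      a * (a * (n - 2) * X + s * ((1 - ε) * (X + Y) + g * X + (n - 2) * Y)) :=
    mul_le_mul_of_nonneg_left (by linarith) ha.le
  refine h1.trans ?_
  have h2 : (1 - η) * (X + Y) * ((n - 1) * a ^ 2 + g * X) -
      a * (a * (n - 2) * X + s * ((1 - ε) * (X + Y) + g * X + (n - 2) * Y)) =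
      (a - s) * (a * ((n - 1) * s ^ 2 - (n - 2) * X) - g * X * s) + ε * a * s ^ 3 -
        η * s ^ 2 * ((n - 1) * a ^ 2 + g * X) := by
    rw [hYs]; ring
  have h3 : 0 ≤ (a - s) * (a * ((n - 1) * s ^ 2 - (n - 2) * X) - g * X * s) + ε * a * s ^ 3 -
        η * s ^ 2 * ((n - 1) * a ^ 2 + g * X) := by
    have hg1 : g ≤ 1 := by linarith
    have hs20 : 0 ≤ s ^ 2 := sq_nonneg s
    rcases le_or_gt s a with hsa | hsa
    · have b1 : s ^ 2 ≤ (n - 1) * s ^ 2 - (n - 2) * X := by
        nlinarith [mul_nonneg (show (0 : ℝ) ≤ n - 2 by linarith) (sub_nonneg.mpr hXs)]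
      have b2 : g * X * s ≤ g * s ^ 2 * a := by
        have : g * X ≤ g * s ^ 2 := mul_le_mul_of_nonneg_left hXs hg
        exact mul_le_mul this hsa hs (by positivity)
      have b3 : a * s ^ 2 * ε ≤ a * ((n - 1) * s ^ 2 - (n - 2) * X) - g * X * s := by
        have b4 : a * s ^ 2 ≤ a * ((n - 1) * s ^ 2 - (n - 2) * X) :=
          mul_le_mul_of_nonneg_left b1 ha.le
        have b5 : a * s ^ 2 * ε ≤ a * s ^ 2 * (1 - g) := mul_le_mul_of_nonneg_left hε1 (by positivity)
        nlinarith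
      have b6 := mul_le_mul_of_nonneg_left b3 (sub_nonneg.mpr hsa)
      have b7 : η * s ^ 2 * ((n - 1) * a ^ 2 + g * X) ≤ ε * a ^ 2 * s ^ 2 := by
        have c1 : g * X ≤ a ^ 2 := by
          have : X ≤ a ^ 2 := hXs.trans (pow_le_pow_left₀ hs hsa 2)
          calc g * X ≤ 1 * X := mul_le_mul_of_nonneg_right hg1 hX
            _ ≤ a ^ 2 := by linarith
        have c2 : (n - 1) * a ^ 2 + g * X ≤ (2 * (n + 4)) * a ^ 2 := by
          have : 0 ≤ a ^ 2 := sq_nonneg a
          nlinarith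
        calc η * s ^ 2 * ((n - 1) * a ^ 2 + g * X) ≤ η * s ^ 2 * ((2 * (n + 4)) * a ^ 2) :=
              mul_le_mul_of_nonneg_left c2 (by positivity)
          _ = (η * (2 * (n + 4))) * a ^ 2 * s ^ 2 := by ring
          _ = ε * a ^ 2 * s ^ 2 := by rw [hηn]
      nlinarith
    · have b1 : a * ((n - 1) * s ^ 2 - (n - 2) * X) - g * X * s ≤ a * (n - 1) * s ^ 2 := by
        have c1 : 0 ≤ a * ((n - 2) * X) := by
          have : (0 : ℝ) ≤ n - 2 := by linarith
          positivity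
        have c2 : 0 ≤ g * X * s := by positivity
        nlinarith
      have b2 := mul_le_mul_of_nonneg_left b1 (show 0 ≤ s - a by linarith)
      have b3 : s - a ≤ (ε / (2 * n)) * a := by linarith
      have b4 : (s - a) * (a * (n - 1) * s ^ 2) ≤ (ε / 2) * a ^ 2 * s ^ 2 := by
        have c1 : (0 : ℝ) ≤ a * (n - 1) * s ^ 2 := by
          have : (0 : ℝ) ≤ n - 1 := by linarith
          positivity
        calc (s - a) * (a * (n - 1) * s ^ 2) ≤ (ε / (2 * n) * a) * (a * (n - 1) * s ^ 2) :=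
              mul_le_mul_of_nonneg_right b3 c1
          _ ≤ (ε / (2 * n) * a) * (a * n * s ^ 2) := by
              apply mul_le_mul_of_nonneg_left _ (by positivity)
              apply mul_le_mul_of_nonneg_right _ hs20
              apply mul_le_mul_of_nonneg_left _ ha.le
              linarith
          _ = (ε / 2) * a ^ 2 * s ^ 2 := by field_simp
      have b5 : a ^ 2 * s ^ 2 ≤ a * s ^ 3 := by
        have : a * s ^ 2 * a ≤ a * s ^ 2 * s := mul_le_mul_of_nonneg_left hsa.le (by positivity)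
        nlinarith
      have b6 : η * s ^ 2 * ((n - 1) * a ^ 2 + g * X) ≤ (ε / 2) * a ^ 2 * s ^ 2 := by
        have c0 : (1 + ε / (2 * n)) ≤ 2 := by
          have : ε / (2 * n) ≤ 1 := by
            rw [div_le_one (by linarith)]; linarith
          linarith
        have c3 : s ≤ 2 * a := hρ.trans (mul_le_mul_of_nonneg_right c0 ha.le)
        have c1 : g * X ≤ 4 * a ^ 2 := by
          have : X ≤ (2 * a) ^ 2 := hXs.trans (pow_le_pow_left₀ hs c3 2)
          calc g * X ≤ 1 * X := mul_le_mul_of_nonneg_right hg1 hX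
            _ ≤ 4 * a ^ 2 := by linarith
        have c2 : (n - 1) * a ^ 2 + g * X ≤ (n + 4) * a ^ 2 := by
          have : 0 ≤ a ^ 2 := sq_nonneg a
          nlinarith
        calc η * s ^ 2 * ((n - 1) * a ^ 2 + g * X) ≤ η * s ^ 2 * ((n + 4) * a ^ 2) :=
              mul_le_mul_of_nonneg_left c2 (by positivity)
          _ = (η * (2 * (n + 4))) / 2 * a ^ 2 * s ^ 2 := by ring
          _ = (ε / 2) * a ^ 2 * s ^ 2 := by rw [hηn]
      nlinarith
  linarith

end Pool.Agent.RicciCone
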