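import Mathlib
import Pool.Agent.MP_952e48_gt.Invar
import Pool.Agent.MP_952e48_gt.Scalar

set_option autoImplicit false

/-!
# The cones `κ₁² |S₀|² + κ₂² |W|² ≤ a²`, and when they are pinching cones
-/

namespace Pool.Agent.RicciCone

open Finset

variable {n : ℕ}

/-- the linear functional `a` -/
noncomputable def alphaLin (n : ℕ) : Curv n →ₗ[ℝ] ℝ where
  toFun R := al (R : Tensor4 n)
  map_add' R R' := by rw [Submodule.coe_add, al_add]
  map_smul' c R := by rw [Submodule.coe_smul, al_smul]; rfl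

/-- the linear functional `a` -/
noncomputable def alphaC (n : ℕ) : Curv n →L[ℝ] ℝ := LinearMap.toContinuousLinearMap (alphaLin n)

lemma alphaC_apply (R : Curv n) : alphaC n R = al (R : Tensor4 n) := rfl

/-- the space of values -/
abbrev HH (n : ℕ) := EuclideanSpace ℝ (Fin n × Fin n × Fin n × Fin n)

/-- the linear map `κ₁ S₀ + κ₂ W` -/
noncomputable def phiLin (n : ℕ) (κ₁ κ₂ : ℝ) : Curv n →ₗ[ℝ] HH n where
  toFun R := WithLp.toLp 2 (fun a : Fin n × Fin n × Fin n × Fin n =>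
    κ₁ * S0 (R : Tensor4 n) a.1 a.2.1 a.2.2.1 a.2.2.2 +
      κ₂ * Wp (R : Tensor4 n) a.1 a.2.1 a.2.2.1 a.2.2.2)
  map_add' R R' := by
    rw [← WithLp.toLp_add]
    congr 1
    funext a
    rw [Submodule.coe_add, S0_add, Wp_add]
    simp only [Pi.add_apply]
    ring
  map_smul' c R := by
    rw [RingHom.id_apply, ← WithLp.toLp_smul]
    congr 1
    funext a
    rw [Submodule.coe_smul, S0_smul, Wp_smul]
    simp only [Pi.smul_apply, smul_eq_mul]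
    ring

/-- the linear map `κ₁ S₀ + κ₂ W` -/
noncomputable def phiC (n : ℕ) (κ₁ κ₂ : ℝ) : Curv n →L[ℝ] HH n :=
  LinearMap.toContinuousLinearMap (phiLin n κ₁ κ₂)

lemma phiC_apply (κ₁ κ₂ : ℝ) (R : Curv n) (a : Fin n × Fin n × Fin n × Fin n) :
    phiC n κ₁ κ₂ R a = κ₁ * S0 (R : Tensor4 n) a.1 a.2.1 a.2.2.1 a.2.2.2 +
      κ₂ * Wp (R : Tensor4 n) a.1 a.2.1 a.2.2.1 a.2.2.2 := rfl

lemma phiC_inner_raw (κ₁ κ₂ : ℝ) (R R' : Curv n) :
    inner ℝ (phiC n κ₁ κ₂ R) (phiC n κ₁ κ₂ R') =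
      ip (κ₁ • S0 (R : Tensor4 n) + κ₂ • Wp (R : Tensor4 n))
        (κ₁ • S0 (R' : Tensor4 n) + κ₂ • Wp (R' : Tensor4 n)) := by
  rw [PiLp.inner_apply]
  unfold ip
  simp only [Fintype.sum_prod_type, phiC_apply]
  apply Finset.sum_congr rfl; intro i _
  apply Finset.sum_congr rfl; intro j _
  apply Finset.sum_congr rfl; intro k _
  apply Finset.sum_congr rfl; intro l _
  simp only [Pi.add_apply, Pi.smul_apply, smul_eq_mul]
  simp [inner, mul_comm]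

lemma phiC_inner (hn : 4 ≤ n) (κ₁ κ₂ : ℝ) (R R' : Curv n) :
    inner ℝ (phiC n κ₁ κ₂ R) (phiC n κ₁ κ₂ R') =
      κ₁ ^ 2 * ip (S0 (R : Tensor4 n)) (S0 (R' : Tensor4 n)) +
        κ₂ ^ 2 * ip (Wp (R : Tensor4 n)) (Wp (R' : Tensor4 n)) := by
  rw [phiC_inner_raw]
  simp only [ip_add_left, ip_add_right, ip_smul_left, ip_smul_right]
  rw [ip_Wp_S0 hn R.2, ip_comm (S0 (R : Tensor4 n)) (Wp (R' : Tensor4 n)), ip_Wp_S0 hn R'.2]
  ring

lemma phiC_norm_sq (hn : 4 ≤ n) (κ₁ κ₂ : ℝ) (R : Curv n) :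
    ‖phiC n κ₁ κ₂ R‖ ^ 2 =
      κ₁ ^ 2 * ip (S0 (R : Tensor4 n)) (S0 (R : Tensor4 n)) +
        κ₂ ^ 2 * ip (Wp (R : Tensor4 n)) (Wp (R : Tensor4 n)) := by
  rw [← real_inner_self_eq_norm_sq, phiC_inner hn]

lemma ip_self_eq_zero {X : Tensor4 n} (h : ip X X = 0) : X = 0 := by
  unfold ip at h
  funext i j k l
  have h1 := (Finset.sum_eq_zero_iff_of_nonneg (fun i _ => Finset.sum_nonneg fun j _ =>
    Finset.sum_nonneg fun k _ => Finset.sum_nonneg fun l _ => mul_self_nonneg (X i j k l))).mp h i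
    (Finset.mem_univ i)
  have h2 := (Finset.sum_eq_zero_iff_of_nonneg (fun j _ =>
    Finset.sum_nonneg fun k _ => Finset.sum_nonneg fun l _ => mul_self_nonneg (X i j k l))).mp h1 j
    (Finset.mem_univ j)
  have h3 := (Finset.sum_eq_zero_iff_of_nonneg (fun k _ =>
    Finset.sum_nonneg fun l _ => mul_self_nonneg (X i j k l))).mp h2 k (Finset.mem_univ k)
  have h4 := (Finset.sum_eq_zero_iff_of_nonneg (fun l _ =>
    mul_self_nonneg (X i j k l))).mp h3 l (Finset.mem_univ l)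
  exact mul_self_eq_zero.mp h4

lemma ricciQ_zero : ricciQ (0 : Curv n) = 0 := by
  apply Subtype.ext
  funext i j k l
  rw [ricciQ_apply]
  simp [Bt]

lemma S0_id (hn : 4 ≤ n) : S0 (idTensor n) = 0 := by
  unfold S0 rr Sp
  rw [al_id hn, neg_smul, one_smul, add_neg_cancel]
  have : K (Ric (0 : Tensor4 n)) = 0 := by
    funext i j k l; simp [K, Ric]
  rw [this, smul_zero]

lemma Wp_id (hn : 4 ≤ n) : Wp (idTensor n) = 0 := by
  unfold Wp
  rw [S0_id hn]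
  unfold Sp
  rw [al_id hn]; simp

/-- The cubic terms of `⟨Φ R, Φ Q(R)⟩` -/
noncomputable def cubic (κ₁ κ₂ : ℝ) (R : Tensor4 n) : ℝ :=
  κ₁ ^ 2 * (T3 (S0 R) (S0 R) (S0 R) + 2 * T3 (S0 R) (S0 R) (Wp R)) +
    κ₂ ^ 2 * (T3 (S0 R) (S0 R) (Wp R) + T3 (Wp R) (Wp R) (Wp R))

lemma inner_Q (hn : 4 ≤ n) (κ₁ κ₂ : ℝ) (R : Curv n) :
    inner ℝ (phiC n κ₁ κ₂ R) (phiC n κ₁ κ₂ (ricciQ R)) =
      κ₁ ^ 2 * (4 * al (R : Tensor4 n) * ip2 (rr (R : Tensor4 n)) (rr (R : Tensor4 n))) +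
        cubic κ₁ κ₂ (R : Tensor4 n) := by
  rw [phiC_inner hn]
  have e1 : ip (S0 (R : Tensor4 n)) (S0 (ricciQ R : Tensor4 n)) =
      ip (S0 (R : Tensor4 n)) (sq (R : Tensor4 n) + sharp (R : Tensor4 n)) :=
    ip_S0_eq hn R.2 (ricciQ R).2
  have e2 : ip (Wp (R : Tensor4 n)) (Wp (ricciQ R : Tensor4 n)) =
      ip (Wp (R : Tensor4 n)) (sq (R : Tensor4 n) + sharp (R : Tensor4 n)) :=
    ip_Wp_eq hn R.2 _
  rw [e1, e2, ip_S0_Q hn R.2, ip_Wp_Q hn R.2]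
  unfold cubic; ring

/-- The quantity `g`. -/
noncomputable def gq (n : ℕ) (κ₁ : ℝ) : ℝ := ((n : ℝ) - 2) / (4 * κ₁ ^ 2 * n * (n - 1))

lemma exists_pinchData (hn : 4 ≤ n) {κ₁ κ₂ ε : ℝ} (hκ₁ : 0 < κ₁) (hκ₂ : 0 < κ₂) (hε : 0 < ε)
    (hg : ε ≤ 1 - gq n κ₁)
    (hcub : ∀ R ∈ curvSubmodule n, ∀ X Y : ℝ, X = κ₁ ^ 2 * ip (S0 R) (S0 R) →
      Y = κ₂ ^ 2 * ip (Wp R) (Wp R) →
      cubic κ₁ κ₂ R ≤ √(X + Y) * ((1 - ε) * (X + Y) + gq n κ₁ * X + ((n : ℝ) - 2) * Y)) :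
    ∃ θ ρ : ℝ, PinchData ricciQ (alphaC n) (phiC n κ₁ κ₂) (idCurv n) θ ρ := by
  have h4 : (4 : ℝ) ≤ n := by exact_mod_cast hn
  have hn1 : (0 : ℝ) < (n : ℝ) - 1 := by linarith
  have hn2 : (0 : ℝ) < (n : ℝ) - 2 := by linarith
  have hn0 : (0 : ℝ) < (n : ℝ) := by linarith
  have hg0 : 0 ≤ gq n κ₁ := by unfold gq; positivity
  have hε1 : ε ≤ 1 := by linarith
  refine ⟨1 - ε / (2 * (n + 4)), (1 + ε / (2 * n)) ^ 2, ?_⟩
  have hαQ : ∀ R : Curv n, alphaC n (ricciQ R) = ((n : ℝ) - 1) * (al (R : Tensor4 n)) ^ 2 +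
      gq n κ₁ * (κ₁ ^ 2 * ip (S0 (R : Tensor4 n)) (S0 (R : Tensor4 n))) := by
    intro R
    rw [alphaC_apply]
    have := al_Q hn R.2
    show al (sq (R : Tensor4 n) + sharp (R : Tensor4 n)) = _
    rw [this, ip_S0_S0 hn R.2]
    unfold gq
    field_simp
  refine ⟨?_, ?_, ?_, ricciQ_zero, ricciQ_contDiff, ?_, ?_, ?_, ?_, ?_⟩
  · exact al_id hn
  · apply PiLp.ext
    intro a
    rw [phiC_apply]
    show κ₁ * S0 (idTensor n) a.1 a.2.1 a.2.2.1 a.2.2.2 +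
      κ₂ * Wp (idTensor n) a.1 a.2.1 a.2.2.1 a.2.2.2 = 0
    rw [S0_id hn, Wp_id hn]; simp
  · intro R h0 hΦ
    have h1 := phiC_norm_sq hn κ₁ κ₂ R
    rw [hΦ, norm_zero] at h1
    have p1 := ip_self_nonneg (S0 (R : Tensor4 n))
    have p2 := ip_self_nonneg (Wp (R : Tensor4 n))
    have q1 : 0 ≤ κ₁ ^ 2 * ip (S0 (R : Tensor4 n)) (S0 (R : Tensor4 n)) := by positivity
    have q2 : 0 ≤ κ₂ ^ 2 * ip (Wp (R : Tensor4 n)) (Wp (R : Tensor4 n)) := by positivity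
    have r1 : κ₁ ^ 2 * ip (S0 (R : Tensor4 n)) (S0 (R : Tensor4 n)) = 0 := by linarith
    have r2 : κ₂ ^ 2 * ip (Wp (R : Tensor4 n)) (Wp (R : Tensor4 n)) = 0 := by linarith
    have s1 := ip_self_eq_zero ((mul_eq_zero.mp r1).resolve_left (by positivity))
    have s2 := ip_self_eq_zero ((mul_eq_zero.mp r2).resolve_left (by positivity))
    apply Subtype.ext
    rw [decomp (R : Tensor4 n), s1, s2]
    have : al (R : Tensor4 n) = 0 := h0
    rw [this]; simp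
  · have : ε / (2 * (n + 4)) < 1 := by
      rw [div_lt_one (by positivity)]; linarith
    linarith
  · have : 0 < ε / (2 * (n + 4)) := by positivity
    linarith
  · have : 0 < ε / (2 * n) := by positivity
    nlinarith
  · intro R hα _
    rw [hαQ]
    have := ip_self_nonneg (S0 (R : Tensor4 n))
    positivity
  · intro R hα hρ
    rw [hαQ, inner_Q hn, phiC_norm_sq hn]
    rw [phiC_norm_sq hn] at hρ
    set X := κ₁ ^ 2 * ip (S0 (R : Tensor4 n)) (S0 (R : Tensor4 n)) with hX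
    set Y := κ₂ ^ 2 * ip (Wp (R : Tensor4 n)) (Wp (R : Tensor4 n)) with hY
    have hX0 : 0 ≤ X := by have := ip_self_nonneg (S0 (R : Tensor4 n)); positivity
    have hY0 : 0 ≤ Y := by have := ip_self_nonneg (Wp (R : Tensor4 n)); positivity
    have hc := hcub (R : Tensor4 n) R.2 X Y hX hY
    have e1 : κ₁ ^ 2 * (4 * al (R : Tensor4 n) * ip2 (rr (R : Tensor4 n)) (rr (R : Tensor4 n))) =
        al (R : Tensor4 n) * ((n : ℝ) - 2) * X := by
      rw [hX, ip_S0_S0 hn R.2]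
      field_simp
    rw [e1]
    have hα' : alphaC n R = al (R : Tensor4 n) := rfl
    rw [hα'] at hα hρ ⊢
    have hs : √(X + Y) ≤ (1 + ε / (2 * n)) * al (R : Tensor4 n) := by
      rw [Real.sqrt_le_left (by positivity)]
      rw [mul_pow]; exact hρ
    have := key_scalar (n := (n : ℝ)) (g := gq n κ₁) (ε := ε) (X := X) (Y := Y)
      (a := al (R : Tensor4 n)) (s := √(X + Y)) (cub := cubic κ₁ κ₂ (R : Tensor4 n)) h4 hg0 hε hg
      hX0 hY0 (Real.sqrt_nonneg _) (Real.sq_sqrt (by positivity)) hα hs hc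
    exact this

lemma isOInvariant_of {F : Set (Curv n)} (hn : 4 ≤ n) {κ₁ κ₂ : ℝ} (P : ℝ → ℝ → Prop)
    (hF : F = {R | P (alphaC n R) ‖phiC n κ₁ κ₂ R‖}) : IsOInvariant F := by
  intro g hg R hR
  have h1 : alphaC n (act g R) = alphaC n R := al_act hg (R : Tensor4 n)
  have h2 : ‖phiC n κ₁ κ₂ (act g R)‖ = ‖phiC n κ₁ κ₂ R‖ := by
    have h3 : ‖phiC n κ₁ κ₂ (act g R)‖ ^ 2 = ‖phiC n κ₁ κ₂ R‖ ^ 2 := by
      rw [phiC_norm_sq hn, phiC_norm_sq hn]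
      show κ₁ ^ 2 * ip (S0 (actTensor g (R : Tensor4 n))) (S0 (actTensor g (R : Tensor4 n))) +
        κ₂ ^ 2 * ip (Wp (actTensor g (R : Tensor4 n))) (Wp (actTensor g (R : Tensor4 n))) = _
      rw [ip_S0_act hn hg R.2, ip_Wp_act hn hg R.2]
    exact (sq_eq_sq₀ (norm_nonneg _) (norm_nonneg _)).mp h3
  rw [hF] at hR ⊢
  show P (alphaC n (act g R)) ‖phiC n κ₁ κ₂ (act g R)‖
  rw [h1, h2]; exact hR

/-- `coneC` is a pinching cone as soon as there is `PinchData`. -/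
lemma isPinchingCone_of (hn : 4 ≤ n) {κ₁ κ₂ θ ρ : ℝ}
    (h : PinchData ricciQ (alphaC n) (phiC n κ₁ κ₂) (idCurv n) θ ρ) :
    IsPinchingCone (coneC (alphaC n) (phiC n κ₁ κ₂)) := by
  refine ⟨⟨coneC_closed, coneC_convex, coneC_smul, ?_, e_mem_interior h⟩, inv_coneC h, ?_⟩
  · exact isOInvariant_of hn (fun a x => x ≤ a) rfl
  · intro K hK hKC
    obtain ⟨B, hB, hKB⟩ := compact_subset_setG h hK (hKC.trans interior_subset)
    refine ⟨_, ⟨setG_closed h.theta_pos B, setG_convex h.theta_pos h.theta_lt.le B hB, ?_,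
      inv_setG h B hB, ?_⟩, hKB⟩
    · exact isOInvariant_of hn (fun a x => x ≤ a ∧ x ≤ B * a ^ θ) rfl
    · intro K' hK'
      exact pinch_tendsto h B hB hK'

end Pool.Agent.RicciCone
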