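import Mathlib
import Pool.Agent.MP_952e48_gt.Phi

set_option autoImplicit false

/-!
# Frobenius bounds for the cubic form
-/

namespace Pool.Agent.RicciCone

open Finset

variable {n : ℕ}

/-- squared Frobenius norm -/
def fro {ι : Type*} [Fintype ι] (A : Matrix ι ι ℝ) : ℝ := ∑ i, ∑ j, A i j ^ 2

lemma fro_nonneg {ι : Type*} [Fintype ι] (A : Matrix ι ι ℝ) : 0 ≤ fro A :=
  Finset.sum_nonneg fun _ _ => Finset.sum_nonneg fun _ _ => sq_nonneg _

lemma fro_mul {ι : Type*} [Fintype ι] (A B : Matrix ι ι ℝ) : fro (A * B) ≤ fro A * fro B := by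
  unfold fro
  calc ∑ i, ∑ j, (A * B) i j ^ 2 ≤ ∑ i, ∑ j, (∑ k, A i k ^ 2) * (∑ k, B k j ^ 2) := by
        apply Finset.sum_le_sum; intro i _
        apply Finset.sum_le_sum; intro j _
        rw [Matrix.mul_apply]
        exact Finset.sum_mul_sq_le_sq_mul_sq _ _ _
    _ = (∑ i, ∑ j, A i j ^ 2) * (∑ i, ∑ j, B i j ^ 2) := by
        rw [Finset.sum_mul]
        apply Finset.sum_congr rfl; intro i _
        rw [← Finset.mul_sum]
        congr 1
        exact Finset.sum_comm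

lemma trace_mul_sq {ι : Type*} [Fintype ι] (A B : Matrix ι ι ℝ) :
    (A * B).trace ^ 2 ≤ fro A * fro B := by
  have e1 : (A * B).trace = ∑ p : ι × ι, A p.1 p.2 * B p.2 p.1 := by
    rw [Fintype.sum_prod_type]
    simp only [Matrix.trace, Matrix.diag, Matrix.mul_apply]
  have e2 : fro A = ∑ p : ι × ι, A p.1 p.2 ^ 2 := by
    rw [Fintype.sum_prod_type]; rfl
  have e3 : fro B = ∑ p : ι × ι, B p.2 p.1 ^ 2 := by
    rw [Fintype.sum_prod_type, Finset.sum_comm]; rfl
  rw [e1, e2, e3]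
  exact Finset.sum_mul_sq_le_sq_mul_sq _ _ _

lemma trace_cube_le {ι : Type*} [Fintype ι] (A : Matrix ι ι ℝ) :
    (A * A * A).trace ≤ √(fro A) * fro A := by
  have h1 := trace_mul_sq (A * A) A
  have h2 := fro_mul A A
  have h3 := fro_nonneg A
  have h4 : (A * A * A).trace ^ 2 ≤ (√(fro A) * fro A) ^ 2 := by
    rw [mul_pow, Real.sq_sqrt h3]
    calc (A * A * A).trace ^ 2 ≤ fro (A * A) * fro A := h1
      _ ≤ fro A * fro A * fro A := mul_le_mul_of_nonneg_right h2 h3
      _ = fro A * fro A ^ 2 := by ring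
  exact le_of_sq_le_sq h4 (by positivity)

lemma fro_Nm (X : Tensor4 n) : fro (Nm X) = ip X X := by
  unfold fro ip
  simp only [Fintype.sum_prod_type, Nm, Matrix.of_apply, pow_two]

lemma fro_Mm (X : Tensor4 n) : fro (Mm X) = ip X X := by
  unfold fro ip
  simp only [Fintype.sum_prod_type, Mm, Matrix.of_apply, pow_two]
  apply Finset.sum_congr rfl; intro i _
  rw [Finset.sum_comm]

/-- crude bound for the cubic form -/
lemma T3_le (X : Tensor4 n) : T3 X X X ≤ (5 / 2) * (√(ip X X) * ip X X) := by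
  unfold T3
  have h1 := trace_cube_le (Nm X)
  have h2 := trace_cube_le (Mm X)
  rw [fro_Nm] at h1
  rw [fro_Mm] at h2
  linarith

lemma cubic_eq_of_eq (κ : ℝ) {R : Tensor4 n} (hn : 4 ≤ n) (h : R ∈ curvSubmodule n) :
    cubic κ κ R = κ ^ 2 * T3 (Sp R) (Sp R) (Sp R) := by
  have hS := S0_mem h
  have hW := Wp_mem h
  have a6 : T3 (S0 R) (Wp R) (Wp R) = 0 := by
    rw [T3_cycle]
    conv_lhs => rw [S0.eq_1 R]
    rw [T3_smul_right, T3_W_W_K hn h (rr_symm h), mul_zero]
  have a7 : T3 (Wp R) (S0 R) (Wp R) = 0 := by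
    rw [T3_swap12 hW hS hW, a6]
  have a8 : T3 (Wp R) (Wp R) (S0 R) = 0 := by
    rw [← T3_cycle]; exact a6
  have a9 : T3 (Wp R) (S0 R) (S0 R) = T3 (S0 R) (S0 R) (Wp R) := T3_cycle _ _ _
  have a10 : T3 (S0 R) (Wp R) (S0 R) = T3 (S0 R) (S0 R) (Wp R) := T3_swap23 hS hW hS
  rw [Sp_eq]
  simp only [T3_add_left, T3_add_mid, T3_add_right]
  rw [a6, a7, a8, a9, a10]
  unfold cubic; ring

/-- There is a pinching cone in every dimension `n ≥ 4`. -/
lemma exists_pinchingCone (hn : 4 ≤ n) : ∃ C : Set (Curv n), IsPinchingCone C := by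
  have h4 : (4 : ℝ) ≤ n := by exact_mod_cast hn
  have hg : gq n 5 ≤ 1 / 2 := by
    unfold gq
    rw [div_le_iff₀ (by nlinarith)]
    nlinarith
  obtain ⟨θ, ρ, h⟩ := exists_pinchData hn (κ₁ := 5) (κ₂ := 5) (ε := 1 / 2) (by norm_num)
    (by norm_num) (by norm_num) (by linarith) (by
      intro R hR X Y hX hY
      rw [cubic_eq_of_eq 5 hn hR]
      have h1 := T3_le (Sp R)
      have e1 : ip (Sp R) (Sp R) = ip (S0 R) (S0 R) + ip (Wp R) (Wp R) := by
        rw [Sp_eq]
        simp only [ip_add_left, ip_add_right]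
        rw [ip_Wp_S0 hn hR, ip_comm (S0 R) (Wp R), ip_Wp_S0 hn hR]; ring
      have e2 : X + Y = 5 ^ 2 * ip (Sp R) (Sp R) := by rw [hX, hY, e1]; ring
      have hX0 : 0 ≤ X := by rw [hX]; have := ip_self_nonneg (S0 R); positivity
      have hY0 : 0 ≤ Y := by rw [hY]; have := ip_self_nonneg (Wp R); positivity
      have e3 : √(X + Y) = 5 * √(ip (Sp R) (Sp R)) := by
        rw [e2, Real.sqrt_mul (by norm_num), Real.sqrt_sq (by norm_num)]
      have hg0 : 0 ≤ gq n 5 := by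
        unfold gq
        have a1 : (0 : ℝ) ≤ (n : ℝ) - 2 := by linarith
        have a2 : (0 : ℝ) ≤ (n : ℝ) - 1 := by linarith
        positivity
      have hs := Real.sqrt_nonneg (ip (Sp R) (Sp R))
      have hS := ip_self_nonneg (Sp R)
      have k1 : √(X + Y) * ((1 - 1 / 2) * (X + Y)) ≤
          √(X + Y) * ((1 - 1 / 2) * (X + Y) + gq n 5 * X + ((n : ℝ) - 2) * Y) := by
        apply mul_le_mul_of_nonneg_left _ (Real.sqrt_nonneg _)
        have a1 : 0 ≤ gq n 5 * X := by positivity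
        have a2 : 0 ≤ ((n : ℝ) - 2) * Y := mul_nonneg (by linarith) hY0
        linarith
      refine le_trans ?_ k1
      rw [e3, e2]
      have := mul_nonneg hs hS
      nlinarith)
  exact ⟨_, isPinchingCone_of hn h⟩

end Pool.Agent.RicciCone
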