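import Mathlib
import Pool.Agent.MP_952e48_gt.Frob

set_option autoImplicit false

/-!
# The quadratic form of a Weyl tensor on trace-free symmetric 2-tensors
-/

namespace Pool.Agent.RicciCone

open Finset

variable {n : ℕ}

lemma ip_sq_le (X Y : Tensor4 n) : ip X Y ^ 2 ≤ ip X X * ip Y Y := by
  have e : ∀ A B : Tensor4 n, ip A B = ∑ p : Fin n × Fin n × Fin n × Fin n,
      A p.1 p.2.1 p.2.2.1 p.2.2.2 * B p.1 p.2.1 p.2.2.1 p.2.2.2 := by
    intro A B
    unfold ip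
    simp only [Fintype.sum_prod_type]
  rw [e X Y, e X X, e Y Y]
  have := Finset.sum_mul_sq_le_sq_mul_sq Finset.univ
    (fun p : Fin n × Fin n × Fin n × Fin n => X p.1 p.2.1 p.2.2.1 p.2.2.2)
    (fun p => Y p.1 p.2.1 p.2.2.1 p.2.2.2)
  simpa only [pow_two] using this

lemma ip2_sq_le (u v : Fin n → Fin n → ℝ) : ip2 u v ^ 2 ≤ ip2 u u * ip2 v v := by
  have e : ∀ A B : Fin n → Fin n → ℝ, ip2 A B = ∑ p : Fin n × Fin n,
      A p.1 p.2 * B p.1 p.2 := by
    intro A B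
    unfold ip2
    simp only [Fintype.sum_prod_type]
  rw [e u v, e u u, e v v]
  have := Finset.sum_mul_sq_le_sq_mul_sq Finset.univ
    (fun p : Fin n × Fin n => u p.1 p.2)
    (fun p => v p.1 p.2)
  simpa only [pow_two] using this

/-- the square of a matrix -/
def h2 (h : Fin n → Fin n → ℝ) : Fin n → Fin n → ℝ := fun i k => ∑ j, h i j * h j k

/-- `h ∧ h` -/
def Zt (h : Fin n → Fin n → ℝ) : Tensor4 n := fun i j k l => h i k * h j l - h i l * h j k

lemma Zt_mem {h : Fin n → Fin n → ℝ} (hs : ∀ i j, h j i = h i j) : Zt h ∈ curvSubmodule n := by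
  refine ⟨fun i j k l => ?_, fun i j k l => ?_, fun i j k l => ?_⟩
  · simp only [Zt]; ring
  · simp only [Zt]
    rw [hs i k, hs j l, hs i l, hs j k]; ring
  · simp only [Zt]
    rw [hs i j, hs i k, hs j k]; ring

lemma h2_symm {h : Fin n → Fin n → ℝ} (hs : ∀ i j, h j i = h i j) (i j : Fin n) :
    h2 h j i = h2 h i j := by
  unfold h2
  apply Finset.sum_congr rfl; intro p _
  rw [hs p j, hs i p]; ring

lemma ip2_h2_dl {h : Fin n → Fin n → ℝ} (hs : ∀ i j, h j i = h i j) :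
    ip2 (h2 h) dl = ip2 h h := by
  rw [ip2_dl]
  unfold h2 ip2
  apply Finset.sum_congr rfl; intro i _
  apply Finset.sum_congr rfl; intro j _
  rw [hs i j]

lemma form_Zt {W : Tensor4 n} (hW : W ∈ curvSubmodule n) (h : Fin n → Fin n → ℝ) :
    ip W (Zt h) = 2 * form W h h := by
  have e1 : ∑ i, ∑ j, ∑ k, ∑ l, W i j k l * (h i k * h j l) = form W h h := by
    unfold form
    apply Finset.sum_congr rfl; intro i _
    rw [Finset.sum_comm]
    apply Finset.sum_congr rfl; intro k _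
    apply Finset.sum_congr rfl; intro j _
    apply Finset.sum_congr rfl; intro l _
    ring
  have e2 : ∑ i, ∑ j, ∑ k, ∑ l, W i j k l * (h i l * h j k) = - form W h h := by
    rw [← e1, ← Finset.sum_neg_distrib]
    apply Finset.sum_congr rfl; intro i _
    rw [← Finset.sum_neg_distrib]
    apply Finset.sum_congr rfl; intro j _
    rw [Finset.sum_comm, ← Finset.sum_neg_distrib]
    apply Finset.sum_congr rfl; intro k _
    rw [← Finset.sum_neg_distrib]
    apply Finset.sum_congr rfl; intro l _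
    rw [anti34 hW i j k l]; ring
  have e : ip W (Zt h) = ∑ i, ∑ j, ∑ k, ∑ l, W i j k l * (h i k * h j l) -
      ∑ i, ∑ j, ∑ k, ∑ l, W i j k l * (h i l * h j k) := by
    simp only [← Finset.sum_sub_distrib]
    unfold ip
    apply Finset.sum_congr rfl; intro i _
    apply Finset.sum_congr rfl; intro j _
    apply Finset.sum_congr rfl; intro k _
    apply Finset.sum_congr rfl; intro l _
    simp only [Zt]; ring
  rw [e, e1, e2]; ring

lemma form_Zt_self {h : Fin n → Fin n → ℝ} (hs : ∀ i j, h j i = h i j) :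
    form (Zt h) h h = ip2 h h ^ 2 - ip2 (h2 h) (h2 h) := by
  have e1 : ∑ i, ∑ k, ∑ p, ∑ q, (h i k * h p q) * (h i k * h p q) = ip2 h h ^ 2 := by
    rw [pow_two]
    unfold ip2
    rw [Finset.sum_mul]
    apply Finset.sum_congr rfl; intro i _
    rw [Finset.sum_mul]
    apply Finset.sum_congr rfl; intro k _
    rw [Finset.mul_sum]
    apply Finset.sum_congr rfl; intro p _
    rw [Finset.mul_sum]
    apply Finset.sum_congr rfl; intro q _
    ring
  have e2 : ∑ i, ∑ k, ∑ p, ∑ q, (h i q * h p k) * (h i k * h p q) = ip2 (h2 h) (h2 h) := by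
    unfold ip2 h2
    apply Finset.sum_congr rfl; intro i _
    have a1 : ∑ k, ∑ p, ∑ q, (h i q * h p k) * (h i k * h p q) =
        ∑ p, ∑ k, ∑ q, (h i q * h p k) * (h i k * h p q) := Finset.sum_comm
    rw [a1]
    apply Finset.sum_congr rfl; intro p _
    rw [Finset.sum_mul_sum]
    apply Finset.sum_congr rfl; intro k _
    apply Finset.sum_congr rfl; intro q _
    rw [hs k p, hs q p]; ring
  rw [← e1, ← e2]
  simp only [← Finset.sum_sub_distrib]
  unfold form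
  apply Finset.sum_congr rfl; intro i _
  apply Finset.sum_congr rfl; intro k _
  apply Finset.sum_congr rfl; intro p _
  apply Finset.sum_congr rfl; intro q _
  simp only [Zt]; ring

lemma Ric_Zt {h : Fin n → Fin n → ℝ} (htr : ∑ i, h i i = 0) : Ric (Zt h) = (-1 : ℝ) • h2 h := by
  funext i k
  unfold Ric Zt h2
  simp only [Pi.smul_apply, smul_eq_mul]
  rw [Finset.sum_sub_distrib, ← Finset.mul_sum, htr]; ring

/-- tr `h⁴ ≥ |h|⁴ / n` -/
lemma tau4_ge (hn : 4 ≤ n) {h : Fin n → Fin n → ℝ} (hs : ∀ i j, h j i = h i j) :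
    ip2 h h ^ 2 / n ≤ ip2 (h2 h) (h2 h) := by
  have h4 : (4 : ℝ) ≤ n := by exact_mod_cast hn
  have h1 := ip2_sq_le (h2 h) dl
  have e6 : ip2 (n := n) dl dl = n := by rw [ip2_dl, sum_dl_diag]
  rw [ip2_h2_dl hs, e6] at h1
  rw [div_le_iff₀ (by linarith)]
  exact h1

/-- `(tr h³)² ≤ |h|² (tr h⁴ - |h|⁴/n)` -/
lemma tau3_sq (hn : 4 ≤ n) {h : Fin n → Fin n → ℝ} (hs : ∀ i j, h j i = h i j)
    (htr : ∑ i, h i i = 0) :
    ip2 (h2 h) h ^ 2 ≤ ip2 h h * (ip2 (h2 h) (h2 h) - ip2 h h ^ 2 / n) := by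
  have h4 : (4 : ℝ) ≤ n := by exact_mod_cast hn
  set u : Fin n → Fin n → ℝ := h2 h + (-(ip2 h h / n)) • dl with hu
  have e6 : ip2 (n := n) dl dl = n := by rw [ip2_dl, sum_dl_diag]
  have h1 := ip2_sq_le u h
  have e1 : ip2 u h = ip2 (h2 h) h := by
    rw [hu, ip2_add_left, ip2_smul_left, ip2_dl_left, htr]; ring
  have e2 : ip2 u u = ip2 (h2 h) (h2 h) - ip2 h h ^ 2 / n := by
    rw [hu, ip2_add_left, ip2_add_right, ip2_add_right, ip2_smul_left, ip2_smul_left,
      ip2_smul_right, ip2_smul_right, e6, ip2_comm dl (h2 h), ip2_h2_dl hs]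
    field_simp
    ring
  rw [e1, e2] at h1
  linarith

/-- The main bound: `W(h,h)² ≤ 1/4 |W|² |W_{h∧h}|²` -/
lemma weyl_form_sq (hn : 4 ≤ n) {W : Tensor4 n} (hW : W ∈ curvSubmodule n) (hRic : Ric W = 0)
    {h : Fin n → Fin n → ℝ} (hs : ∀ i j, h j i = h i j) (htr : ∑ i, h i i = 0) :
    form W h h ^ 2 ≤ (1 / 4) * ip W W *
      ((2 * n / ((n : ℝ) - 2)) * (((n : ℝ) ^ 2 - 3 * n + 3) / (n * (n - 1)) * ip2 h h ^ 2 -
        ip2 (h2 h) (h2 h))) := by
  have h4 : (4 : ℝ) ≤ n := by exact_mod_cast hn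
  have hn1 : (n : ℝ) - 1 ≠ 0 := by linarith
  have hn2 : (n : ℝ) - 2 ≠ 0 := by linarith
  have hn0 : (n : ℝ) ≠ 0 := by linarith
  set P := ip2 h h with hP
  set τ := ip2 (h2 h) (h2 h) with hτ
  set c : ℝ := P / (2 * (n - 1)) with hc
  set η : Fin n → Fin n → ℝ := (-(1 / ((n : ℝ) - 2))) • (h2 h + (-c) • dl) with hη
  have hηs : ∀ i j, η j i = η i j := by
    intro i j
    simp only [hη, Pi.smul_apply, Pi.add_apply, smul_eq_mul]
    rw [h2_symm hs, dl_comm]
  have e6 : ip2 (n := n) dl dl = n := by rw [ip2_dl, sum_dl_diag]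
  have e7 : ip2 (h2 h) dl = P := ip2_h2_dl hs
  have e8 : ip2 dl (h2 h) = P := by rw [ip2_comm, e7]
  have hK : K η ∈ curvSubmodule n := K_mem hηs
  have hZ : Zt h ∈ curvSubmodule n := Zt_mem hs
  have f1 : ip W (Zt h + (-1 : ℝ) • K η) = 2 * form W h h := by
    rw [ip_add_right, ip_smul_right, form_Zt hW, ip_K hW, hRic]
    simp [ip2]
  have f2 := ip_sq_le W (Zt h + (-1 : ℝ) • K η)
  rw [f1] at f2
  have tη : ∑ i, η i i = -(1 / ((n : ℝ) - 2)) * (P - c * n) := by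
    have : ∑ i, η i i = ip2 η dl := (ip2_dl η).symm
    rw [this, hη, ip2_smul_left, ip2_add_left, ip2_smul_left, e7, e6]; ring
  have n1 : ip2 (h2 h) η = -(1 / ((n : ℝ) - 2)) * (τ - c * P) := by
    rw [hη, ip2_smul_right, ip2_add_right, ip2_smul_right, e7]; ring
  have n2 : ip2 η η = (1 / ((n : ℝ) - 2)) ^ 2 * (τ - 2 * c * P + n * c ^ 2) := by
    conv_lhs => rw [hη]
    rw [ip2_smul_left, ip2_smul_right, ip2_add_left, ip2_add_right, ip2_add_right, ip2_smul_left,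
      ip2_smul_left, ip2_smul_right, ip2_smul_right, e6, e7, e8]
    ring
  have g1 : ip (Zt h) (Zt h) = 2 * (P ^ 2 - τ) := by
    rw [form_Zt hZ, form_Zt_self hs]
  have g2 : ip (Zt h) (K η) = -4 * ip2 (h2 h) η := by
    rw [ip_K hZ, Ric_Zt htr, ip2_smul_left]; ring
  have g3 : ip (K η) (K η) = 4 * (((n : ℝ) - 2) * ip2 η η + (∑ i, η i i) ^ 2) := by
    rw [ip_K hK]
    have : Ric (K η) = ((n : ℝ) - 2) • η + (∑ j, η j j) • dl := by
      funext i k
      rw [Ric_K]; rfl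
    rw [this, ip2_add_left, ip2_smul_left ((n : ℝ) - 2) η, ip2_smul_left (∑ j, η j j) dl,
      ip2_dl_left]
    ring
  have g4 : ip (Zt h + (-1 : ℝ) • K η) (Zt h + (-1 : ℝ) • K η) =
      (2 * n / ((n : ℝ) - 2)) * (((n : ℝ) ^ 2 - 3 * n + 3) / (n * (n - 1)) * P ^ 2 - τ) := by
    rw [ip_add_left, ip_add_right, ip_add_right, ip_smul_left, ip_smul_left, ip_smul_right,
      ip_smul_right, ip_comm (K η) (Zt h), g1, g2, g3, n1, n2, tη, hc]
    field_simp
    ring
  rw [g4] at f2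
  linarith

/-- The norm of the Weyl part of `h ∧ h` is nonnegative. -/
lemma weyl_norm_nonneg (hn : 4 ≤ n)
    {h : Fin n → Fin n → ℝ} (hs : ∀ i j, h j i = h i j) (htr : ∑ i, h i i = 0) :
    0 ≤ ((n : ℝ) ^ 2 - 3 * n + 3) / (n * (n - 1)) * ip2 h h ^ 2 - ip2 (h2 h) (h2 h) := by
  have h4 : (4 : ℝ) ≤ n := by exact_mod_cast hn
  have hn1 : (n : ℝ) - 1 ≠ 0 := by linarith
  have hn2 : (n : ℝ) - 2 ≠ 0 := by linarith
  have hn2' : (0 : ℝ) < (n : ℝ) - 2 := by linarith
  have hn0 : (n : ℝ) ≠ 0 := by linarith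
  set P := ip2 h h with hP
  set τ := ip2 (h2 h) (h2 h) with hτ
  set c : ℝ := P / (2 * (n - 1)) with hc
  set η : Fin n → Fin n → ℝ := (-(1 / ((n : ℝ) - 2))) • (h2 h + (-c) • dl) with hη
  have hηs : ∀ i j, η j i = η i j := by
    intro i j
    simp only [hη, Pi.smul_apply, Pi.add_apply, smul_eq_mul]
    rw [h2_symm hs, dl_comm]
  have e6 : ip2 (n := n) dl dl = n := by rw [ip2_dl, sum_dl_diag]
  have e7 : ip2 (h2 h) dl = P := ip2_h2_dl hs
  have e8 : ip2 dl (h2 h) = P := by rw [ip2_comm, e7]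
  have hK : K η ∈ curvSubmodule n := K_mem hηs
  have hZ : Zt h ∈ curvSubmodule n := Zt_mem hs
  have tη : ∑ i, η i i = -(1 / ((n : ℝ) - 2)) * (P - c * n) := by
    have : ∑ i, η i i = ip2 η dl := (ip2_dl η).symm
    rw [this, hη, ip2_smul_left, ip2_add_left, ip2_smul_left, e7, e6]; ring
  have n1 : ip2 (h2 h) η = -(1 / ((n : ℝ) - 2)) * (τ - c * P) := by
    rw [hη, ip2_smul_right, ip2_add_right, ip2_smul_right, e7]; ring
  have n2 : ip2 η η = (1 / ((n : ℝ) - 2)) ^ 2 * (τ - 2 * c * P + n * c ^ 2) := by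
    conv_lhs => rw [hη]
    rw [ip2_smul_left, ip2_smul_right, ip2_add_left, ip2_add_right, ip2_add_right, ip2_smul_left,
      ip2_smul_left, ip2_smul_right, ip2_smul_right, e6, e7, e8]
    ring
  have g1 : ip (Zt h) (Zt h) = 2 * (P ^ 2 - τ) := by
    rw [form_Zt hZ, form_Zt_self hs]
  have g2 : ip (Zt h) (K η) = -4 * ip2 (h2 h) η := by
    rw [ip_K hZ, Ric_Zt htr, ip2_smul_left]; ring
  have g3 : ip (K η) (K η) = 4 * (((n : ℝ) - 2) * ip2 η η + (∑ i, η i i) ^ 2) := by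
    rw [ip_K hK]
    have : Ric (K η) = ((n : ℝ) - 2) • η + (∑ j, η j j) • dl := by
      funext i k
      rw [Ric_K]; rfl
    rw [this, ip2_add_left, ip2_smul_left ((n : ℝ) - 2) η, ip2_smul_left (∑ j, η j j) dl,
      ip2_dl_left]
    ring
  have g4 : ip (Zt h + (-1 : ℝ) • K η) (Zt h + (-1 : ℝ) • K η) =
      (2 * n / ((n : ℝ) - 2)) * (((n : ℝ) ^ 2 - 3 * n + 3) / (n * (n - 1)) * P ^ 2 - τ) := by
    rw [ip_add_left, ip_add_right, ip_add_right, ip_smul_left, ip_smul_left, ip_smul_right,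
      ip_smul_right, ip_comm (K η) (Zt h), g1, g2, g3, n1, n2, tη, hc]
    field_simp
    ring
  have g5 := ip_self_nonneg (Zt h + (-1 : ℝ) • K η)
  rw [g4] at g5
  exact nonneg_of_mul_nonneg_right g5 (by positivity)

/-- coarse form: `W(h,h)² ≤ (n-2)/(2(n-1)) |W|² |h|⁴` -/
lemma weyl_form_coarse (hn : 4 ≤ n) {W : Tensor4 n} (hW : W ∈ curvSubmodule n) (hRic : Ric W = 0)
    {h : Fin n → Fin n → ℝ} (hs : ∀ i j, h j i = h i j) (htr : ∑ i, h i i = 0) :
    form W h h ^ 2 ≤ ((n : ℝ) - 2) / (2 * (n - 1)) * ip W W * ip2 h h ^ 2 := by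
  have h4 : (4 : ℝ) ≤ n := by exact_mod_cast hn
  have hn1 : (n : ℝ) - 1 ≠ 0 := by linarith
  have hn2 : (n : ℝ) - 2 ≠ 0 := by linarith
  have hn2' : (0 : ℝ) < (n : ℝ) - 2 := by linarith
  have hn0 : (n : ℝ) ≠ 0 := by linarith
  refine (weyl_form_sq hn hW hRic hs htr).trans ?_
  have h1 := tau4_ge hn hs
  have h2 := ip_self_nonneg W
  have e1 : ((n : ℝ) - 2) / (2 * (n - 1)) * ip W W * ip2 h h ^ 2 = (1 / 4) * ip W W *
      ((2 * n / ((n : ℝ) - 2)) * (((n : ℝ) ^ 2 - 3 * n + 3) / (n * (n - 1)) * ip2 h h ^ 2 -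
        ip2 h h ^ 2 / n)) := by
    field_simp
    ring
  rw [e1]
  apply mul_le_mul_of_nonneg_left _ (by positivity)
  apply mul_le_mul_of_nonneg_left _ (by positivity)
  linarith

/-- for every symmetric `h` -/
lemma weyl_form_le (hn : 4 ≤ n) {W : Tensor4 n} (hW : W ∈ curvSubmodule n) (hRic : Ric W = 0)
    {h : Fin n → Fin n → ℝ} (hs : ∀ i j, h j i = h i j) {ν : ℝ} (hν : 0 ≤ ν)
    (hν2 : ((n : ℝ) - 2) / (2 * (n - 1)) ≤ ν ^ 2) :
    form W h h ≤ ν * √(ip W W) * ip2 h h := by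
  have h4 : (4 : ℝ) ≤ n := by exact_mod_cast hn
  have hn0 : (n : ℝ) ≠ 0 := by linarith
  have e6 : ip2 (n := n) dl dl = n := by rw [ip2_dl, sum_dl_diag]
  set t := (∑ i, h i i) with ht
  set k : Fin n → Fin n → ℝ := h + (-(t / n)) • dl with hk
  have hks : ∀ i j, k j i = k i j := by
    intro i j
    simp only [hk, Pi.add_apply, Pi.smul_apply, smul_eq_mul]
    rw [hs, dl_comm]
  have hktr : ∑ i, k i i = 0 := by
    rw [← ip2_dl, hk, ip2_add_left, ip2_smul_left, ip2_dl, e6, ← ht]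
    field_simp
    ring
  have hf0 : ∀ u, form W u dl = 0 := by
    intro u; rw [form_dl, hRic]; simp [ip2]
  have hf : form W h h = form W k k := by
    have e1 : form W k k = form W h k + (-(t / n)) * form W dl k := by
      conv_lhs => rw [hk]
      rw [form_add_mid, form_smul_mid]
    have e2 : form W dl k = 0 := by rw [form_comm hW, hf0]
    have e3 : form W h k = form W h h := by
      rw [form_comm hW h k, hk, form_add_mid, form_smul_mid, form_comm hW dl h, hf0]; ring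
    rw [e1, e2, e3]; ring
  have hP : ip2 k k ≤ ip2 h h := by
    have : ip2 k k = ip2 h h - t ^ 2 / n := by
      rw [hk, ip2_add_left, ip2_add_right, ip2_add_right, ip2_smul_left, ip2_smul_left,
        ip2_smul_right, ip2_smul_right, e6, ip2_dl_left, ip2_dl, ← ht]
      field_simp
      ring
    rw [this]
    have : 0 ≤ t ^ 2 / n := by positivity
    linarith
  rw [hf]
  have h1 := weyl_form_coarse hn hW hRic hks hktr
  have h2 := ip_self_nonneg W
  have h3 : form W k k ^ 2 ≤ (ν * √(ip W W) * ip2 h h) ^ 2 := by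
    rw [mul_pow, mul_pow, Real.sq_sqrt h2]
    calc form W k k ^ 2 ≤ ((n : ℝ) - 2) / (2 * (n - 1)) * ip W W * ip2 k k ^ 2 := h1
      _ ≤ ν ^ 2 * ip W W * ip2 h h ^ 2 := by
          apply mul_le_mul _ _ (sq_nonneg _) (by positivity)
          · exact mul_le_mul_of_nonneg_right hν2 h2
          · exact pow_le_pow_left₀ (ip2_self_nonneg k) hP 2
  exact le_of_sq_le_sq h3 (mul_nonneg (mul_nonneg hν (Real.sqrt_nonneg _)) (ip2_self_nonneg h))

end Pool.Agent.RicciCone
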