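import Mathlib
import Pool.Agent.MP_952e48_gt.Weyl

set_option autoImplicit false

/-!
# The cubic form on Weyl tensors
-/

namespace Pool.Agent.RicciCone

open Finset

variable {n : ℕ}

/-- for antisymmetric `h` -/
lemma anti_form_le {W : Tensor4 n} (hW : W ∈ curvSubmodule n) {h : Fin n → Fin n → ℝ}
    (hs : ∀ i j, h j i = - h i j) : form W h h ≤ (1 / 2) * √(ip W W) * ip2 h h := by
  set B : ℝ := ∑ i, ∑ k, ∑ p, ∑ q, W i k p q * (h i k * h p q) with hB
  have e1 : form W h h = ∑ i, ∑ k, ∑ p, ∑ q, W i p k q * (h i k * h p q) := by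
    unfold form
    apply Finset.sum_congr rfl; intro i _
    apply Finset.sum_congr rfl; intro k _
    apply Finset.sum_congr rfl; intro p _
    apply Finset.sum_congr rfl; intro q _
    ring
  have e2 : form W h h = - ∑ i, ∑ k, ∑ p, ∑ q, W i q k p * (h i k * h p q) := by
    rw [e1, ← Finset.sum_neg_distrib]
    apply Finset.sum_congr rfl; intro i _
    rw [← Finset.sum_neg_distrib]
    apply Finset.sum_congr rfl; intro k _
    rw [Finset.sum_comm, ← Finset.sum_neg_distrib]
    apply Finset.sum_congr rfl; intro p _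
    rw [← Finset.sum_neg_distrib]
    apply Finset.sum_congr rfl; intro q _
    rw [hs p q]; ring
  have e3 : 2 * form W h h = B := by
    have : 2 * form W h h = ∑ i, ∑ k, ∑ p, ∑ q, W i p k q * (h i k * h p q) -
        ∑ i, ∑ k, ∑ p, ∑ q, W i q k p * (h i k * h p q) := by linarith
    rw [this, hB]
    simp only [← Finset.sum_sub_distrib]
    apply Finset.sum_congr rfl; intro i _
    apply Finset.sum_congr rfl; intro k _
    apply Finset.sum_congr rfl; intro p _
    apply Finset.sum_congr rfl; intro q _
    have b := bianchi' hW i k p q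
    have b2 : W i p k q - W i q k p = W i k p q := by
      have c1 := bianchi hW i k p q
      have c2 : W k p i q = W i q k p := pairsym hW i q k p
      have c3 : W p i k q = - W i p k q := by rw [anti12 hW i p k q]
      rw [c2, c3] at c1
      linarith
    rw [← b2]; ring
  have e4 : B ^ 2 ≤ ip W W * ip2 h h ^ 2 := by
    have k1 : B = ip W (fun i k p q => h i k * h p q) := rfl
    have k2 : ip (fun i k p q => h i k * h p q) (fun i k p q => h i k * h p q) = ip2 h h ^ 2 := by
      rw [pow_two]
      unfold ip ip2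
      rw [Finset.sum_mul]
      apply Finset.sum_congr rfl; intro i _
      rw [Finset.sum_mul]
      apply Finset.sum_congr rfl; intro k _
      rw [Finset.mul_sum]
      apply Finset.sum_congr rfl; intro p _
      rw [Finset.mul_sum]
      apply Finset.sum_congr rfl; intro q _
      ring
    rw [k1, ← k2]
    exact ip_sq_le _ _
  have e5 : B ≤ √(ip W W) * ip2 h h := by
    apply le_of_sq_le_sq _ (mul_nonneg (Real.sqrt_nonneg _) (ip2_self_nonneg h))
    rw [mul_pow, Real.sq_sqrt (ip_self_nonneg W)]; exact e4
  linarith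

/-- swap matrix -/
def swp (n : ℕ) : Matrix (Fin n × Fin n) (Fin n × Fin n) ℝ :=
  Matrix.of fun a b => if a = (b.2, b.1) then 1 else 0

lemma mul_swp (A : Matrix (Fin n × Fin n) (Fin n × Fin n) ℝ) (a b : Fin n × Fin n) :
    (A * swp n) a b = A a (b.2, b.1) := by
  rw [Matrix.mul_apply]
  simp [swp]

lemma swp_mul (A : Matrix (Fin n × Fin n) (Fin n × Fin n) ℝ) (a b : Fin n × Fin n) :
    (swp n * A) a b = A (a.2, a.1) b := by
  rw [Matrix.mul_apply]
  have : ∀ c : Fin n × Fin n, swp n a c * A c b = if c = (a.2, a.1) then A c b else 0 := by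
    intro c
    simp only [swp, Matrix.of_apply]
    by_cases hc : c = (a.2, a.1)
    · subst hc; simp
    · have : a ≠ (c.2, c.1) := by
        rintro rfl; exact hc rfl
      rw [if_neg hc, if_neg this, zero_mul]
  simp only [this]
  simp

lemma swp_sq : swp n * swp n = 1 := by
  ext a b
  rw [mul_swp, Matrix.one_apply]
  simp only [swp, Matrix.of_apply]

lemma swp_Mm {W : Tensor4 n} (hW : W ∈ curvSubmodule n) : swp n * Mm W = Mm W * swp n := by
  ext a b
  rw [mul_swp, swp_mul]
  simp only [Mm, Matrix.of_apply]
  exact pairsym hW a.1 b.2 a.2 b.1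

lemma Nm_eq {W : Tensor4 n} (hW : W ∈ curvSubmodule n) : Nm W = Mm W - Mm W * swp n := by
  ext a b
  rw [Matrix.sub_apply, mul_swp]
  simp only [Mm, Nm, Matrix.of_apply]
  have c1 := bianchi hW a.1 a.2 b.1 b.2
  have c2 : W a.2 b.1 a.1 b.2 = W a.1 b.2 a.2 b.1 := pairsym hW a.1 b.2 a.2 b.1
  have c3 : W b.1 a.1 a.2 b.2 = - W a.1 b.1 a.2 b.2 := by rw [anti12 hW a.1 b.1 a.2 b.2]
  rw [c2, c3] at c1
  linarith

lemma trace_swp : (swp n).trace = n := by
  unfold Matrix.trace
  simp only [Matrix.diag, swp, Matrix.of_apply, Fintype.sum_prod_type]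
  have : ∀ i j : Fin n, (if (i, j) = (j, i) then (1 : ℝ) else 0) = if j = i then 1 else 0 := by
    intro i j
    by_cases h : j = i
    · subst h; simp
    · have : ¬ ((i, j) = (j, i)) := by
        intro h'; exact h (Prod.ext_iff.mp h').2
      rw [if_neg h, if_neg this]
  simp only [this]
  simp

lemma trace_one' : (1 : Matrix (Fin n × Fin n) (Fin n × Fin n) ℝ).trace = (n : ℝ) ^ 2 := by
  rw [Matrix.trace_one]
  simp [Fintype.card_prod, pow_two]

/-- the abstract shifted inequality -/
lemma shift_ineq {M u : Matrix (Fin n × Fin n) (Fin n × Fin n) ℝ} (hM : M.transpose = M)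
    (hu : u.transpose = u) (hc : Commute M u) (huu : u * u = (2 : ℝ) • u) {Λ : ℝ} (t : ℝ)
    (hform : ∀ c : Fin n × Fin n, ∑ a, ∑ b, ((M + t • 1) * u) a c * M a b * ((M + t • 1) * u) b c ≤
      Λ * ∑ a, ((M + t • 1) * u) a c ^ 2) :
    (M * M * M * u).trace + 2 * t * (M * M * u).trace + t ^ 2 * (M * u).trace ≤
      Λ * ((M * M * u).trace + 2 * t * (M * u).trace + t ^ 2 * u.trace) := by
  set G := (M + t • 1) * u with hG
  have hcG : Commute (M + t • 1) u := by
    apply Commute.add_left hc
    exact (Commute.one_left u).smul_left t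
  have hcM : Commute (M + t • (1 : Matrix (Fin n × Fin n) (Fin n × Fin n) ℝ)) M := by
    apply Commute.add_left (Commute.refl M)
    exact (Commute.one_left M).smul_left t
  have hGt : G.transpose = G := by
    rw [hG, Matrix.transpose_mul, hu, Matrix.transpose_add, hM, Matrix.transpose_smul,
      Matrix.transpose_one]
    exact hcG.eq.symm
  have h1 : (G * M * G).trace ≤ Λ * (G * G).trace := by
    have e1 : (G * M * G).trace = ∑ c, ∑ a, ∑ b, G a c * M a b * G b c := by
      unfold Matrix.trace
      apply Finset.sum_congr rfl; intro c _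
      rw [Matrix.diag_apply, Matrix.mul_apply]
      rw [Finset.sum_comm]
      apply Finset.sum_congr rfl; intro b _
      rw [Matrix.mul_apply, Finset.sum_mul]
      apply Finset.sum_congr rfl; intro a _
      have : G c a = G a c := by
        conv_lhs => rw [← hGt]
        rfl
      rw [this]
    have e2 : (G * G).trace = ∑ c, ∑ a, G a c ^ 2 := by
      unfold Matrix.trace
      apply Finset.sum_congr rfl; intro c _
      rw [Matrix.diag_apply, Matrix.mul_apply]
      apply Finset.sum_congr rfl; intro a _
      have : G c a = G a c := by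
        conv_lhs => rw [← hGt]
        rfl
      rw [this]; ring
    rw [e1, e2, Finset.mul_sum]
    exact Finset.sum_le_sum fun c _ => hform c
  have e3 : G * M * G = (2 : ℝ) • (M * M * M * u + (2 * t) • (M * M * u) + t ^ 2 • (M * u)) := by
    have a1 : G * M * G = (M + t • 1) * (M + t • 1) * M * (u * u) := by
      rw [hG]
      calc (M + t • 1) * u * M * ((M + t • 1) * u) = (M + t • 1) * (u * (M * (M + t • 1))) * u := by
            simp only [Matrix.mul_assoc]
        _ = (M + t • 1) * ((M * (M + t • 1)) * u) * u := by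
            rw [((hc.mul_left hcG).eq)]
        _ = (M + t • 1) * (((M + t • 1) * M) * u) * u := by rw [hcM.eq]
        _ = (M + t • 1) * (M + t • 1) * M * (u * u) := by simp only [Matrix.mul_assoc]
    rw [a1, huu]
    simp only [Matrix.mul_add, Matrix.add_mul, Matrix.mul_smul, Matrix.smul_mul, Matrix.mul_one,
      Matrix.one_mul]
    module
  have e4 : G * G = (2 : ℝ) • (M * M * u + (2 * t) • (M * u) + t ^ 2 • u) := by
    have a1 : G * G = (M + t • 1) * (M + t • 1) * (u * u) := by
      rw [hG]
      calc (M + t • 1) * u * ((M + t • 1) * u) = (M + t • 1) * (u * (M + t • 1)) * u := by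
            simp only [Matrix.mul_assoc]
        _ = (M + t • 1) * ((M + t • 1) * u) * u := by rw [hcG.eq]
        _ = (M + t • 1) * (M + t • 1) * (u * u) := by simp only [Matrix.mul_assoc]
    rw [a1, huu]
    simp only [Matrix.mul_add, Matrix.add_mul, Matrix.mul_smul, Matrix.smul_mul, Matrix.mul_one,
      Matrix.one_mul]
    module
  rw [e3, e4] at h1
  simp only [Matrix.trace_smul, Matrix.trace_add, smul_eq_mul] at h1
  linarith

end Pool.Agent.RicciCone
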