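import Mathlib
import Pool.Agent.MP_952e48_gt.WeylCube

set_option autoImplicit false

/-!
# The cubic form on Weyl tensors: the bound
-/

namespace Pool.Agent.RicciCone

open Finset

variable {n : ℕ}

lemma swp_symm : (swp n).transpose = swp n := by
  ext a b
  rw [Matrix.transpose_apply]
  simp only [swp, Matrix.of_apply]
  by_cases h : a = (b.2, b.1)
  · subst h; simp
  · have : ¬ (b = (a.2, a.1)) := by
      rintro rfl; exact h rfl
    rw [if_neg h, if_neg this]

lemma trace_mul_self_Mm {W : Tensor4 n} (hW : W ∈ curvSubmodule n) :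
    (Mm W * Mm W).trace = ip W W := by
  rw [← fro_Mm]
  unfold Matrix.trace fro
  apply Finset.sum_congr rfl; intro a _
  rw [Matrix.diag_apply, Matrix.mul_apply]
  apply Finset.sum_congr rfl; intro b _
  have : Mm W b a = Mm W a b := by
    conv_lhs => rw [← Mm_symm hW]
    rfl
  rw [this]; ring

lemma trace_mul_self_Nm {W : Tensor4 n} (hW : W ∈ curvSubmodule n) :
    (Nm W * Nm W).trace = ip W W := by
  rw [← fro_Nm]
  unfold Matrix.trace fro
  apply Finset.sum_congr rfl; intro a _
  rw [Matrix.diag_apply, Matrix.mul_apply]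
  apply Finset.sum_congr rfl; intro b _
  have : Nm W b a = Nm W a b := by
    conv_lhs => rw [← Nm_symm hW]
    rfl
  rw [this]; ring

lemma trace_Mm {W : Tensor4 n} (hW : W ∈ curvSubmodule n) : (Mm W).trace = 0 := by
  unfold Matrix.trace
  apply Finset.sum_eq_zero; intro a _
  simp only [Matrix.diag_apply, Mm, Matrix.of_apply]
  have := anti12 hW a.1 a.1 a.2 a.2
  linarith

lemma trace_Nm {W : Tensor4 n} (hRic : Ric W = 0) : (Nm W).trace = 0 := by
  unfold Matrix.trace
  simp only [Matrix.diag_apply, Nm, Matrix.of_apply, Fintype.sum_prod_type]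
  apply Finset.sum_eq_zero; intro i _
  exact congrFun (congrFun hRic i) i

/-- the bound for the cubic form on Weyl tensors -/
lemma weyl_cube (hn : 4 ≤ n) {W : Tensor4 n} (hW : W ∈ curvSubmodule n) (hRic : Ric W = 0)
    {ν : ℝ} (hν : 0 ≤ ν) (hν2 : ((n : ℝ) - 2) / (2 * (n - 1)) ≤ ν ^ 2) (t₁ t₂ w : ℝ)
    (hw : w = √(ip W W)) :
    T3 W W W ≤ 3 * ((1 / 2) * w * ((1 / 2) * w ^ 2 + t₁ ^ 2 * ((n : ℝ) ^ 2 - n)) - t₁ * w ^ 2) +
      (ν * w * ((3 / 2) * w ^ 2 + t₂ ^ 2 * ((n : ℝ) ^ 2 + n)) - 3 * t₂ * w ^ 2) := by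
  set M := Mm W with hM
  set s := swp n with hs
  have hMt : M.transpose = M := Mm_symm hW
  have hst : s.transpose = s := swp_symm
  have hss : s * s = 1 := swp_sq
  have hsM : s * M = M * s := swp_Mm hW
  have hN : Nm W = M - M * s := Nm_eq hW
  have hw2 : w ^ 2 = ip W W := by rw [hw, Real.sq_sqrt (ip_self_nonneg W)]
  have cMs : Commute M s := hsM.symm
  have cu : Commute M (1 - s) := (Commute.one_right M).sub_right cMs
  have cv : Commute M (1 + s) := (Commute.one_right M).add_right cMs
  have huu : (1 - s) * (1 - s) = (2 : ℝ) • (1 - s) := by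
    rw [Matrix.sub_mul, Matrix.mul_sub, Matrix.mul_sub, hss, Matrix.one_mul, Matrix.one_mul,
      Matrix.mul_one]
    module
  have hvv : (1 + s) * (1 + s) = (2 : ℝ) • (1 + s) := by
    rw [Matrix.add_mul, Matrix.mul_add, Matrix.mul_add, hss, Matrix.one_mul, Matrix.one_mul,
      Matrix.mul_one]
    module
  have hut : (1 - s).transpose = 1 - s := by rw [Matrix.transpose_sub, hst, Matrix.transpose_one]
  have hvt : (1 + s).transpose = 1 + s := by rw [Matrix.transpose_add, hst, Matrix.transpose_one]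
  have hN' : Nm W = M * (1 - s) := by rw [hN, Matrix.mul_sub, Matrix.mul_one]
  -- traces
  have tM : M.trace = 0 := trace_Mm hW
  have tMu : (M * (1 - s)).trace = 0 := by rw [← hN', trace_Nm hRic]
  have tMs : (M * s).trace = 0 := by
    rw [Matrix.mul_sub, Matrix.mul_one, Matrix.trace_sub, tM] at tMu
    linarith
  have tMv : (M * (1 + s)).trace = 0 := by
    rw [Matrix.mul_add, Matrix.mul_one, Matrix.trace_add, tM, tMs]; ring
  have tMM : (M * M).trace = w ^ 2 := by rw [hw2]; exact trace_mul_self_Mm hW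
  have tMMu : (M * M * (1 - s)).trace = (1 / 2) * w ^ 2 := by
    have e1 : Nm W * Nm W = (2 : ℝ) • (M * M * (1 - s)) := by
      rw [hN']
      calc M * (1 - s) * (M * (1 - s)) = M * ((1 - s) * M) * (1 - s) := by
            simp only [Matrix.mul_assoc]
        _ = M * (M * (1 - s)) * (1 - s) := by rw [cu.eq]
        _ = M * M * ((1 - s) * (1 - s)) := by simp only [Matrix.mul_assoc]
        _ = _ := by rw [huu, Matrix.mul_smul]
    have e2 := trace_mul_self_Nm hW
    rw [e1, Matrix.trace_smul, smul_eq_mul, ← hw2] at e2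
    linarith
  have tMMs : (M * M * s).trace = (1 / 2) * w ^ 2 := by
    rw [Matrix.mul_sub, Matrix.mul_one, Matrix.trace_sub, tMM] at tMMu
    linarith
  have tMMv : (M * M * (1 + s)).trace = (3 / 2) * w ^ 2 := by
    rw [Matrix.mul_add, Matrix.mul_one, Matrix.trace_add, tMM, tMMs]; ring
  have tu : (1 - s).trace = (n : ℝ) ^ 2 - n := by
    rw [Matrix.trace_sub, trace_one', hs, trace_swp]
  have tv : (1 + s).trace = (n : ℝ) ^ 2 + n := by
    rw [Matrix.trace_add, trace_one', hs, trace_swp]
  -- T3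
  have hT : T3 W W W = 3 * (M * M * M * (1 - s)).trace + (M * M * M * (1 + s)).trace := by
    have e1 : Nm W * Nm W * Nm W = (4 : ℝ) • (M * M * M * (1 - s)) := by
      rw [hN']
      calc M * (1 - s) * (M * (1 - s)) * (M * (1 - s)) =
            M * ((1 - s) * M) * (((1 - s) * M) * (1 - s)) := by
            simp only [Matrix.mul_assoc]
        _ = M * (M * (1 - s)) * ((M * (1 - s)) * (1 - s)) := by rw [cu.eq]
        _ = M * M * (((1 - s) * M) * ((1 - s) * (1 - s))) := by simp only [Matrix.mul_assoc]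
        _ = M * M * ((M * (1 - s)) * ((1 - s) * (1 - s))) := by rw [cu.eq]
        _ = M * M * M * ((1 - s) * ((1 - s) * (1 - s))) := by simp only [Matrix.mul_assoc]
        _ = _ := by
            rw [huu, Matrix.mul_smul, huu, smul_smul, Matrix.mul_smul]; norm_num
    unfold T3
    rw [e1, Matrix.trace_smul, smul_eq_mul, ← hM, Matrix.mul_sub, Matrix.mul_add, Matrix.mul_one,
      Matrix.trace_sub, Matrix.trace_add]
    ring
  -- the two inequalities
  have key : ∀ (u : Matrix (Fin n × Fin n) (Fin n × Fin n) ℝ) (t : ℝ) (c : Fin n × Fin n),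
      ∑ a, ∑ b, ((M + t • 1) * u) a c * M a b * ((M + t • 1) * u) b c =
        form W (fun i k => ((M + t • 1) * u) (i, k) c) (fun i k => ((M + t • 1) * u) (i, k) c) := by
    intro u t c
    unfold form
    simp only [Fintype.sum_prod_type]
    apply Finset.sum_congr rfl; intro i _
    apply Finset.sum_congr rfl; intro k _
    apply Finset.sum_congr rfl; intro p _
    apply Finset.sum_congr rfl; intro q _
    have : M (i, k) (p, q) = W i p k q := rfl
    rw [this]; ring
  have key2 : ∀ (u : Matrix (Fin n × Fin n) (Fin n × Fin n) ℝ) (t : ℝ) (c : Fin n × Fin n),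
      ∑ a, ((M + t • 1) * u) a c ^ 2 =
        ip2 (fun i k => ((M + t • 1) * u) (i, k) c) (fun i k => ((M + t • 1) * u) (i, k) c) := by
    intro u t c
    unfold ip2
    simp only [Fintype.sum_prod_type, pow_two]
  have cs : ∀ t : ℝ, s * (M + t • 1) = (M + t • 1) * s := by
    intro t
    rw [Matrix.mul_add, Matrix.add_mul, hsM, Matrix.mul_smul, Matrix.smul_mul, Matrix.mul_one,
      Matrix.one_mul]
  have i1 := shift_ineq hMt hut cu huu (Λ := (1 / 2) * w) t₁ (by
    intro c
    rw [key, key2, hw]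
    apply anti_form_le hW
    intro i j
    have e1 : s * ((M + t₁ • 1) * (1 - s)) = - ((M + t₁ • 1) * (1 - s)) := by
      rw [← Matrix.mul_assoc, cs, Matrix.mul_assoc, Matrix.mul_sub, Matrix.mul_one, hss,
        ← Matrix.mul_neg, neg_sub]
    have e2 := congrFun (congrFun e1 (i, j)) c
    rw [hs, swp_mul] at e2
    rw [e2]; rfl)
  have i2 := shift_ineq hMt hvt cv hvv (Λ := ν * w) t₂ (by
    intro c
    rw [key, key2, hw]
    apply weyl_form_le hn hW hRic _ hν hν2
    intro i j
    have e1 : s * ((M + t₂ • 1) * (1 + s)) = (M + t₂ • 1) * (1 + s) := by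
      rw [← Matrix.mul_assoc, cs, Matrix.mul_assoc, Matrix.mul_add, Matrix.mul_one, hss,
        add_comm s 1]
    have e2 := congrFun (congrFun e1 (i, j)) c
    rw [hs, swp_mul] at e2
    exact e2)
  rw [tMMu, tMu, tu] at i1
  rw [tMMv, tMv, tv] at i2
  rw [hT]
  linarith

end Pool.Agent.RicciCone
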