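import Mathlib
import Pool.Agent.MP_952e48_gt.WeylCube2

set_option autoImplicit false

/-!
# The mixed cubic terms
-/

namespace Pool.Agent.RicciCone

open Finset

variable {n : ℕ}

lemma form_K_self {h : Fin n → Fin n → ℝ} (hs : ∀ i j, h j i = h i j) (htr : ∑ i, h i i = 0) :
    form (K h) h h = -2 * ip2 (h2 h) h := by
  have t1 : ∑ i, ∑ k, ∑ p, ∑ q, (h i k * h i k * h p q) * dl p q = 0 := by
    apply Finset.sum_eq_zero; intro i _
    apply Finset.sum_eq_zero; intro k _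
    have : ∀ p, ∑ q, (h i k * h i k * h p q) * dl p q = h i k * h i k * h p p := by
      intro p
      have : ∀ q, (h i k * h i k * h p q) * dl p q = (h i k * h i k * h p q) * dl q p :=
        fun q => by rw [dl_comm p q]
      simp only [this]
      exact sum_dl' (fun q => h i k * h i k * h p q) p
    simp only [this]
    rw [← Finset.mul_sum, htr, mul_zero]
  have t2 : ∑ i, ∑ k, ∑ p, ∑ q, (h p q * h i k * h p q) * dl i k = 0 := by
    have e : ∀ i, ∑ k, ∑ p, ∑ q, (h p q * h i k * h p q) * dl i k =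
        ∑ p, ∑ q, h p q * h i i * h p q := by
      intro i
      have e1 : ∀ k, ∑ p, ∑ q, (h p q * h i k * h p q) * dl i k =
          (∑ p, ∑ q, h p q * h i k * h p q) * dl k i := by
        intro k
        rw [Finset.sum_mul]
        apply Finset.sum_congr rfl; intro p _
        rw [Finset.sum_mul]
        apply Finset.sum_congr rfl; intro q _
        rw [dl_comm i k]
      simp only [e1]
      exact sum_dl' (fun k => ∑ p, ∑ q, h p q * h i k * h p q) i
    simp only [e]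
    have e3 : ∀ i, ∑ p, ∑ q, h p q * h i i * h p q = h i i * ∑ p, ∑ q, h p q * h p q := by
      intro i
      rw [Finset.mul_sum]
      apply Finset.sum_congr rfl; intro p _
      rw [Finset.mul_sum]
      apply Finset.sum_congr rfl; intro q _
      ring
    simp only [e3]
    rw [← Finset.sum_mul, htr, zero_mul]
  have t3 : ∑ i, ∑ k, ∑ p, ∑ q, (h i q * h i k * h p q) * dl p k = ip2 (h2 h) h := by
    -- = ∑ i k q, h i q h i k h k q
    have e : ∀ i k, ∑ p, ∑ q, (h i q * h i k * h p q) * dl p k =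
        ∑ q, h i q * h i k * h k q := by
      intro i k
      rw [Finset.sum_comm]
      apply Finset.sum_congr rfl; intro q _
      exact sum_dl' (fun p => h i q * h i k * h p q) k
    simp only [e]
    unfold ip2 h2
    apply Finset.sum_congr rfl; intro i _
    apply Finset.sum_congr rfl; intro k _
    rw [Finset.sum_mul]
    apply Finset.sum_congr rfl; intro q _
    rw [hs k q]; ring
  have t4 : ∑ i, ∑ k, ∑ p, ∑ q, (h p k * h i k * h p q) * dl i q = ip2 (h2 h) h := by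
    have e : ∀ i k p, ∑ q, (h p k * h i k * h p q) * dl i q = h p k * h i k * h p i := by
      intro i k p
      have : ∀ q, (h p k * h i k * h p q) * dl i q = (h p k * h i k * h p q) * dl q i :=
        fun q => by rw [dl_comm i q]
      simp only [this]
      exact sum_dl' (fun q => h p k * h i k * h p q) i
    simp only [e]
    unfold ip2 h2
    apply Finset.sum_congr rfl; intro i _
    apply Finset.sum_congr rfl; intro k _
    rw [Finset.sum_mul]
    apply Finset.sum_congr rfl; intro p _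
    rw [hs i p]; ring
  have e : form (K h) h h = ∑ i, ∑ k, ∑ p, ∑ q, (h i k * h i k * h p q) * dl p q +
      ∑ i, ∑ k, ∑ p, ∑ q, (h p q * h i k * h p q) * dl i k -
      ∑ i, ∑ k, ∑ p, ∑ q, (h i q * h i k * h p q) * dl p k -
      ∑ i, ∑ k, ∑ p, ∑ q, (h p k * h i k * h p q) * dl i q := by
    simp only [← Finset.sum_add_distrib, ← Finset.sum_sub_distrib]
    unfold form
    apply Finset.sum_congr rfl; intro i _
    apply Finset.sum_congr rfl; intro k _
    apply Finset.sum_congr rfl; intro p _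
    apply Finset.sum_congr rfl; intro q _
    simp only [K]; ring
  rw [e, t1, t2, t3, t4]; ring

lemma T3_S0 (hn : 4 ≤ n) {R : Tensor4 n} (h : R ∈ curvSubmodule n) :
    T3 (S0 R) (S0 R) (S0 R) = -(8 / ((n : ℝ) - 2) ^ 2) * ip2 (h2 (rr R)) (rr R) := by
  have h4 : (4 : ℝ) ≤ n := by exact_mod_cast hn
  have hn2 : (n : ℝ) - 2 ≠ 0 := by linarith
  have e1 : T3 (S0 R) (S0 R) (S0 R) = (1 / ((n : ℝ) - 2)) * T3 (S0 R) (S0 R) (K (rr R)) := by
    conv_lhs => rw [S0.eq_1 R]
    rw [T3_smul_right, ← S0.eq_1 R]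
  rw [e1, T3_K_diag (S0_mem h) (rr_symm h), Ric_S0 hn]
  have e2 : form (S0 R) (rr R) (rr R) = (1 / ((n : ℝ) - 2)) * form (K (rr R)) (rr R) (rr R) := by
    rw [S0.eq_1 R, form_smul_left]
  rw [e2, form_K_self (rr_symm h) (tr_rr hn R)]
  field_simp
  ring

lemma T3_SSW (hn : 4 ≤ n) {R : Tensor4 n} (h : R ∈ curvSubmodule n) :
    T3 (S0 R) (S0 R) (Wp R) = (2 / ((n : ℝ) - 2)) * form (Wp R) (rr R) (rr R) := by
  have h4 : (4 : ℝ) ≤ n := by exact_mod_cast hn
  have hn2 : (n : ℝ) - 2 ≠ 0 := by linarith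
  have e1 : T3 (S0 R) (S0 R) (Wp R) = (1 / ((n : ℝ) - 2)) * T3 (S0 R) (Wp R) (K (rr R)) := by
    rw [T3_swap23 (S0_mem h) (S0_mem h) (Wp_mem h)]
    conv_lhs => rw [S0.eq_1 R]
    rw [T3_smul_right, ← S0.eq_1 R]
  rw [e1, T3_K (S0_mem h) (Wp_mem h) (rr_symm h), Ric_S0 hn, Ric_Wp hn]
  have : form (S0 R) 0 (rr R) = 0 := by unfold form; simp
  rw [this]
  field_simp
  ring

/-- combination of two bounds -/
lemma sq_add_le {α β p q U V : ℝ} (hp : 0 ≤ p) (hq : 0 ≤ q) (hU : 0 ≤ U) (hV : 0 ≤ V)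
    (h1 : α ^ 2 ≤ p * U) (h2 : β ^ 2 ≤ q * V) : (α + β) ^ 2 ≤ (p + q) * (U + V) := by
  have h3 : (α * β) ^ 2 ≤ (p * V) * (q * U) := by
    rw [mul_pow]
    calc α ^ 2 * β ^ 2 ≤ (p * U) * (q * V) := mul_le_mul h1 h2 (sq_nonneg _) (by positivity)
      _ = (p * V) * (q * U) := by ring
  have h4 : 2 * (α * β) ≤ p * V + q * U := by
    have h5 : (2 * (α * β)) ^ 2 ≤ (p * V + q * U) ^ 2 := by
      nlinarith [sq_nonneg (p * V - q * U)]
    exact le_of_sq_le_sq h5 (by positivity)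
  nlinarith

/-- The bound for the mixed terms -/
lemma mixed_sq (hn : 4 ≤ n) {R : Tensor4 n} (h : R ∈ curvSubmodule n) :
    (T3 (S0 R) (S0 R) (S0 R) + 6 * T3 (S0 R) (S0 R) (Wp R)) ^ 2 ≤
      (64 / ((n : ℝ) - 2) ^ 2 * ip2 (rr R) (rr R) + 72 * n / ((n : ℝ) - 2) * ip (Wp R) (Wp R)) *
        (ip2 (rr R) (rr R) ^ 2 / (n * (n - 1))) := by
  have h4 : (4 : ℝ) ≤ n := by exact_mod_cast hn
  have hn1 : (n : ℝ) - 1 ≠ 0 := by linarith
  have hn2 : (n : ℝ) - 2 ≠ 0 := by linarith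
  have hn2' : (0 : ℝ) < (n : ℝ) - 2 := by linarith
  have hn1' : (0 : ℝ) < (n : ℝ) - 1 := by linarith
  have hn0 : (n : ℝ) ≠ 0 := by linarith
  have hs := rr_symm h
  have htr := tr_rr hn R
  have hP := ip2_self_nonneg (rr R)
  have hN := ip_self_nonneg (Wp R)
  have b1 := tau3_sq hn hs htr
  have b2 := weyl_form_sq hn (Wp_mem h) (Ric_Wp hn R) hs htr
  have b3 := tau4_ge hn hs
  rw [T3_S0 hn h, T3_SSW hn h]
  set P := ip2 (rr R) (rr R) with hPdef
  set N := ip (Wp R) (Wp R) with hNdef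
  set τ := ip2 (h2 (rr R)) (h2 (rr R)) with hτ
  set τ₃ := ip2 (h2 (rr R)) (rr R) with hτ₃
  set F := form (Wp R) (rr R) (rr R) with hF
  set V := ((n : ℝ) ^ 2 - 3 * n + 3) / (n * (n - 1)) * P ^ 2 - τ with hV
  have c1 : (-(8 / ((n : ℝ) - 2) ^ 2) * τ₃) ^ 2 ≤ (64 / ((n : ℝ) - 2) ^ 4 * P) * (τ - P ^ 2 / n) := by
    have e : (-(8 / ((n : ℝ) - 2) ^ 2) * τ₃) ^ 2 = 64 / ((n : ℝ) - 2) ^ 4 * τ₃ ^ 2 := by
      field_simp
      ring
    rw [e, mul_assoc]
    exact mul_le_mul_of_nonneg_left b1 (by positivity)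
  have c2 : (6 * (2 / ((n : ℝ) - 2) * F)) ^ 2 ≤ (72 * n / ((n : ℝ) - 2) ^ 3 * N) * V := by
    have e : (6 * (2 / ((n : ℝ) - 2) * F)) ^ 2 = 144 / ((n : ℝ) - 2) ^ 2 * F ^ 2 := by
      field_simp
      ring
    have e' : (72 * n / ((n : ℝ) - 2) ^ 3 * N) * V =
        144 / ((n : ℝ) - 2) ^ 2 * ((1 / 4) * N * ((2 * n / ((n : ℝ) - 2)) * V)) := by
      field_simp
      ring
    rw [e, e']
    exact mul_le_mul_of_nonneg_left b2 (by positivity)
  have hU : 0 ≤ τ - P ^ 2 / n := by linarith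
  rcases hN.eq_or_lt with hN0 | hN0
  · -- `N = 0`
    rw [← hN0] at c2 ⊢
    have c3 : 6 * (2 / ((n : ℝ) - 2) * F) = 0 := by
      have : (6 * (2 / ((n : ℝ) - 2) * F)) ^ 2 ≤ 0 := by simpa using c2
      exact pow_eq_zero_iff (two_ne_zero) |>.mp (le_antisymm this (sq_nonneg _))
    rw [c3, add_zero]
    refine c1.trans ?_
    -- need an upper bound for `τ`
    have hτle : τ - P ^ 2 / n ≤ ((n : ℝ) - 2) ^ 2 / (n * (n - 1)) * P ^ 2 := by
      -- from the nonnegativity of the Weyl part of `h ∧ h`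
      have := weyl_norm_nonneg hn hs htr
      rw [← hPdef, ← hτ] at this
      have e : ((n : ℝ) ^ 2 - 3 * n + 3) / (n * (n - 1)) * P ^ 2 =
        ((n : ℝ) - 2) ^ 2 / (n * (n - 1)) * P ^ 2 + P ^ 2 / n := by
        field_simp
        ring
      linarith
    calc 64 / ((n : ℝ) - 2) ^ 4 * P * (τ - P ^ 2 / n) ≤
          64 / ((n : ℝ) - 2) ^ 4 * P * (((n : ℝ) - 2) ^ 2 / (n * (n - 1)) * P ^ 2) :=
          mul_le_mul_of_nonneg_left hτle (by positivity)
      _ = _ := by field_simp; ring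
  · have hV0 : 0 ≤ V := by
      have : 0 ≤ (72 * n / ((n : ℝ) - 2) ^ 3 * N) * V := (sq_nonneg _).trans c2
      exact nonneg_of_mul_nonneg_right this (by positivity)
    have c3 := sq_add_le (by positivity) (by positivity) hU hV0 c1 c2
    refine c3.trans (le_of_eq ?_)
    rw [hV]
    field_simp
    ring

end Pool.Agent.RicciCone
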