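import Mathlib

set_option autoImplicit false

/-!
# Polynomial inequalities on `[0,1]`
-/

namespace Pool.Agent.RicciCone

lemma poly_four {y : ℝ} (h0 : 0 ≤ y) (h1 : y ≤ 1) :
    0 ≤ (4329/40000) * y ^ 0 + (553/800) * y ^ 2 + (-20349/2500) * y ^ 3 + (1081/64) * y ^ 4 + (-693/100) * y ^ 5 + (-5999/2500) * y ^ 6 := by
  rcases le_total y (1 / 2) with h | h
  · have e : (4329/40000) * y ^ 0 + (553/800) * y ^ 2 + (-20349/2500) * y ^ 3 + (1081/64) * y ^ 4 + (-693/100) * y ^ 5 + (-5999/2500) * y ^ 6 =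
        (4329 / 625) * ((y - 0) ^ 0 * ((1 / 2) - y) ^ 6) + (25974 / 625) * ((y - 0) ^ 1 * ((1 / 2) - y) ^ 5) + (28739 / 250) * ((y - 0) ^ 2 * ((1 / 2) - y) ^ 4) + (73532 / 625) * ((y - 0) ^ 3 * ((1 / 2) - y) ^ 3) + (424681 / 10000) * ((y - 0) ^ 4 * ((1 / 2) - y) ^ 2) + (11713 / 1000) * ((y - 0) ^ 5 * ((1 / 2) - y) ^ 1) + (1669 / 400) * ((y - 0) ^ 6 * ((1 / 2) - y) ^ 0) := by ring
    rw [e]
    have u0 : 0 ≤ y - 0 := by linarith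
    have v0 : 0 ≤ (1 / 2) - y := by linarith
    have hk : ∀ (c : ℝ) (i j : ℕ), 0 ≤ c → 0 ≤ c * ((y - 0) ^ i * ((1 / 2) - y) ^ j) := fun c i j hc =>
      mul_nonneg hc (mul_nonneg (pow_nonneg u0 i) (pow_nonneg v0 j))
    have k0 := hk (4329 / 625) 0 6 (by norm_num)
    have k1 := hk (25974 / 625) 1 5 (by norm_num)
    have k2 := hk (28739 / 250) 2 4 (by norm_num)
    have k3 := hk (73532 / 625) 3 3 (by norm_num)
    have k4 := hk (424681 / 10000) 4 2 (by norm_num)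
    have k5 := hk (11713 / 1000) 5 1 (by norm_num)
    have k6 := hk (1669 / 400) 6 0 (by norm_num)
    linarith
  · have e : (4329/40000) * y ^ 0 + (553/800) * y ^ 2 + (-20349/2500) * y ^ 3 + (1081/64) * y ^ 4 + (-693/100) * y ^ 5 + (-5999/2500) * y ^ 6 =
        (1669 / 400) * ((y - (1 / 2)) ^ 0 * (1 - y) ^ 6) + (38357 / 1000) * ((y - (1 / 2)) ^ 1 * (1 - y) ^ 5) + (1756881 / 10000) * ((y - (1 / 2)) ^ 2 * (1 - y) ^ 4) + (526467 / 1250) * ((y - (1 / 2)) ^ 3 * (1 - y) ^ 3) + (307902 / 625) * ((y - (1 / 2)) ^ 4 * (1 - y) ^ 2) + (143444 / 625) * ((y - (1 / 2)) ^ 5 * (1 - y) ^ 1) + (8836 / 625) * ((y - (1 / 2)) ^ 6 * (1 - y) ^ 0) := by ring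
    rw [e]
    have u0 : 0 ≤ y - (1 / 2) := by linarith
    have v0 : 0 ≤ 1 - y := by linarith
    have hk : ∀ (c : ℝ) (i j : ℕ), 0 ≤ c → 0 ≤ c * ((y - (1 / 2)) ^ i * (1 - y) ^ j) := fun c i j hc =>
      mul_nonneg hc (mul_nonneg (pow_nonneg u0 i) (pow_nonneg v0 j))
    have k0 := hk (1669 / 400) 0 6 (by norm_num)
    have k1 := hk (38357 / 1000) 1 5 (by norm_num)
    have k2 := hk (1756881 / 10000) 2 4 (by norm_num)
    have k3 := hk (526467 / 1250) 3 3 (by norm_num)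
    have k4 := hk (307902 / 625) 4 2 (by norm_num)
    have k5 := hk (143444 / 625) 5 1 (by norm_num)
    have k6 := hk (8836 / 625) 6 0 (by norm_num)
    linarith

lemma poly_gen0 {y : ℝ} (h0 : 0 ≤ y) (h1 : y ≤ 1) :
    0 ≤ (6910561/10000) * y ^ 0 + (359777/50) * y ^ 2 + (-6726051/125) * y ^ 3 + (118969) * y ^ 4 + (-414828/5) * y ^ 5 + (266064/25) * y ^ 6 := by
  rcases le_total y (1 / 2) with h | h
  · have e : (6910561/10000) * y ^ 0 + (359777/50) * y ^ 2 + (-6726051/125) * y ^ 3 + (118969) * y ^ 4 + (-414828/5) * y ^ 5 + (266064/25) * y ^ 6 =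
        (27642244 / 625) * ((y - 0) ^ 0 * ((1 / 2) - y) ^ 6) + (165853464 / 625) * ((y - 0) ^ 1 * ((1 / 2) - y) ^ 5) + (97317812 / 125) * ((y - 0) ^ 2 * ((1 / 2) - y) ^ 4) + (114324888 / 125) * ((y - 0) ^ 3 * ((1 / 2) - y) ^ 3) + (67332488 / 125) * ((y - 0) ^ 4 * ((1 / 2) - y) ^ 2) + (137686944 / 625) * ((y - 0) ^ 5 * ((1 / 2) - y) ^ 1) + (30922704 / 625) * ((y - 0) ^ 6 * ((1 / 2) - y) ^ 0) := by ring
    rw [e]
    have u0 : 0 ≤ y - 0 := by linarith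
    have v0 : 0 ≤ (1 / 2) - y := by linarith
    have hk : ∀ (c : ℝ) (i j : ℕ), 0 ≤ c → 0 ≤ c * ((y - 0) ^ i * ((1 / 2) - y) ^ j) := fun c i j hc =>
      mul_nonneg hc (mul_nonneg (pow_nonneg u0 i) (pow_nonneg v0 j))
    have k0 := hk (27642244 / 625) 0 6 (by norm_num)
    have k1 := hk (165853464 / 625) 1 5 (by norm_num)
    have k2 := hk (97317812 / 125) 2 4 (by norm_num)
    have k3 := hk (114324888 / 125) 3 3 (by norm_num)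
    have k4 := hk (67332488 / 125) 4 2 (by norm_num)
    have k5 := hk (137686944 / 625) 5 1 (by norm_num)
    have k6 := hk (30922704 / 625) 6 0 (by norm_num)
    linarith
  · have e : (6910561/10000) * y ^ 0 + (359777/50) * y ^ 2 + (-6726051/125) * y ^ 3 + (118969) * y ^ 4 + (-414828/5) * y ^ 5 + (266064/25) * y ^ 6 =
        (30922704 / 625) * ((y - (1 / 2)) ^ 0 * (1 - y) ^ 6) + (233385504 / 625) * ((y - (1 / 2)) ^ 1 * (1 - y) ^ 5) + (163031048 / 125) * ((y - (1 / 2)) ^ 2 * (1 - y) ^ 4) + (312365992 / 125) * ((y - (1 / 2)) ^ 3 * (1 - y) ^ 3) + (308646884 / 125) * ((y - (1 / 2)) ^ 4 * (1 - y) ^ 2) + (616411224 / 625) * ((y - (1 / 2)) ^ 5 * (1 - y) ^ 1) + (28965924 / 625) * ((y - (1 / 2)) ^ 6 * (1 - y) ^ 0) := by ring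
    rw [e]
    have u0 : 0 ≤ y - (1 / 2) := by linarith
    have v0 : 0 ≤ 1 - y := by linarith
    have hk : ∀ (c : ℝ) (i j : ℕ), 0 ≤ c → 0 ≤ c * ((y - (1 / 2)) ^ i * (1 - y) ^ j) := fun c i j hc =>
      mul_nonneg hc (mul_nonneg (pow_nonneg u0 i) (pow_nonneg v0 j))
    have k0 := hk (30922704 / 625) 0 6 (by norm_num)
    have k1 := hk (233385504 / 625) 1 5 (by norm_num)
    have k2 := hk (163031048 / 125) 2 4 (by norm_num)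
    have k3 := hk (312365992 / 125) 3 3 (by norm_num)
    have k4 := hk (308646884 / 125) 4 2 (by norm_num)
    have k5 := hk (616411224 / 625) 5 1 (by norm_num)
    have k6 := hk (28965924 / 625) 6 0 (by norm_num)
    linarith

lemma poly_gen1 {y : ℝ} (h0 : 0 ≤ y) (h1 : y ≤ 1) :
    0 ≤ (272269/1000) * y ^ 0 + (266469/50) * y ^ 2 + (-3926499/500) * y ^ 3 + (59496) * y ^ 4 + (-250239/5) * y ^ 5 + (-93742/25) * y ^ 6 := by
  have e : (272269/1000) * y ^ 0 + (266469/50) * y ^ 2 + (-3926499/500) * y ^ 3 + (59496) * y ^ 4 + (-250239/5) * y ^ 5 + (-93742/25) * y ^ 6 =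
      (272269 / 1000) * ((y - 0) ^ 0 * (1 - y) ^ 6) + (816807 / 500) * ((y - 0) ^ 1 * (1 - y) ^ 5) + (1882683 / 200) * ((y - 0) ^ 2 * (1 - y) ^ 4) + (9454951 / 500) * ((y - 0) ^ 3 * (1 - y) ^ 3) + (71997321 / 1000) * ((y - 0) ^ 4 * (1 - y) ^ 2) + (3416817 / 50) * ((y - 0) ^ 5 * (1 - y) ^ 1) + (3447171 / 1000) * ((y - 0) ^ 6 * (1 - y) ^ 0) := by ring
  rw [e]
  have u0 : 0 ≤ y - 0 := by linarith
  have v0 : 0 ≤ 1 - y := by linarith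
  have hk : ∀ (c : ℝ) (i j : ℕ), 0 ≤ c → 0 ≤ c * ((y - 0) ^ i * (1 - y) ^ j) := fun c i j hc =>
    mul_nonneg hc (mul_nonneg (pow_nonneg u0 i) (pow_nonneg v0 j))
  have k0 := hk (272269 / 1000) 0 6 (by norm_num)
  have k1 := hk (816807 / 500) 1 5 (by norm_num)
  have k2 := hk (1882683 / 200) 2 4 (by norm_num)
  have k3 := hk (9454951 / 500) 3 3 (by norm_num)
  have k4 := hk (71997321 / 1000) 4 2 (by norm_num)
  have k5 := hk (3416817 / 50) 5 1 (by norm_num)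
  have k6 := hk (3447171 / 1000) 6 0 (by norm_num)
  linarith

lemma poly_gen2 {y : ℝ} (h0 : 0 ≤ y) (h1 : y ≤ 1) :
    0 ≤ (9801/400) * y ^ 0 + (10147/10) * y ^ 2 + (-17741/50) * y ^ 3 + (10526) * y ^ 4 + (-34171/5) * y ^ 5 + (-3159/100) * y ^ 6 := by
  have e : (9801/400) * y ^ 0 + (10147/10) * y ^ 2 + (-17741/50) * y ^ 3 + (10526) * y ^ 4 + (-34171/5) * y ^ 5 + (-3159/100) * y ^ 6 =
      (9801 / 400) * ((y - 0) ^ 0 * (1 - y) ^ 6) + (29403 / 200) * ((y - 0) ^ 1 * (1 - y) ^ 5) + (110579 / 80) * ((y - 0) ^ 2 * (1 - y) ^ 4) + (419403 / 100) * ((y - 0) ^ 3 * (1 - y) ^ 3) + (6366911 / 400) * ((y - 0) ^ 4 * (1 - y) ^ 2) + (3471831 / 200) * ((y - 0) ^ 5 * (1 - y) ^ 1) + (1737837 / 400) * ((y - 0) ^ 6 * (1 - y) ^ 0) := by ring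
  rw [e]
  have u0 : 0 ≤ y - 0 := by linarith
  have v0 : 0 ≤ 1 - y := by linarith
  have hk : ∀ (c : ℝ) (i j : ℕ), 0 ≤ c → 0 ≤ c * ((y - 0) ^ i * (1 - y) ^ j) := fun c i j hc =>
    mul_nonneg hc (mul_nonneg (pow_nonneg u0 i) (pow_nonneg v0 j))
  have k0 := hk (9801 / 400) 0 6 (by norm_num)
  have k1 := hk (29403 / 200) 1 5 (by norm_num)
  have k2 := hk (110579 / 80) 2 4 (by norm_num)
  have k3 := hk (419403 / 100) 3 3 (by norm_num)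
  have k4 := hk (6366911 / 400) 4 2 (by norm_num)
  have k5 := hk (3471831 / 200) 5 1 (by norm_num)
  have k6 := hk (1737837 / 400) 6 0 (by norm_num)
  linarith

lemma poly_gen3 {y : ℝ} (h0 : 0 ≤ y) (h1 : y ≤ 1) :
    0 ≤ (99/2) * y ^ 2 + (-99/20) * y ^ 3 + (840) * y ^ 4 + (-333) * y ^ 5 + (249/10) * y ^ 6 := by
  have e : (99/2) * y ^ 2 + (-99/20) * y ^ 3 + (840) * y ^ 4 + (-333) * y ^ 5 + (249/10) * y ^ 6 =
      0 * ((y - 0) ^ 0 * (1 - y) ^ 6) + 0 * ((y - 0) ^ 1 * (1 - y) ^ 5) + (99 / 2) * ((y - 0) ^ 2 * (1 - y) ^ 4) + (3861 / 20) * ((y - 0) ^ 3 * (1 - y) ^ 3) + (22443 / 20) * ((y - 0) ^ 4 * (1 - y) ^ 2) + (30603 / 20) * ((y - 0) ^ 5 * (1 - y) ^ 1) + (11529 / 20) * ((y - 0) ^ 6 * (1 - y) ^ 0) := by ring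
  rw [e]
  have u0 : 0 ≤ y - 0 := by linarith
  have v0 : 0 ≤ 1 - y := by linarith
  have hk : ∀ (c : ℝ) (i j : ℕ), 0 ≤ c → 0 ≤ c * ((y - 0) ^ i * (1 - y) ^ j) := fun c i j hc =>
    mul_nonneg hc (mul_nonneg (pow_nonneg u0 i) (pow_nonneg v0 j))
  have k0 := hk 0 0 6 (by norm_num)
  have k1 := hk 0 1 5 (by norm_num)
  have k2 := hk (99 / 2) 2 4 (by norm_num)
  have k3 := hk (3861 / 20) 3 3 (by norm_num)
  have k4 := hk (22443 / 20) 4 2 (by norm_num)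
  have k5 := hk (30603 / 20) 5 1 (by norm_num)
  have k6 := hk (11529 / 20) 6 0 (by norm_num)
  linarith

lemma poly_gen4 {y : ℝ} (h0 : 0 ≤ y) (h1 : y ≤ 1) :
    0 ≤ (25) * y ^ 4 + (-5) * y ^ 5 + (1/4) * y ^ 6 := by
  have e : (25) * y ^ 4 + (-5) * y ^ 5 + (1/4) * y ^ 6 =
      0 * ((y - 0) ^ 0 * (1 - y) ^ 6) + 0 * ((y - 0) ^ 1 * (1 - y) ^ 5) + 0 * ((y - 0) ^ 2 * (1 - y) ^ 4) + 0 * ((y - 0) ^ 3 * (1 - y) ^ 3) + 25 * ((y - 0) ^ 4 * (1 - y) ^ 2) + 45 * ((y - 0) ^ 5 * (1 - y) ^ 1) + (81 / 4) * ((y - 0) ^ 6 * (1 - y) ^ 0) := by ring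
  rw [e]
  have u0 : 0 ≤ y - 0 := by linarith
  have v0 : 0 ≤ 1 - y := by linarith
  have hk : ∀ (c : ℝ) (i j : ℕ), 0 ≤ c → 0 ≤ c * ((y - 0) ^ i * (1 - y) ^ j) := fun c i j hc =>
    mul_nonneg hc (mul_nonneg (pow_nonneg u0 i) (pow_nonneg v0 j))
  have k0 := hk 0 0 6 (by norm_num)
  have k1 := hk 0 1 5 (by norm_num)
  have k2 := hk 0 2 4 (by norm_num)
  have k3 := hk 0 3 3 (by norm_num)
  have k4 := hk 25 4 2 (by norm_num)
  have k5 := hk 45 5 1 (by norm_num)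
  have k6 := hk (81 / 4) 6 0 (by norm_num)
  linarith

lemma lin_four {y : ℝ} (h0 : 0 ≤ y) (h1 : y ≤ 1) :
    0 ≤ (323/200) * y ^ 0 + (11/8) * y ^ 2 + (-63/25) * y ^ 3 := by
  have e : (323/200) * y ^ 0 + (11/8) * y ^ 2 + (-63/25) * y ^ 3 =
      (323 / 200) * ((y - 0) ^ 0 * (1 - y) ^ 3) + (969 / 200) * ((y - 0) ^ 1 * (1 - y) ^ 2) + (311 / 50) * ((y - 0) ^ 2 * (1 - y) ^ 1) + (47 / 100) * ((y - 0) ^ 3 * (1 - y) ^ 0) := by ring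
  rw [e]
  have u0 : 0 ≤ y - 0 := by linarith
  have v0 : 0 ≤ 1 - y := by linarith
  have hk : ∀ (c : ℝ) (i j : ℕ), 0 ≤ c → 0 ≤ c * ((y - 0) ^ i * (1 - y) ^ j) := fun c i j hc =>
    mul_nonneg hc (mul_nonneg (pow_nonneg u0 i) (pow_nonneg v0 j))
  have k0 := hk (323 / 200) 0 3 (by norm_num)
  have k1 := hk (969 / 200) 1 2 (by norm_num)
  have k2 := hk (311 / 50) 2 1 (by norm_num)
  have k3 := hk (47 / 100) 3 0 (by norm_num)
  linarith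

lemma lin_gen0 {y : ℝ} (h0 : 0 ≤ y) (h1 : y ≤ 1) :
    0 ≤ (10831/100) * y ^ 0 + (167) * y ^ 2 + (-1242/5) * y ^ 3 := by
  have e : (10831/100) * y ^ 0 + (167) * y ^ 2 + (-1242/5) * y ^ 3 =
      (10831 / 100) * ((y - 0) ^ 0 * (1 - y) ^ 3) + (32493 / 100) * ((y - 0) ^ 1 * (1 - y) ^ 2) + (49193 / 100) * ((y - 0) ^ 2 * (1 - y) ^ 1) + (2691 / 100) * ((y - 0) ^ 3 * (1 - y) ^ 0) := by ring
  rw [e]
  have u0 : 0 ≤ y - 0 := by linarith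
  have v0 : 0 ≤ 1 - y := by linarith
  have hk : ∀ (c : ℝ) (i j : ℕ), 0 ≤ c → 0 ≤ c * ((y - 0) ^ i * (1 - y) ^ j) := fun c i j hc =>
    mul_nonneg hc (mul_nonneg (pow_nonneg u0 i) (pow_nonneg v0 j))
  have k0 := hk (10831 / 100) 0 3 (by norm_num)
  have k1 := hk (32493 / 100) 1 2 (by norm_num)
  have k2 := hk (49193 / 100) 2 1 (by norm_num)
  have k3 := hk (2691 / 100) 3 0 (by norm_num)
  linarith

lemma lin_gen1 {y : ℝ} (h0 : 0 ≤ y) (h1 : y ≤ 1) :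
    0 ≤ (99/20) * y ^ 0 + (84) * y ^ 2 + (-249/10) * y ^ 3 := by
  have e : (99/20) * y ^ 0 + (84) * y ^ 2 + (-249/10) * y ^ 3 =
      (99 / 20) * ((y - 0) ^ 0 * (1 - y) ^ 3) + (297 / 20) * ((y - 0) ^ 1 * (1 - y) ^ 2) + (1977 / 20) * ((y - 0) ^ 2 * (1 - y) ^ 1) + (1281 / 20) * ((y - 0) ^ 3 * (1 - y) ^ 0) := by ring
  rw [e]
  have u0 : 0 ≤ y - 0 := by linarith
  have v0 : 0 ≤ 1 - y := by linarith
  have hk : ∀ (c : ℝ) (i j : ℕ), 0 ≤ c → 0 ≤ c * ((y - 0) ^ i * (1 - y) ^ j) := fun c i j hc =>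
    mul_nonneg hc (mul_nonneg (pow_nonneg u0 i) (pow_nonneg v0 j))
  have k0 := hk (99 / 20) 0 3 (by norm_num)
  have k1 := hk (297 / 20) 1 2 (by norm_num)
  have k2 := hk (1977 / 20) 2 1 (by norm_num)
  have k3 := hk (1281 / 20) 3 0 (by norm_num)
  linarith

lemma lin_gen2 {y : ℝ} (h0 : 0 ≤ y) (h1 : y ≤ 1) :
    0 ≤ (5) * y ^ 2 + (-1/2) * y ^ 3 := by
  have e : (5) * y ^ 2 + (-1/2) * y ^ 3 =
      0 * ((y - 0) ^ 0 * (1 - y) ^ 3) + 0 * ((y - 0) ^ 1 * (1 - y) ^ 2) + 5 * ((y - 0) ^ 2 * (1 - y) ^ 1) + (9 / 2) * ((y - 0) ^ 3 * (1 - y) ^ 0) := by ring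
  rw [e]
  have u0 : 0 ≤ y - 0 := by linarith
  have v0 : 0 ≤ 1 - y := by linarith
  have hk : ∀ (c : ℝ) (i j : ℕ), 0 ≤ c → 0 ≤ c * ((y - 0) ^ i * (1 - y) ^ j) := fun c i j hc =>
    mul_nonneg hc (mul_nonneg (pow_nonneg u0 i) (pow_nonneg v0 j))
  have k0 := hk 0 0 3 (by norm_num)
  have k1 := hk 0 1 2 (by norm_num)
  have k2 := hk 5 2 1 (by norm_num)
  have k3 := hk (9 / 2) 3 0 (by norm_num)
  linarith

end Pool.Agent.RicciCone
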