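import Mathlib
import Pool.Agent.MP_952e48_gt.Mixed
import Pool.Agent.MP_952e48_gt.Poly

set_option autoImplicit false

/-!
# The ellipsoidal cones are pinching cones
-/

namespace Pool.Agent.RicciCone

open Finset

/-- the scalar conditions -/
structure ScalarCond (ε g n c : ℝ) : Prop where
  lin : ∀ y : ℝ, 0 ≤ y → y ≤ 1 → 0 ≤ (1 - ε) + g + (n - 2 - g) * y ^ 2 - c * y ^ 3
  sqr : ∀ y : ℝ, 0 ≤ y → y ≤ 1 → (1 - y ^ 2) ^ 2 * (g * (4 + (9 / 2 * n - 4) * y ^ 2)) ≤
    ((1 - ε) + g + (n - 2 - g) * y ^ 2 - c * y ^ 3) ^ 2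

lemma cond_four : ScalarCond (1 / 100) (5 / 8) 4 (252 / 100) := by
  refine ⟨fun y h0 h1 => ?_, fun y h0 h1 => ?_⟩
  · have := lin_four h0 h1
    nlinarith [this]
  · have := poly_four h0 h1
    nlinarith [this]

lemma cond_gen {m : ℝ} (hm : 0 ≤ m) :
    ScalarCond (1 / 100) (40 / (69 + 5 * m)) (5 + m) (36 / 10 + m / 10) := by
  have hD : 0 < 69 + 5 * m := by linarith
  refine ⟨fun y h0 h1 => ?_, fun y h0 h1 => ?_⟩
  · have a0 := lin_gen0 h0 h1
    have a1 := mul_nonneg hm (lin_gen1 h0 h1)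
    have a2 := mul_nonneg (pow_nonneg hm 2) (lin_gen2 h0 h1)
    have e : (1 - 1 / 100) + 40 / (69 + 5 * m) + (5 + m - 2 - 40 / (69 + 5 * m)) * y ^ 2 -
        (36 / 10 + m / 10) * y ^ 3 =
        (((10831/100) * y ^ 0 + (167) * y ^ 2 + (-1242/5) * y ^ 3) +
          m * ((99/20) * y ^ 0 + (84) * y ^ 2 + (-249/10) * y ^ 3) +
          m ^ 2 * ((5) * y ^ 2 + (-1/2) * y ^ 3)) / (69 + 5 * m) := by
      field_simp
      ring
    rw [e]
    apply div_nonneg _ hD.le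
    linarith
  · have a0 := poly_gen0 h0 h1
    have a1 := mul_nonneg hm (poly_gen1 h0 h1)
    have a2 := mul_nonneg (pow_nonneg hm 2) (poly_gen2 h0 h1)
    have a3 := mul_nonneg (pow_nonneg hm 3) (poly_gen3 h0 h1)
    have a4 := mul_nonneg (pow_nonneg hm 4) (poly_gen4 h0 h1)
    have e : ((1 - 1 / 100) + 40 / (69 + 5 * m) + (5 + m - 2 - 40 / (69 + 5 * m)) * y ^ 2 -
        (36 / 10 + m / 10) * y ^ 3) ^ 2 -
        (1 - y ^ 2) ^ 2 * (40 / (69 + 5 * m) * (4 + (9 / 2 * (5 + m) - 4) * y ^ 2)) =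
        (((6910561/10000) * y ^ 0 + (359777/50) * y ^ 2 + (-6726051/125) * y ^ 3 +
            (118969) * y ^ 4 + (-414828/5) * y ^ 5 + (266064/25) * y ^ 6) +
          m * ((272269/1000) * y ^ 0 + (266469/50) * y ^ 2 + (-3926499/500) * y ^ 3 +
            (59496) * y ^ 4 + (-250239/5) * y ^ 5 + (-93742/25) * y ^ 6) +
          m ^ 2 * ((9801/400) * y ^ 0 + (10147/10) * y ^ 2 + (-17741/50) * y ^ 3 +
            (10526) * y ^ 4 + (-34171/5) * y ^ 5 + (-3159/100) * y ^ 6) +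
          m ^ 3 * ((99/2) * y ^ 2 + (-99/20) * y ^ 3 + (840) * y ^ 4 + (-333) * y ^ 5 +
            (249/10) * y ^ 6) +
          m ^ 4 * ((25) * y ^ 4 + (-5) * y ^ 5 + (1/4) * y ^ 6)) / (69 + 5 * m) ^ 2 := by
      field_simp
      ring
    have : 0 ≤ ((1 - 1 / 100) + 40 / (69 + 5 * m) + (5 + m - 2 - 40 / (69 + 5 * m)) * y ^ 2 -
        (36 / 10 + m / 10) * y ^ 3) ^ 2 -
        (1 - y ^ 2) ^ 2 * (40 / (69 + 5 * m) * (4 + (9 / 2 * (5 + m) - 4) * y ^ 2)) := by
      rw [e]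
      apply div_nonneg _ (by positivity)
      linarith
    linarith

lemma scalar_combine {ε g n c X Y T D : ℝ} (h : ScalarCond ε g n c) (hX : 0 ≤ X) (hY : 0 ≤ Y)
    (hT : T ^ 2 ≤ X ^ 2 * (g * (4 * X + 9 / 2 * n * Y))) (hD : D ≤ c * (√Y) ^ 3) :
    T + D ≤ √(X + Y) * ((1 - ε) * (X + Y) + g * X + (n - 2) * Y) := by
  set s := √(X + Y) with hs
  have hs0 : 0 ≤ s := Real.sqrt_nonneg _
  have hs2 : s ^ 2 = X + Y := Real.sq_sqrt (by linarith)
  have hY2 : (√Y) ^ 2 = Y := Real.sq_sqrt hY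
  rcases hs0.eq_or_lt with h0 | hpos
  · have hXY : X + Y = 0 := by rw [← hs2, ← h0]; ring
    have hX0 : X = 0 := by linarith
    have hY0 : Y = 0 := by linarith
    rw [hX0] at hT
    have hT0 : T = 0 := by
      have : T ^ 2 ≤ 0 := by nlinarith
      exact pow_eq_zero_iff (two_ne_zero) |>.mp (le_antisymm this (sq_nonneg _))
    rw [hY0, Real.sqrt_zero] at hD
    rw [← h0, hT0]
    nlinarith
  · set y := √Y / s with hy
    have hyY : √Y = s * y := by rw [hy]; field_simp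
    have hy0 : 0 ≤ y := div_nonneg (Real.sqrt_nonneg _) hs0
    have hYy : Y = s ^ 2 * y ^ 2 := by rw [← hY2, hyY]; ring
    have hXy : X = s ^ 2 * (1 - y ^ 2) := by linarith
    have hy1 : y ≤ 1 := by
      rw [hy, div_le_one hpos]
      exact Real.sqrt_le_sqrt (by linarith)
    have h1 := h.lin y hy0 hy1
    have h2 := h.sqr y hy0 hy1
    set r := (1 - ε) + g + (n - 2 - g) * y ^ 2 - c * y ^ 3 with hr
    have h3 : T ^ 2 ≤ (s ^ 3 * r) ^ 2 := by
      refine hT.trans ?_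
      rw [hXy, hYy]
      have e1 : (s ^ 2 * (1 - y ^ 2)) ^ 2 * (g * (4 * (s ^ 2 * (1 - y ^ 2)) +
          9 / 2 * n * (s ^ 2 * y ^ 2))) =
          s ^ 6 * ((1 - y ^ 2) ^ 2 * (g * (4 + (9 / 2 * n - 4) * y ^ 2))) := by ring
      rw [e1, mul_pow]
      calc s ^ 6 * ((1 - y ^ 2) ^ 2 * (g * (4 + (9 / 2 * n - 4) * y ^ 2))) ≤ s ^ 6 * r ^ 2 :=
            mul_le_mul_of_nonneg_left h2 (by positivity)
        _ = (s ^ 3) ^ 2 * r ^ 2 := by ring
    have h4 : T ≤ s ^ 3 * r := le_of_sq_le_sq h3 (by positivity)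
    have h5 : D ≤ c * (s ^ 3 * y ^ 3) := by
      rw [hyY] at hD
      calc D ≤ c * (s * y) ^ 3 := hD
        _ = c * (s ^ 3 * y ^ 3) := by ring
    have e2 : s * ((1 - ε) * (X + Y) + g * X + (n - 2) * Y) = s ^ 3 * r + c * (s ^ 3 * y ^ 3) := by
      rw [← hs2, hXy, hYy, hr]; ring
    rw [e2]
    linarith

variable {n : ℕ}

lemma weyl_cube_four {W : Tensor4 4} (hW : W ∈ curvSubmodule 4) (hRic : Ric W = 0) :
    T3 W W W ≤ (12963 / 10000) * (√(ip W W)) ^ 3 := by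
  have h := weyl_cube (le_refl 4) hW hRic (ν := 5774 / 10000) (by norm_num) (by norm_num)
    (√(ip W W) / 12) ((13 / 100) * √(ip W W)) (√(ip W W)) rfl
  have hw := Real.sqrt_nonneg (ip W W)
  have hw3 : 0 ≤ (√(ip W W)) ^ 3 := by positivity
  push_cast at h
  nlinarith

lemma weyl_cube_gen (hn : 5 ≤ n) {W : Tensor4 n} (hW : W ∈ curvSubmodule n) (hRic : Ric W = 0) :
    T3 W W W ≤ (18108 / 10000) * (√(ip W W)) ^ 3 := by
  have h4 : (5 : ℝ) ≤ n := by exact_mod_cast hn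
  have h := weyl_cube (by omega) hW hRic (ν := 7072 / 10000) (by norm_num) (by
    rw [div_le_iff₀ (by linarith)]
    nlinarith)
    0 0 (√(ip W W)) rfl
  have hw := Real.sqrt_nonneg (ip W W)
  have hw3 : 0 ≤ (√(ip W W)) ^ 3 := by positivity
  nlinarith

/-- the ellipsoidal cones satisfy the criterion -/
lemma exists_ellipsoid (hn : 4 ≤ n) {ε g c β : ℝ} (hε : 0 < ε) (hεg : ε ≤ 1 - g) (hg : 0 < g)
    (hc : 0 ≤ c) (hβ : 0 ≤ β)
    (hcond : ScalarCond ε g n c)
    (hcube : ∀ W ∈ curvSubmodule n, Ric W = 0 → T3 W W W ≤ β * (√(ip W W)) ^ 3)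
    (hβc : β ^ 2 * (g * n * (n - 1)) ≤ c ^ 2 * (n - 2))
    {κ : ℝ} (hκ : 0 < κ) (hκ2 : κ ^ 2 = ((n : ℝ) - 2) / (4 * g * n * (n - 1))) :
    IsPinchingCone (coneC (alphaC n) (phiC n κ (2 * κ))) := by
  have h4 : (4 : ℝ) ≤ n := by exact_mod_cast hn
  have hn1 : (0 : ℝ) < (n : ℝ) - 1 := by linarith
  have hn2 : (0 : ℝ) < (n : ℝ) - 2 := by linarith
  have hn0 : (0 : ℝ) < (n : ℝ) := by linarith
  have hgq : gq n κ = g := by
    unfold gq
    rw [hκ2]
    field_simp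
  have hβκ : β ≤ c * (2 * κ) := by
    have : β ^ 2 ≤ (c * (2 * κ)) ^ 2 := by
      have e : (c * (2 * κ)) ^ 2 = c ^ 2 * (n - 2) / (g * n * (n - 1)) := by
        have : (c * (2 * κ)) ^ 2 = 4 * c ^ 2 * κ ^ 2 := by ring
        rw [this, hκ2]
        field_simp
      rw [e, le_div_iff₀ (by positivity)]
      exact hβc
    exact le_of_sq_le_sq this (by positivity)
  obtain ⟨θ, ρ, h⟩ := exists_pinchData hn (κ₁ := κ) (κ₂ := 2 * κ) (ε := ε) hκ (by linarith) hε
    (by rw [hgq]; exact hεg) (by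
      intro R hR X Y hX hY
      rw [hgq]
      have hN := ip_self_nonneg (Wp R)
      have hP := ip2_self_nonneg (rr R)
      have hX0 : 0 ≤ X := by rw [hX]; have := ip_self_nonneg (S0 R); positivity
      have hY0 : 0 ≤ Y := by rw [hY]; positivity
      have ecub : cubic κ (2 * κ) R = κ ^ 2 * (T3 (S0 R) (S0 R) (S0 R) +
          6 * T3 (S0 R) (S0 R) (Wp R)) + 4 * κ ^ 2 * T3 (Wp R) (Wp R) (Wp R) := by
        unfold cubic; ring
      rw [ecub]
      apply scalar_combine hcond hX0 hY0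
      · have hm := mixed_sq hn hR
        have e1 : (κ ^ 2 * (T3 (S0 R) (S0 R) (S0 R) + 6 * T3 (S0 R) (S0 R) (Wp R))) ^ 2 =
            κ ^ 4 * (T3 (S0 R) (S0 R) (S0 R) + 6 * T3 (S0 R) (S0 R) (Wp R)) ^ 2 := by ring
        rw [e1]
        refine (mul_le_mul_of_nonneg_left hm (by positivity)).trans (le_of_eq ?_)
        rw [hX, hY, ip_S0_S0 hn hR]
        have hκ4 : κ ^ 4 = (((n : ℝ) - 2) / (4 * g * n * (n - 1))) ^ 2 := by
          rw [← hκ2]; ring
        have hk : (2 * κ) ^ 2 = 4 * (((n : ℝ) - 2) / (4 * g * n * (n - 1))) := by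
          rw [← hκ2]; ring
        rw [hκ4, hκ2, hk]
        field_simp
        ring
      · have hW := hcube (Wp R) (Wp_mem hR) (Ric_Wp hn R)
        have e1 : √Y = 2 * κ * √(ip (Wp R) (Wp R)) := by
          rw [hY, Real.sqrt_mul (by positivity), Real.sqrt_sq (by positivity)]
        rw [e1]
        set w := √(ip (Wp R) (Wp R)) with hw
        have hw0 : 0 ≤ w := Real.sqrt_nonneg _
        calc 4 * κ ^ 2 * T3 (Wp R) (Wp R) (Wp R) ≤ 4 * κ ^ 2 * (β * w ^ 3) :=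
              mul_le_mul_of_nonneg_left hW (by positivity)
          _ ≤ 4 * κ ^ 2 * ((c * (2 * κ)) * w ^ 3) := by
              apply mul_le_mul_of_nonneg_left _ (by positivity)
              exact mul_le_mul_of_nonneg_right hβκ (by positivity)
          _ = c * (2 * κ * w) ^ 3 := by ring)
  exact isPinchingCone_of hn h

/-- the value of `g` -/
noncomputable def gn (n : ℕ) : ℝ := 40 / (5 * n + 44)

/-- the value of `κ` -/
noncomputable def kn (n : ℕ) : ℝ := √(((n : ℝ) - 2) / (4 * gn n * n * (n - 1)))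

lemma gn_pos : 0 < gn n := by unfold gn; positivity

lemma kn_sq (hn : 4 ≤ n) : kn n ^ 2 = ((n : ℝ) - 2) / (4 * gn n * n * (n - 1)) := by
  have h4 : (4 : ℝ) ≤ n := by exact_mod_cast hn
  have hn1 : (0 : ℝ) < (n : ℝ) - 1 := by linarith
  have hn2 : (0 : ℝ) < (n : ℝ) - 2 := by linarith
  have := gn_pos (n := n)
  exact Real.sq_sqrt (by positivity)

lemma kn_pos (hn : 4 ≤ n) : 0 < kn n := by
  have h4 : (4 : ℝ) ≤ n := by exact_mod_cast hn
  have hn1 : (0 : ℝ) < (n : ℝ) - 1 := by linarith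
  have hn2 : (0 : ℝ) < (n : ℝ) - 2 := by linarith
  have := gn_pos (n := n)
  exact Real.sqrt_pos.mpr (by positivity)

/-- The ellipsoidal cone. -/
noncomputable def ellCone (n : ℕ) : Set (Curv n) := coneC (alphaC n) (phiC n (kn n) (2 * kn n))

lemma ellCone_pinching (hn : 4 ≤ n) : IsPinchingCone (ellCone n) := by
  rcases hn.eq_or_lt with h | h
  · subst h
    apply exists_ellipsoid (le_refl 4) (ε := 1 / 100) (g := gn 4) (c := 252 / 100)
      (β := 12963 / 10000) (by norm_num) _ gn_pos (by norm_num) (by norm_num) _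
      (fun W hW hRic => weyl_cube_four hW hRic) _ (kn_pos (le_refl 4)) (kn_sq (le_refl 4))
    · unfold gn; norm_num
    · have : gn 4 = 5 / 8 := by unfold gn; norm_num
      rw [this]
      exact_mod_cast cond_four
    · unfold gn; norm_num
  · have h5 : 5 ≤ n := h
    have h5' : (5 : ℝ) ≤ n := by exact_mod_cast h5
    set m : ℝ := (n : ℝ) - 5 with hm
    have hm0 : 0 ≤ m := by linarith
    have hnm : (n : ℝ) = 5 + m := by rw [hm]; ring
    have hg : gn n = 40 / (69 + 5 * m) := by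
      unfold gn; rw [hnm]; congr 1; ring
    apply exists_ellipsoid hn (ε := 1 / 100) (g := gn n) (c := 36 / 10 + m / 10)
      (β := 18108 / 10000) (by norm_num) _ gn_pos (by positivity) (by norm_num) _
      (fun W hW hRic => weyl_cube_gen h5 hW hRic) _ (kn_pos hn) (kn_sq hn)
    · rw [hg]
      have : 40 / (69 + 5 * m) ≤ 40 / 69 := by
        apply div_le_div_of_nonneg_left (by norm_num) (by norm_num) (by linarith)
      linarith
    · rw [hg, hnm]
      exact cond_gen hm0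
    · rw [hg, hnm]
      have e : (18108 / 10000 : ℝ) ^ 2 * (40 / (69 + 5 * m) * (5 + m) * (5 + m - 1)) =
          ((18108 / 10000 : ℝ) ^ 2 * (40 * (5 + m) * (5 + m - 1))) / (69 + 5 * m) := by
        field_simp
      rw [e, div_le_iff₀ (by positivity)]
      nlinarith [mul_nonneg hm0 (sq_nonneg (m - 1)), mul_nonneg hm0 hm0, pow_nonneg hm0 3,
        pow_nonneg hm0 4]

end Pool.Agent.RicciCone
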