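import Mathlib
import Pool.Agent.MP_952e48_gt.Cones

set_option autoImplicit false

/-!
# The cone `C_IC1`
-/

namespace Pool.Agent.RicciCone

open Finset

variable {n : ℕ}

/-- `⟨R (u ∧ v), w ∧ z⟩` for vectors `u, v, w, z` of `ℝⁿ`. -/
def evalCurv (R : Tensor4 n) (u v w z : EuclideanSpace ℝ (Fin n)) : ℝ :=
  ∑ i, ∑ j, ∑ k, ∑ l, R i j k l * u i * v j * w k * z l

/-- The cone `C_IC1`: all `R` with
`R₁₃₁₃ + c² R₁₄₁₄ + R₂₃₂₃ + c² R₂₄₂₄ - 2 c R₁₂₃₄ ≥ 0` for all orthonormal `e₁, …, e₄` and all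
`c ∈ [0,1]` (here `e₁, …, e₄` are `e 0, …, e 3`). -/
def coneIC1 (n : ℕ) : Set (Curv n) :=
  {R | ∀ e : Fin 4 → EuclideanSpace ℝ (Fin n), Orthonormal ℝ e → ∀ c ∈ Set.Icc (0 : ℝ) 1,
    0 ≤ evalCurv (R : Tensor4 n) (e 0) (e 2) (e 0) (e 2) +
      c ^ 2 * evalCurv (R : Tensor4 n) (e 0) (e 3) (e 0) (e 3) +
      evalCurv (R : Tensor4 n) (e 1) (e 2) (e 1) (e 2) +
      c ^ 2 * evalCurv (R : Tensor4 n) (e 1) (e 3) (e 1) (e 3) -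
      2 * c * evalCurv (R : Tensor4 n) (e 0) (e 1) (e 2) (e 3)}

end Pool.Agent.RicciCone
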