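import Mathlib
import Pool.Agent.MP_952e48_gt.Final
import Pool.Agent.MP_952e48_gt.IC1

set_option autoImplicit false

/-!
# The ellipsoidal cones are not contained in `C_IC1`
-/

namespace Pool.Agent.RicciCone

open Finset

variable {n : ℕ}

lemma evalCurv_single (R : Tensor4 n) (a b c d : Fin n) :
    evalCurv R (EuclideanSpace.single a 1) (EuclideanSpace.single b 1)
      (EuclideanSpace.single c 1) (EuclideanSpace.single d 1) = R a b c d := by
  unfold evalCurv
  rw [Finset.sum_eq_single a]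
  · rw [Finset.sum_eq_single b]
    · rw [Finset.sum_eq_single c]
      · rw [Finset.sum_eq_single d]
        · simp
        · intro l _ hl; simp [hl]
        · simp
      · intro k _ hk; simp [hk]
      · simp
    · intro j _ hj; simp [hj]
    · simp
  · intro i _ hi; simp [hi]
  · simp

/-- components of `e_p ∧ e_q` -/
def wd (p q : Fin n) (i j : Fin n) : ℝ := dl p i * dl q j - dl q i * dl p j

/-- the curvature operator `(e_a ∧ e_c)² + (e_b ∧ e_c)²` -/
def LL (a b c : Fin n) : Tensor4 n := fun i j k l =>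
  wd a c i j * wd a c k l + wd b c i j * wd b c k l

lemma LL_mem (a b c : Fin n) : LL a b c ∈ curvSubmodule n := by
  refine ⟨fun i j k l => ?_, fun i j k l => ?_, fun i j k l => ?_⟩
  · simp only [LL, wd]; ring
  · simp only [LL, wd]; ring
  · simp only [LL, wd]; ring

lemma sum_dl_left (f : Fin n → ℝ) (i : Fin n) : ∑ j, f j * dl i j = f i := sum_dl f i

lemma ip_wd {R : Tensor4 n} (hR : R ∈ curvSubmodule n) (p q : Fin n) :
    ip R (fun i j k l => wd p q i j * wd p q k l) = 4 * R p q p q := by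
  have e1 : ∀ (A : Fin n → Fin n → ℝ), ∑ i, ∑ j, A i j * wd p q i j = A p q - A q p := by
    intro A
    have : ∀ i, ∑ j, A i j * wd p q i j = A i q * dl p i - A i p * dl q i := by
      intro i
      have a1 : ∀ j, A i j * wd p q i j = (A i j * dl p i) * dl q j - (A i j * dl q i) * dl p j := by
        intro j; unfold wd; ring
      simp only [a1, Finset.sum_sub_distrib]
      rw [sum_dl (fun j => A i j * dl p i) q, sum_dl (fun j => A i j * dl q i) p]
    simp only [this, Finset.sum_sub_distrib]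
    rw [sum_dl (fun i => A i q) p, sum_dl (fun i => A i p) q]
  unfold ip
  have e2 : ∀ i j, ∑ k, ∑ l, R i j k l * (wd p q i j * wd p q k l) =
      (R i j p q - R i j q p) * wd p q i j := by
    intro i j
    rw [← e1 (fun k l => R i j k l), Finset.sum_mul]
    apply Finset.sum_congr rfl; intro k _
    rw [Finset.sum_mul]
    apply Finset.sum_congr rfl; intro l _
    ring
  simp only [e2]
  rw [e1 (fun i j => R i j p q - R i j q p)]
  rw [anti34 hR p q p q, anti12 hR p q p q, anti12 hR p q q p, anti34 hR p q p q]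
  ring

lemma ip_LL {R : Tensor4 n} (hR : R ∈ curvSubmodule n) (a b c : Fin n) :
    ip R (LL a b c) = 4 * (R a c a c + R b c b c) := by
  have e : LL a b c = (fun i j k l => wd a c i j * wd a c k l) +
    (fun i j k l => wd b c i j * wd b c k l) := rfl
  rw [e, ip_add_right, ip_wd hR, ip_wd hR]; ring

lemma dl_self (i : Fin n) : dl i i = 1 := by simp [dl]

lemma dl_ne {i j : Fin n} (h : i ≠ j) : dl i j = 0 := by simp [dl, h]

lemma ip_LL_self {a b c : Fin n} (hab : a ≠ b) (hac : a ≠ c) (hbc : b ≠ c) :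
    ip (LL a b c) (LL a b c) = 8 := by
  rw [ip_LL (LL_mem a b c)]
  simp only [LL, wd, dl_self, dl_ne hab, dl_ne hac, dl_ne hbc, dl_ne hab.symm, dl_ne hac.symm,
    dl_ne hbc.symm]
  norm_num

lemma Ric_LL {a b c : Fin n} (hac : a ≠ c) (hbc : b ≠ c) (i k : Fin n) :
    Ric (LL a b c) i k = dl a i * dl a k + dl b i * dl b k + 2 * (dl c i * dl c k) := by
  have e1 : ∀ p q : Fin n, p ≠ q → ∑ j, wd p q i j * wd p q k j =
      dl p i * dl p k + dl q i * dl q k := by
    intro p q hpq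
    have a1 : ∀ j, wd p q i j * wd p q k j =
        (dl p i * dl p k * dl q j - dl p i * dl q k * dl p j) * dl q j -
        (dl q i * dl p k * dl q j - dl q i * dl q k * dl p j) * dl p j := by
      intro j; unfold wd; ring
    simp only [a1, Finset.sum_sub_distrib]
    rw [sum_dl (fun j => dl p i * dl p k * dl q j - dl p i * dl q k * dl p j) q,
      sum_dl (fun j => dl q i * dl p k * dl q j - dl q i * dl q k * dl p j) p, dl_self, dl_self,
      dl_ne hpq, dl_ne hpq.symm]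
    ring
  unfold Ric LL
  rw [Finset.sum_add_distrib, e1 a c hac, e1 b c hbc]; ring

lemma sum_dl_sq (p q : Fin n) : ∑ i, dl p i * dl q i = dl p q := by
  rw [sum_dl (fun i => dl p i) q]

lemma trRic_LL {a b c : Fin n} (hac : a ≠ c) (hbc : b ≠ c) :
    ∑ i, Ric (LL a b c) i i = 4 := by
  simp only [Ric_LL hac hbc, Finset.sum_add_distrib, ← Finset.mul_sum, sum_dl_sq, dl_self]
  norm_num

lemma ip2_Ric_LL {a b c : Fin n} (hab : a ≠ b) (hac : a ≠ c) (hbc : b ≠ c) :
    ip2 (Ric (LL a b c)) (Ric (LL a b c)) = 6 := by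
  have e1 : ∀ (A : Fin n → Fin n → ℝ) (p : Fin n), ∑ i, ∑ k, A i k * (dl p i * dl p k) = A p p := by
    intro A p
    have : ∀ i, ∑ k, A i k * (dl p i * dl p k) = A i p * dl p i := by
      intro i
      have a1 : ∀ k, A i k * (dl p i * dl p k) = (A i k * dl p i) * dl p k := fun k => by ring
      simp only [a1]
      exact sum_dl (fun k => A i k * dl p i) p
    simp only [this]
    exact sum_dl (fun i => A i p) p
  have e2 : ip2 (Ric (LL a b c)) (Ric (LL a b c)) = Ric (LL a b c) a a + Ric (LL a b c) b b +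
      2 * Ric (LL a b c) c c := by
    rw [← e1 (Ric (LL a b c)) a, ← e1 (Ric (LL a b c)) b, ← e1 (Ric (LL a b c)) c]
    rw [Finset.mul_sum]
    simp only [Finset.mul_sum, ← Finset.sum_add_distrib]
    unfold ip2
    apply Finset.sum_congr rfl; intro i _
    apply Finset.sum_congr rfl; intro k _
    conv_lhs => rw [Ric_LL hac hbc i k]
    conv_rhs => rw [Ric_LL hac hbc i k]
    ring
  rw [e2]
  simp only [Ric_LL hac hbc, dl_self, dl_ne hab, dl_ne hac, dl_ne hbc, dl_ne hab.symm,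
    dl_ne hac.symm, dl_ne hbc.symm]
  norm_num

lemma al_LL {a b c : Fin n} (hac : a ≠ c) (hbc : b ≠ c) :
    al (LL a b c) = 4 / (n * (n - 1)) := by
  unfold al
  rw [trRic_LL hac hbc]

/-! ### projections -/

lemma al_S0 (hn : 4 ≤ n) (R : Tensor4 n) : al (S0 R) = 0 := by
  unfold al; rw [Ric_S0 hn, tr_rr hn, zero_div]

lemma al_Wp (hn : 4 ≤ n) (R : Tensor4 n) : al (Wp R) = 0 := by
  unfold al; rw [Ric_Wp hn]; simp

lemma Sp_S0 (hn : 4 ≤ n) (R : Tensor4 n) : Sp (S0 R) = S0 R := by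
  conv_lhs => unfold Sp
  rw [al_S0 hn]; simp

lemma Sp_Wp (hn : 4 ≤ n) (R : Tensor4 n) : Sp (Wp R) = Wp R := by
  conv_lhs => unfold Sp
  rw [al_Wp hn]; simp

lemma rr_S0 (hn : 4 ≤ n) (R : Tensor4 n) : rr (S0 R) = rr R := by
  conv_lhs => unfold rr
  rw [Sp_S0 hn, Ric_S0 hn]

lemma rr_Wp (hn : 4 ≤ n) (R : Tensor4 n) : rr (Wp R) = 0 := by
  conv_lhs => unfold rr
  rw [Sp_Wp hn, Ric_Wp hn]

lemma S0_S0 (hn : 4 ≤ n) (R : Tensor4 n) : S0 (S0 R) = S0 R := by
  conv_lhs => rw [S0.eq_1]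
  rw [rr_S0 hn]; rfl

lemma S0_Wp (hn : 4 ≤ n) (R : Tensor4 n) : S0 (Wp R) = 0 := by
  conv_lhs => rw [S0.eq_1]
  rw [rr_Wp hn]
  have : K (0 : Fin n → Fin n → ℝ) = 0 := by
    funext i j k l; simp [K]
  rw [this, smul_zero]

lemma Wp_S0 (hn : 4 ≤ n) (R : Tensor4 n) : Wp (S0 R) = 0 := by
  conv_lhs => rw [Wp.eq_1]
  rw [S0_S0 hn, Sp_S0 hn, neg_smul, one_smul, add_neg_cancel]

lemma Wp_Wp (hn : 4 ≤ n) (R : Tensor4 n) : Wp (Wp R) = Wp R := by
  conv_lhs => rw [Wp.eq_1]
  rw [S0_Wp hn, Sp_Wp hn, smul_zero, add_zero]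

lemma ip_id_id : ip (idTensor n) (idTensor n) = 2 * (n * (n - 1)) := by
  rw [ip_id (idTensor_mem n)]
  simp only [Ric_id, ← Finset.mul_sum, sum_dl_diag]
  ring

/-- The ellipsoidal cone is not contained in `C_IC1`. -/
lemma ellCone_not_subset (hn : 4 ≤ n) : ¬ ellCone n ⊆ coneIC1 n := by
  intro hsub
  have h4 : (4 : ℝ) ≤ n := by exact_mod_cast hn
  have hn1 : (0 : ℝ) < (n : ℝ) - 1 := by linarith
  have hn2 : (0 : ℝ) < (n : ℝ) - 2 := by linarith
  have hn0 : (0 : ℝ) < (n : ℝ) := by linarith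
  -- the basis vectors
  set ix : Fin 4 → Fin n := Fin.castLE hn with hix
  have hinj : Function.Injective ix := Fin.castLE_injective hn
  set a := ix 0 with ha
  set b := ix 1 with hb
  set c := ix 2 with hc
  have hab : a ≠ b := fun h => absurd (hinj h) (by decide)
  have hac : a ≠ c := fun h => absurd (hinj h) (by decide)
  have hbc : b ≠ c := fun h => absurd (hinj h) (by decide)
  set L : Tensor4 n := LL a b c with hL
  have hLm : L ∈ curvSubmodule n := LL_mem a b c
  -- norms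
  have hrr : ip2 (rr L) (rr L) = 6 - 16 / n := by
    have h1 := ip2_Ric_eq hn L
    rw [hL, ip2_Ric_LL hab hac hbc, al_LL hac hbc] at h1
    have e : (4 / ((n : ℝ) * (n - 1)) * (n - 1)) ^ 2 * n = 16 / n := by
      field_simp
      ring
    rw [e] at h1
    linarith
  have hS : ip (S0 L) (S0 L) = 4 / ((n : ℝ) - 2) * (6 - 16 / n) := by
    rw [ip_S0_S0 hn hLm, hrr]
  have hW : ip (Wp L) (Wp L) = 8 - 32 / (n * (n - 1)) - 4 / ((n : ℝ) - 2) * (6 - 16 / n) := by
    have h1 := ip_self_decomp hn hLm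
    rw [hS, hL, ip_LL_self hab hac hbc, al_LL hac hbc, ip_id_id] at h1
    have e : (4 / ((n : ℝ) * (n - 1))) ^ 2 * (2 * (n * (n - 1))) = 32 / (n * (n - 1)) := by
      field_simp
      ring
    rw [e] at h1
    rw [hL]
    linarith
  set κ := kn n with hκdef
  have hκ : 0 < κ := kn_pos hn
  have hκ2 : κ ^ 2 = ((n : ℝ) - 2) / (4 * gn n * n * (n - 1)) := kn_sq hn
  set A2 : ℝ := 1 / (4 * κ ^ 2) with hA2
  have hA2pos : 0 < A2 := by positivity
  have hκA : κ ^ 2 * A2 = 1 / 4 := by rw [hA2]; field_simp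
  -- the vector
  set V : Tensor4 n := A2 • S0 L + (A2 / 4) • Wp L with hV
  have hVm : V ∈ curvSubmodule n := (curvSubmodule n).add_mem
    ((curvSubmodule n).smul_mem _ (S0_mem hLm)) ((curvSubmodule n).smul_mem _ (Wp_mem hLm))
  set D : ℝ := (A2 * ip (S0 L) (S0 L) + (A2 / 4) * ip (Wp L) (Wp L)) / 4 with hD
  have hVL : ip V L = 4 * D := by
    rw [hV, ip_add_left, ip_smul_left, ip_smul_left]
    have e1 : ip (S0 L) L = ip (S0 L) (S0 L) := (ip_S0_eq hn hLm hLm).symm
    have e2 : ip (Wp L) L = ip (Wp L) (Wp L) := (ip_Wp_eq hn hLm L).symm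
    rw [e1, e2, hD]; ring
  have hDval : D = 20 * ((n : ℝ) ^ 3 + 6 * n ^ 2 - 35 * n + 32) / ((5 * n + 44) * (n - 2) ^ 2) := by
    rw [hD, hS, hW, hA2, hκ2]
    unfold gn
    field_simp
    ring
  have hD4 : 4 < D := by
    rw [hDval, lt_div_iff₀ (by positivity)]
    nlinarith
  have hD0 : 0 < D := by linarith
  set t : ℝ := 1 / √D with ht
  have hsD : 0 < √D := Real.sqrt_pos.mpr hD0
  have htD : t ^ 2 * D = 1 := by
    rw [ht, div_pow, Real.sq_sqrt hD0.le]; field_simp
  have htD2 : t * D = √D := by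
    rw [ht, one_div, inv_mul_eq_div, Real.div_sqrt]
  have hs2 : 2 < √D := by
    rw [show (2 : ℝ) = √4 by
      rw [show (4 : ℝ) = 2 ^ 2 by norm_num]; exact (Real.sqrt_sq (by norm_num)).symm]
    exact Real.sqrt_lt_sqrt (by norm_num) hD4
  -- the curvature operator
  set R : Curv n := ⟨idTensor n + (-t) • V, (curvSubmodule n).add_mem (idTensor_mem n)
    ((curvSubmodule n).smul_mem _ hVm)⟩ with hR
  have hRt : (R : Tensor4 n) = idTensor n + (-t) • V := rfl
  have hal : al (R : Tensor4 n) = 1 := by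
    rw [hRt, al_add, al_smul, hV, al_add, al_smul, al_smul, al_S0 hn, al_Wp hn, al_id hn]; ring
  have hS0R : S0 (R : Tensor4 n) = (-(t * A2)) • S0 L := by
    rw [hRt, S0_add, S0_smul, hV, S0_add, S0_smul, S0_smul, S0_S0 hn, S0_Wp hn, S0_id hn,
      smul_zero, add_zero, zero_add, smul_smul]
    congr 1; ring
  have hWpR : Wp (R : Tensor4 n) = (-(t * (A2 / 4))) • Wp L := by
    rw [hRt, Wp_add, Wp_smul, hV, Wp_add, Wp_smul, Wp_smul, Wp_S0 hn, Wp_Wp hn, Wp_id hn,
      smul_zero, zero_add, zero_add, smul_smul]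
    congr 1; ring
  have hnorm : ‖phiC n κ (2 * κ) R‖ ^ 2 = 1 := by
    rw [phiC_norm_sq hn, hS0R, hWpR]
    simp only [ip_smul_left, ip_smul_right]
    have e : κ ^ 2 * (-(t * A2) * (-(t * A2) * ip (S0 L) (S0 L))) +
        (2 * κ) ^ 2 * (-(t * (A2 / 4)) * (-(t * (A2 / 4)) * ip (Wp L) (Wp L))) =
        t ^ 2 * ((κ ^ 2 * A2) * 4 * D) := by
      rw [hD]; ring
    rw [e, hκA]
    linarith
  have hmem : R ∈ ellCone n := by
    show ‖phiC n κ (2 * κ) R‖ ≤ alphaC n R
    rw [alphaC_apply, hal]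
    have : ‖phiC n κ (2 * κ) R‖ ^ 2 ≤ 1 ^ 2 := by rw [hnorm]; norm_num
    exact le_of_sq_le_sq this zero_le_one
  -- evaluate
  have h1 := hsub hmem (fun i => EuclideanSpace.single (ix i) (1 : ℝ))
    ((EuclideanSpace.orthonormal_single (𝕜 := ℝ) (ι := Fin n)).comp ix hinj)
    0 ⟨le_refl 0, zero_le_one⟩
  simp only [evalCurv_single] at h1
  have h2 : ip (R : Tensor4 n) L = 4 * ((R : Tensor4 n) a c a c + (R : Tensor4 n) b c b c) :=
    ip_LL R.2 a b c
  have h3 : ip (R : Tensor4 n) L = 8 - 4 * (t * D) := by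
    rw [hRt, ip_add_left, ip_smul_left, hVL, ip_comm, ip_id hLm, hL, trRic_LL hac hbc]; ring
  rw [htD2] at h3
  have h4' : 0 ≤ (R : Tensor4 n) a c a c + (R : Tensor4 n) b c b c := by
    have : (0 : ℝ) ^ 2 = 0 := by norm_num
    linarith [h1]
  linarith

end Pool.Agent.RicciCone
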